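import Pool.Agent.Lib_helper4.CW.Orb
import Pool.Agent.Lib_helper4.S7.QQ
import Pool.Agent.Lib_helper5.P7.Use
import Pool.Agent.Lib_helper4.LO.Half

/-!
Constant words: the components.
-/

namespace Pool.Agent.LibH4.CW

open Pool.Agent.Lib_helper5 Pool.Agent.Lib_helper5.LK Pool.Agent.LibH4.Ker
  Pool.Agent.Lib_helper5.TB Pool.Agent.LibH4.S7

/-- component -/
def c1 : Cmp := ⟨nat_lit 1, nat_lit 0, PT1, F1⟩
/-- component -/
def c3 : Cmp := ⟨nat_lit 3, nat_lit 1, PT3, F3⟩
/-- component -/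
def c4 : Cmp := ⟨nat_lit 4, nat_lit 1, PT4, F4⟩
/-- component -/
def c5 : Cmp := ⟨nat_lit 5, nat_lit 3, PT5, F5⟩
/-- component -/
def c7 : Cmp := ⟨nat_lit 7, nat_lit 5, PT7, F7⟩
/-- component -/
def c8 : Cmp := ⟨nat_lit 8, nat_lit 1, PT8, F8⟩
/-- component -/
def c11 : Cmp := ⟨nat_lit 11, nat_lit 9, PT11, F11⟩
/-- component -/
def c13 : Cmp := ⟨nat_lit 13, nat_lit 11, PT13, F13⟩
/-- component -/
def c17 : Cmp := ⟨nat_lit 17, nat_lit 15, PT17, F17⟩
/-- component -/
def c19 : Cmp := ⟨nat_lit 19, nat_lit 17, PT19, F19⟩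

/-- the component of a modulus -/
def cof (n : ℕ) : Cmp :=
  if n = 1 then c1 else if n = 3 then c3 else if n = 4 then c4 else if n = 5 then c5 else
  if n = 7 then c7 else if n = 8 then c8 else if n = 11 then c11 else if n = 13 then c13 else
  if n = 17 then c17 else c19

/-- the conditions on a discriminant -/
structure DOK (D : ℤ) : Prop where
  D8 : D % 8 = 5
  inr : ∀ p : ℕ, p.Prime → p ≠ 2 → p ∣ QQ → K5.In p D

/-- the forms of the discriminant have positions -/
def CP (n ex PT : ℕ) (F : List (ℕ × ℕ)) : Prop :=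
  ∀ D : ℤ, DOK D → ∀ P R S : ℤ, R ^ 2 + 4 * P * S = D →
    rs n P * iv n ex (rs n P) % n = 1 % n ∧
    F[pos n ex PT (rs n P) (rs n R) (rs n (-S))]? =
      some (rs n R * iv n ex (rs n P) % n, rs n (-S) * iv n ex (rs n P) % n)

/-- a component -/
structure CmpOK (c : Cmp) : Prop extends CmpB c where
  eq : c = cof c.n
  cp : CP c.n c.ex c.PT c.F

lemma cp_prime {p ex PT : ℕ} {F : List (ℕ × ℕ)} [NeZero p] (C : CompOK p ex PT F (adP p))
    (hp : p.Prime) (hp2 : p ≠ 2) (hQ : p ∣ QQ) : CP p ex PT F := by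
  intro D hD P R S hdis
  apply C.ok _ _ _ (rs_lt _) (rs_lt _) (rs_lt _)
  have h1 := hD.inr p hp hp2 hQ
  unfold K5.In at h1
  have e : (rs p R * rs p R + 4 * rs p P * (p - rs p (-S))) % p = rs p D := by
    apply rs_of
    rw [← hdis, Nat.cast_add, Nat.cast_mul, Nat.cast_mul, Nat.cast_mul,
      Nat.cast_sub (rs_lt (-S)).le, rs_cast, rs_cast, rs_cast, ZMod.natCast_self]
    push_cast
    ring
  have e' : adP p (rs p P) (rs p R) (rs p (-S)) =
    Nat.beq (Nat.mod (Nat.pow ((rs p R * rs p R + 4 * rs p P * (p - rs p (-S))) % p) (p / 2)) p)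
      (p - 1) := rfl
  rw [e', e]
  exact h1

lemma cp_two {n ex PT : ℕ} {F : List (ℕ × ℕ)} [NeZero n] (C : CompOK n ex PT F adO)
    (hn : 2 ∣ n) : CP n ex PT F := by
  intro D hD P R S hdis
  apply C.ok _ _ _ (rs_lt _) (rs_lt _) (rs_lt _)
  have key : ∀ x : ℤ, x % 2 = 1 → (rs n x) % 2 = 1 := by
    intro x hx
    have h1 : ((rs n x : ℕ) : ℤ) = x % n := by
      unfold rs
      rw [ZMod.val_intCast]
    obtain ⟨k, hk⟩ := hn
    have h2 : x % (n : ℤ) % 2 = x % 2 :=
      Int.emod_emod_of_dvd x (by rw [hk]; push_cast; exact Dvd.intro _ rfl)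
    omega
  obtain ⟨hR, hP, hS⟩ := odd_mul (R := R) (x := P) (y := S) hdis hD.D8
  have h1 := key P hP
  have h2 := key R hR
  have h3 := key (-S) (by omega)
  have h4 : rs n P * (rs n R * rs n (-S)) % 2 = 1 := by
    rw [Nat.mul_mod, Nat.mul_mod (rs n R), h1, h2, h3]
  unfold adO
  have h5 : Nat.mod (Nat.mul (rs n P) (Nat.mul (rs n R) (rs n (-S)))) 2 = 1 := h4
  rw [h5]
  rfl

lemma cp_one {n ex PT : ℕ} {F : List (ℕ × ℕ)} [NeZero n] (C : CompOK n ex PT F adT) :
    CP n ex PT F := fun _ _ _ _ _ _ => C.ok _ _ _ (rs_lt _) (rs_lt _) (rs_lt _) rfl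

instance : NeZero (nat_lit 1 : ℕ) := ⟨by decide⟩

/-- boolean check of the basic properties -/
def cmpCk (n ex : ℕ) (F : List (ℕ × ℕ)) : Bool :=
  decide (0 < n) && decide (n ≤ 19) && F.all (fun x => decide (x.1 < n) && decide (x.2 < n)) &&
    decide (F.length ≤ 255) &&
    (List.range n).all fun P => !(decide (Nat.gcd P n = 1)) || decide (P * iv n ex P % n = 1 % n)

lemma cmpCk_spec {c : Cmp} (h : cmpCk c.n c.ex c.F = true) : CmpB c := by
  unfold cmpCk at h
  simp only [Bool.and_eq_true, decide_eq_true_eq, List.all_eq_true, List.mem_range,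
    Bool.or_eq_true, Bool.not_eq_true', decide_eq_false_iff_not] at h
  obtain ⟨⟨⟨⟨h1, h2⟩, h3⟩, h4⟩, h5⟩ := h
  exact ⟨h1, h2, h3, h4, fun P hP hc => by
    rcases h5 P hP with h | h
    · exact absurd hc h
    · exact h⟩

lemma cp1 : CP 1 0 PT1 F1 := cp_one comp1
lemma ok1 : CmpOK c1 where
  toCmpB := cmpCk_spec (by decide +kernel)
  eq := rfl
  cp := cp1
lemma cp3 : CP 3 1 PT3 F3 := cp_prime comp3 (by norm_num) (by norm_num) (by decide)
lemma ok3 : CmpOK c3 where
  toCmpB := cmpCk_spec (by decide +kernel)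
  eq := rfl
  cp := cp3
lemma cp4 : CP 4 1 PT4 F4 := cp_two comp4 (by norm_num)
lemma ok4 : CmpOK c4 where
  toCmpB := cmpCk_spec (by decide +kernel)
  eq := rfl
  cp := cp4
lemma cp5 : CP 5 3 PT5 F5 := cp_prime comp5 (by norm_num) (by norm_num) (by decide)
lemma ok5 : CmpOK c5 where
  toCmpB := cmpCk_spec (by decide +kernel)
  eq := rfl
  cp := cp5
lemma cp7 : CP 7 5 PT7 F7 := cp_prime comp7 (by norm_num) (by norm_num) (by decide)
lemma ok7 : CmpOK c7 where
  toCmpB := cmpCk_spec (by decide +kernel)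
  eq := rfl
  cp := cp7
lemma cp8 : CP 8 1 PT8 F8 := cp_two comp8 (by norm_num)
lemma ok8 : CmpOK c8 where
  toCmpB := cmpCk_spec (by decide +kernel)
  eq := rfl
  cp := cp8
lemma cp11 : CP 11 9 PT11 F11 := cp_prime comp11 (by norm_num) (by norm_num) (by decide)
lemma ok11 : CmpOK c11 where
  toCmpB := cmpCk_spec (by decide +kernel)
  eq := rfl
  cp := cp11
lemma cp13 : CP 13 11 PT13 F13 := cp_prime comp13 (by norm_num) (by norm_num) (by decide)
lemma ok13 : CmpOK c13 where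
  toCmpB := cmpCk_spec (by decide +kernel)
  eq := rfl
  cp := cp13
lemma cp17 : CP 17 15 PT17 F17 := cp_prime comp17 (by norm_num) (by norm_num) (by decide)
lemma ok17 : CmpOK c17 where
  toCmpB := cmpCk_spec (by decide +kernel)
  eq := rfl
  cp := cp17
lemma cp19 : CP 19 17 PT19 F19 := cp_prime comp19 (by norm_num) (by norm_num) (by decide)
lemma ok19 : CmpOK c19 where
  toCmpB := cmpCk_spec (by decide +kernel)
  eq := rfl
  cp := cp19

/-- the components -/
def CL : List Cmp := [c1, c3, c4, c5, c7, c8, c11, c13, c17, c19]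

lemma CL_ok : ∀ c ∈ CL, CmpOK c := by
  intro c hc
  unfold CL at hc
  simp only [List.mem_cons, List.not_mem_nil, or_false] at hc
  rcases hc with rfl | rfl | rfl | rfl | rfl | rfl | rfl | rfl | rfl | rfl
  · exact ok1
  · exact ok3
  · exact ok4
  · exact ok5
  · exact ok7
  · exact ok8
  · exact ok11
  · exact ok13
  · exact ok17
  · exact ok19

end Pool.Agent.LibH4.CW
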