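import Pool.Agent.Lib_helper4.CW.Lst

/-!
Constant words: soundness of the search.
-/

namespace Pool.Agent.LibH4.CW

open Pool.Agent.LibH4.Ker Pool.Agent.Lib_helper5.TB

/-- the environment is true -/
def TrueAt : List (ℕ → Prop) → ℕ → Prop
  | [], _ => True
  | p :: ps, env => p (env % 256) ∧ TrueAt ps (env / 256)

lemma gt_eq (env j : ℕ) : gt env j = env / 2 ^ (8 * j) % 256 := by
  have e : gt env j = (env >>> (8 * j)) % 256 := rfl
  rw [e, Nat.shiftRight_eq_div_pow]

lemma TrueAt.get {ps : List (ℕ → Prop)} {env : ℕ} (h : TrueAt ps env) {j : ℕ} {p : ℕ → Prop}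
    (hj : ps[j]? = some p) : p (gt env j) := by
  induction ps generalizing env j with
  | nil => simp at hj
  | cons q ps ih =>
    obtain ⟨h1, h2⟩ := h
    cases j with
    | zero =>
      simp only [List.getElem?_cons_zero, Option.some.injEq] at hj
      subst hj
      rw [gt_eq, mul_zero, pow_zero, Nat.div_one]
      exact h1
    | succ j =>
      rw [List.getElem?_cons_succ] at hj
      have h3 := ih h2 hj
      rw [gt_eq] at h3 ⊢
      rw [Nat.div_div_eq_div_mul] at h3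
      rw [show (2 : ℕ) ^ (8 * (j + 1)) = 256 * 2 ^ (8 * j) by rw [mul_add, pow_add]; ring]
      exact h3

lemma TrueAt.cons {ps : List (ℕ → Prop)} {env : ℕ} (h : TrueAt ps env) {o : ℕ} (ho : o < 256)
    {p : ℕ → Prop} (hp : p o) : TrueAt (p :: ps) (o + 256 * env) := by
  refine ⟨?_, ?_⟩
  · rw [Nat.add_mul_mod_self_left, Nat.mod_eq_of_lt ho]; exact hp
  · rw [Nat.add_mul_div_left _ _ (by norm_num : 0 < 256), Nat.div_eq_of_lt ho, zero_add]; exact h

/-- period of a relation level -/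
def XX (c X0 X1 : ℕ) : ℕ := @Bool.rec (fun _ => ℕ) X1 X0 (Nat.beq c (nat_lit 0))

/-- a true relation level -/
structure ROK (N : ℕ) (ps : List (ℕ → Prop)) (j1 j2 j3 jl n1 n3 L W l X0 X1 tab tl pl : ℕ) :
    Prop where
  pX0 : 0 < X0
  pX1 : 0 < X1
  ck : ∀ env, TrueAt ps env → ∀ s,
    s = (tab >>> (W * ((gt env j2 * n3 + gt env j3) * n1 + gt env j1))) % 2 ^ W → ∀ K', 0 < K' →
    XX (d16 s L) X0 X1 ∣ K' →
    chk L l (d16 s L) s (tl >>> (32 * (pl * gt env jl))) pl (N % K') = true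

/-- a true genus level -/
structure GOK (N : ℕ) (ps : List (ℕ → Prop)) (j pl tl : ℕ) : Prop where
  ppl : 0 < pl
  ck : ∀ env, TrueAt ps env → ∀ K', 0 < K' → pl ∣ K' →
    by3 (d32 (tl >>> (32 * (pl * gt env j))) (N % K' % pl)) = 3

/-- true levels -/
inductive Valid (N : ℕ) : List (ℕ → Prop) → List Lv → Prop
  | nil (ps : List (ℕ → Prop)) : Valid N ps []
  | M {ps : List (ℕ → Prop)} {cnt : ℕ} {ls : List Lv} (p : ℕ → Prop) (o : ℕ) (ho : o < cnt)
      (ho2 : o < 256) (hp : p o) (h : Valid N (p :: ps) ls) : Valid N ps (Lv.M cnt :: ls)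
  | R {ps : List (ℕ → Prop)} {j1 j2 j3 jl n1 n3 L W l X0 X1 tab tl pl : ℕ} {ls : List Lv}
      (hR : ROK N ps j1 j2 j3 jl n1 n3 L W l X0 X1 tab tl pl) (h : Valid N ps ls) :
      Valid N ps (Lv.R j1 j2 j3 jl n1 n3 L W l X0 X1 tab tl pl :: ls)
  | G {ps : List (ℕ → Prop)} {j pl tl : ℕ} {ls : List Lv} (hG : GOK N ps j pl tl)
      (h : Valid N ps ls) : Valid N ps (Lv.G j pl tl :: ls)

lemma lift_spec {N X n K : ℕ} {p : ℕ → Bool} {ih : ℕ → ℕ → Bool} (h : lift X n K p ih = true)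
    (hK : 0 < K) (hX : 0 < X) (hn : N % K = n) :
    ∃ K', 0 < K' ∧ X ∣ K' ∧ (p (N % K') = true → ih (N % K') K' = true) := by
  have hg : 0 < Nat.gcd K X := Nat.gcd_pos_of_pos_left _ hK
  set q := X / Nat.gcd K X with hq
  have hq0 : 0 < q := Nat.div_pos (Nat.le_of_dvd hX (Nat.gcd_dvd_right _ _)) hg
  have h1 : allR (fun t => br (p (n + K * t)) (ih (n + K * t) (K * q))) q = true := h
  have h2 := allR_spec h1 (N / K % q) (Nat.mod_lt _ hq0)
  have e : n + K * (N / K % q) = N % (K * q) := by rw [Nat.mod_mul, hn]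
  simp only [e] at h2
  refine ⟨K * q, Nat.mul_pos hK hq0, ?_, fun hp => br_spec h2 hp⟩
  rw [hq, ← Nat.mul_div_assoc _ (Nat.gcd_dvd_right _ _)]
  exact Nat.dvd_lcm_right K X

/-- **soundness of the search** -/
theorem dfs_sound {N : ℕ} {ls : List Lv} {ps : List (ℕ → Prop)} (h : Valid N ps ls) :
    ∀ env n K, TrueAt ps env → 0 < K → N % K = n → dfs ls env n K = true → False := by
  induction h with
  | nil ps =>
    intro env n K _ _ _ hd
    exact absurd hd (by simp [dfs])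
  | M p o ho ho2 hp _ ih =>
    intro env n K ht hK hn hd
    have h1 := allR_spec hd o ho
    exact ih (o + 256 * env) n K (ht.cons ho2 hp) hK hn h1
  | @R ps j1 j2 j3 jl n1 n3 L W l X0 X1 tab tl pl ls hR _ ih =>
    intro env n K ht hK hn hd
    set s := (tab >>> (W * ((gt env j2 * n3 + gt env j3) * n1 + gt env j1))) % 2 ^ W with hs
    have h1 : lift (XX (d16 s L) X0 X1) n K
      (chk L l (d16 s L) s (tl >>> (32 * (pl * gt env jl))) pl) (dfs ls env) = true := hd
    have hX : 0 < XX (d16 s L) X0 X1 := by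
      unfold XX
      cases Nat.beq (d16 s L) (nat_lit 0) with
      | true => exact hR.pX0
      | false => exact hR.pX1
    obtain ⟨K', k1, k2, k3⟩ := lift_spec h1 hK hX hn
    exact ih env (N % K') K' ht k1 rfl (k3 (hR.ck env ht s hs K' k1 k2))
  | @G ps j pl tl ls hG _ ih =>
    intro env n K ht hK hn hd
    have h1 : lift pl n K (fun n => Nat.beq (by3 (d32 (tl >>> (32 * (pl * gt env j)))
      (Nat.mod n pl))) (nat_lit 3)) (dfs ls env) = true := hd
    obtain ⟨K', k1, k2, k3⟩ := lift_spec h1 hK hG.ppl hn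
    refine ih env (N % K') K' ht k1 rfl (k3 ?_)
    have := hG.ck env ht K' k1 k2
    change Nat.beq (by3 (d32 (tl >>> (32 * (pl * gt env j))) (N % K' % pl))) 3 = true
    rw [this]
    rfl

end Pool.Agent.LibH4.CW
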