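import Pool.Agent.Lib_helper4.CW.Rd
import Pool.Agent.Lib_helper5.P7.T_260F13
import Pool.Agent.Lib_helper5.P7.T_280F7
import Pool.Agent.Lib_helper5.P7.T_308F7
import Pool.Agent.Lib_helper5.P7.T_364F13a
import Pool.Agent.Lib_helper5.P7.T_364F13b
import Pool.Agent.Lib_helper5.P7.T_399F7
import Pool.Agent.Lib_helper5.P7.T_455F13a
import Pool.Agent.Lib_helper5.P7.T_455F13b
import Pool.Agent.Lib_helper5.P7.T_455F13c
import Pool.Agent.Lib_helper5.P7.T_455F13d
import Pool.Agent.Lib_helper5.P7.T_455F13e
import Pool.Agent.Lib_helper5.P7.T_455F5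

/-! generated: relations -/

namespace Pool.Agent.LibH4.CW

open Pool.Agent.LibH4.Ker Pool.Agent.Lib_helper5.TB Pool.Agent.LibH4.S7

/-- relation -/
def r_260F13 : RD := ⟨nat_lit 13, nat_lit 5, nat_lit 4, nat_lit 13, t1_260F13, t2_260F13, t3_260F13,
  rows_260F13, nat_lit 10, nat_lit 4⟩

lemma k_260F13 : RDOK r_260F13 :=
  rd_of (h := 169) tok_260F13 comp13 comp5 comp4 ok13 ok5 ok4 rfl rfl rfl (by norm_num) (by norm_num)
    (by norm_num) (by norm_num) (by norm_num) (by decide +kernel) (by decide +kernel)
    (by decide +kernel) (by decide +kernel) (by decide +kernel)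
    tab1_260F13 tab2_260F13 tab3_260F13 red1_260F13 red2_260F13
    red3_260F13 rok_260F13
    (ad_prime (by norm_num) (by norm_num) (by decide))
    (ad_prime (by norm_num) (by norm_num) (by decide))
    (ad_two (by norm_num))
    (by decide +kernel) (by decide +kernel) (by decide +kernel) (by decide +kernel)
    (by decide +kernel) (by decide +kernel)

/-- relation -/
def r_280F7 : RD := ⟨nat_lit 7, nat_lit 5, nat_lit 8, nat_lit 7, t1_280F7, t2_280F7, t3_280F7,
  rows_280F7, nat_lit 10, nat_lit 16⟩

lemma k_280F7 : RDOK r_280F7 :=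
  rd_of (h := 49) tok_280F7 comp7 comp5 comp8 ok7 ok5 ok8 rfl rfl rfl (by norm_num) (by norm_num)
    (by norm_num) (by norm_num) (by norm_num) (by decide +kernel) (by decide +kernel)
    (by decide +kernel) (by decide +kernel) (by decide +kernel)
    tab1_280F7 tab2_280F7 tab3_280F7 red1_280F7 red2_280F7
    red3_280F7 rok_280F7
    (ad_prime (by norm_num) (by norm_num) (by decide))
    (ad_prime (by norm_num) (by norm_num) (by decide))
    (ad_two (by norm_num))
    (by decide +kernel) (by decide +kernel) (by decide +kernel) (by decide +kernel)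
    (by decide +kernel) (by decide +kernel)

/-- relation -/
def r_308F7 : RD := ⟨nat_lit 11, nat_lit 7, nat_lit 4, nat_lit 7, t1_308F7, t2_308F7, t3_308F7,
  rows_308F7, nat_lit 21, nat_lit 4⟩

lemma k_308F7 : RDOK r_308F7 :=
  rd_of (h := 49) tok_308F7 comp11 comp7 comp4 ok11 ok7 ok4 rfl rfl rfl (by norm_num) (by norm_num)
    (by norm_num) (by norm_num) (by norm_num) (by decide +kernel) (by decide +kernel)
    (by decide +kernel) (by decide +kernel) (by decide +kernel)
    tab1_308F7 tab2_308F7 tab3_308F7 red1_308F7 red2_308F7
    red3_308F7 rok_308F7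
    (ad_prime (by norm_num) (by norm_num) (by decide))
    (ad_prime (by norm_num) (by norm_num) (by decide))
    (ad_two (by norm_num))
    (by decide +kernel) (by decide +kernel) (by decide +kernel) (by decide +kernel)
    (by decide +kernel) (by decide +kernel)

/-- relation -/
def r_364F13a : RD := ⟨nat_lit 13, nat_lit 7, nat_lit 4, nat_lit 13, t1_364F13a, t2_364F13a, t3_364F13a,
  rows_364F13a, nat_lit 21, nat_lit 4⟩

lemma k_364F13a : RDOK r_364F13a :=
  rd_of (h := 169) tok_364F13a comp13 comp7 comp4 ok13 ok7 ok4 rfl rfl rfl (by norm_num) (by norm_num)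
    (by norm_num) (by norm_num) (by norm_num) (by decide +kernel) (by decide +kernel)
    (by decide +kernel) (by decide +kernel) (by decide +kernel)
    tab1_364F13a tab2_364F13a tab3_364F13a red1_364F13a red2_364F13a
    red3_364F13a rok_364F13a
    (ad_prime (by norm_num) (by norm_num) (by decide))
    (ad_prime (by norm_num) (by norm_num) (by decide))
    (ad_two (by norm_num))
    (by decide +kernel) (by decide +kernel) (by decide +kernel) (by decide +kernel)
    (by decide +kernel) (by decide +kernel)

/-- relation -/
def r_364F13b : RD := ⟨nat_lit 13, nat_lit 7, nat_lit 4, nat_lit 13, t1_364F13b, t2_364F13b, t3_364F13b,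
  rows_364F13b, nat_lit 21, nat_lit 4⟩

lemma k_364F13b : RDOK r_364F13b :=
  rd_of (h := 169) tok_364F13b comp13 comp7 comp4 ok13 ok7 ok4 rfl rfl rfl (by norm_num) (by norm_num)
    (by norm_num) (by norm_num) (by norm_num) (by decide +kernel) (by decide +kernel)
    (by decide +kernel) (by decide +kernel) (by decide +kernel)
    tab1_364F13b tab2_364F13b tab3_364F13b red1_364F13b red2_364F13b
    red3_364F13b rok_364F13b
    (ad_prime (by norm_num) (by norm_num) (by decide))
    (ad_prime (by norm_num) (by norm_num) (by decide))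
    (ad_two (by norm_num))
    (by decide +kernel) (by decide +kernel) (by decide +kernel) (by decide +kernel)
    (by decide +kernel) (by decide +kernel)

/-- relation -/
def r_399F7 : RD := ⟨nat_lit 19, nat_lit 7, nat_lit 3, nat_lit 7, t1_399F7, t2_399F7, t3_399F7,
  rows_399F7, nat_lit 21, nat_lit 3⟩

lemma k_399F7 : RDOK r_399F7 :=
  rd_of (h := 49) tok_399F7 comp19 comp7 comp3 ok19 ok7 ok3 rfl rfl rfl (by norm_num) (by norm_num)
    (by norm_num) (by norm_num) (by norm_num) (by decide +kernel) (by decide +kernel)
    (by decide +kernel) (by decide +kernel) (by decide +kernel)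
    tab1_399F7 tab2_399F7 tab3_399F7 red1_399F7 red2_399F7
    red3_399F7 rok_399F7
    (ad_prime (by norm_num) (by norm_num) (by decide))
    (ad_prime (by norm_num) (by norm_num) (by decide))
    (ad_prime (by norm_num) (by norm_num) (by decide))
    (by decide +kernel) (by decide +kernel) (by decide +kernel) (by decide +kernel)
    (by decide +kernel) (by decide +kernel)

/-- relation -/
def r_455F13a : RD := ⟨nat_lit 13, nat_lit 7, nat_lit 5, nat_lit 13, t1_455F13a, t2_455F13a, t3_455F13a,
  rows_455F13a, nat_lit 21, nat_lit 10⟩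

lemma k_455F13a : RDOK r_455F13a :=
  rd_of (h := 169) tok_455F13a comp13 comp7 comp5 ok13 ok7 ok5 rfl rfl rfl (by norm_num) (by norm_num)
    (by norm_num) (by norm_num) (by norm_num) (by decide +kernel) (by decide +kernel)
    (by decide +kernel) (by decide +kernel) (by decide +kernel)
    tab1_455F13a tab2_455F13a tab3_455F13a red1_455F13a red2_455F13a
    red3_455F13a rok_455F13a
    (ad_prime (by norm_num) (by norm_num) (by decide))
    (ad_prime (by norm_num) (by norm_num) (by decide))
    (ad_prime (by norm_num) (by norm_num) (by decide))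
    (by decide +kernel) (by decide +kernel) (by decide +kernel) (by decide +kernel)
    (by decide +kernel) (by decide +kernel)

/-- relation -/
def r_455F13b : RD := ⟨nat_lit 13, nat_lit 7, nat_lit 5, nat_lit 13, t1_455F13b, t2_455F13b, t3_455F13b,
  rows_455F13b, nat_lit 21, nat_lit 10⟩

lemma k_455F13b : RDOK r_455F13b :=
  rd_of (h := 169) tok_455F13b comp13 comp7 comp5 ok13 ok7 ok5 rfl rfl rfl (by norm_num) (by norm_num)
    (by norm_num) (by norm_num) (by norm_num) (by decide +kernel) (by decide +kernel)
    (by decide +kernel) (by decide +kernel) (by decide +kernel)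
    tab1_455F13b tab2_455F13b tab3_455F13b red1_455F13b red2_455F13b
    red3_455F13b rok_455F13b
    (ad_prime (by norm_num) (by norm_num) (by decide))
    (ad_prime (by norm_num) (by norm_num) (by decide))
    (ad_prime (by norm_num) (by norm_num) (by decide))
    (by decide +kernel) (by decide +kernel) (by decide +kernel) (by decide +kernel)
    (by decide +kernel) (by decide +kernel)

/-- relation -/
def r_455F13c : RD := ⟨nat_lit 13, nat_lit 7, nat_lit 5, nat_lit 13, t1_455F13c, t2_455F13c, t3_455F13c,
  rows_455F13c, nat_lit 21, nat_lit 10⟩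

lemma k_455F13c : RDOK r_455F13c :=
  rd_of (h := 169) tok_455F13c comp13 comp7 comp5 ok13 ok7 ok5 rfl rfl rfl (by norm_num) (by norm_num)
    (by norm_num) (by norm_num) (by norm_num) (by decide +kernel) (by decide +kernel)
    (by decide +kernel) (by decide +kernel) (by decide +kernel)
    tab1_455F13c tab2_455F13c tab3_455F13c red1_455F13c red2_455F13c
    red3_455F13c rok_455F13c
    (ad_prime (by norm_num) (by norm_num) (by decide))
    (ad_prime (by norm_num) (by norm_num) (by decide))
    (ad_prime (by norm_num) (by norm_num) (by decide))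
    (by decide +kernel) (by decide +kernel) (by decide +kernel) (by decide +kernel)
    (by decide +kernel) (by decide +kernel)

/-- relation -/
def r_455F13d : RD := ⟨nat_lit 13, nat_lit 7, nat_lit 5, nat_lit 13, t1_455F13d, t2_455F13d, t3_455F13d,
  rows_455F13d, nat_lit 21, nat_lit 10⟩

lemma k_455F13d : RDOK r_455F13d :=
  rd_of (h := 169) tok_455F13d comp13 comp7 comp5 ok13 ok7 ok5 rfl rfl rfl (by norm_num) (by norm_num)
    (by norm_num) (by norm_num) (by norm_num) (by decide +kernel) (by decide +kernel)
    (by decide +kernel) (by decide +kernel) (by decide +kernel)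
    tab1_455F13d tab2_455F13d tab3_455F13d red1_455F13d red2_455F13d
    red3_455F13d rok_455F13d
    (ad_prime (by norm_num) (by norm_num) (by decide))
    (ad_prime (by norm_num) (by norm_num) (by decide))
    (ad_prime (by norm_num) (by norm_num) (by decide))
    (by decide +kernel) (by decide +kernel) (by decide +kernel) (by decide +kernel)
    (by decide +kernel) (by decide +kernel)

/-- relation -/
def r_455F13e : RD := ⟨nat_lit 13, nat_lit 7, nat_lit 5, nat_lit 13, t1_455F13e, t2_455F13e, t3_455F13e,
  rows_455F13e, nat_lit 21, nat_lit 10⟩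

lemma k_455F13e : RDOK r_455F13e :=
  rd_of (h := 169) tok_455F13e comp13 comp7 comp5 ok13 ok7 ok5 rfl rfl rfl (by norm_num) (by norm_num)
    (by norm_num) (by norm_num) (by norm_num) (by decide +kernel) (by decide +kernel)
    (by decide +kernel) (by decide +kernel) (by decide +kernel)
    tab1_455F13e tab2_455F13e tab3_455F13e red1_455F13e red2_455F13e
    red3_455F13e rok_455F13e
    (ad_prime (by norm_num) (by norm_num) (by decide))
    (ad_prime (by norm_num) (by norm_num) (by decide))
    (ad_prime (by norm_num) (by norm_num) (by decide))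
    (by decide +kernel) (by decide +kernel) (by decide +kernel) (by decide +kernel)
    (by decide +kernel) (by decide +kernel)

/-- relation -/
def r_455F5 : RD := ⟨nat_lit 13, nat_lit 7, nat_lit 5, nat_lit 5, t1_455F5, t2_455F5, t3_455F5,
  rows_455F5, nat_lit 21, nat_lit 10⟩

lemma k_455F5 : RDOK r_455F5 :=
  rd_of (h := 25) tok_455F5 comp13 comp7 comp5 ok13 ok7 ok5 rfl rfl rfl (by norm_num) (by norm_num)
    (by norm_num) (by norm_num) (by norm_num) (by decide +kernel) (by decide +kernel)
    (by decide +kernel) (by decide +kernel) (by decide +kernel)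
    tab1_455F5 tab2_455F5 tab3_455F5 red1_455F5 red2_455F5
    red3_455F5 rok_455F5
    (ad_prime (by norm_num) (by norm_num) (by decide))
    (ad_prime (by norm_num) (by norm_num) (by decide))
    (ad_prime (by norm_num) (by norm_num) (by decide))
    (by decide +kernel) (by decide +kernel) (by decide +kernel) (by decide +kernel)
    (by decide +kernel) (by decide +kernel)

end Pool.Agent.LibH4.CW
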