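import Pool.Agent.Lib_helper4.CW.Rd
import Pool.Agent.Lib_helper5.P7.T_520F5
import Pool.Agent.Lib_helper5.P7.T_520N17
import Pool.Agent.Lib_helper5.P7.T_520N7
import Pool.Agent.Lib_helper5.P7.T_572N5
import Pool.Agent.Lib_helper5.P7.T_595N13a
import Pool.Agent.Lib_helper5.P7.T_595N13b
import Pool.Agent.Lib_helper5.P7.T_616F11
import Pool.Agent.Lib_helper5.P7.T_616N13
import Pool.Agent.Lib_helper5.P7.T_680F17a
import Pool.Agent.Lib_helper5.P7.T_680F17b
import Pool.Agent.Lib_helper5.P7.T_680N13
import Pool.Agent.Lib_helper5.P7.T_715N7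

/-! generated: relations -/

namespace Pool.Agent.LibH4.CW

open Pool.Agent.LibH4.Ker Pool.Agent.Lib_helper5.TB Pool.Agent.LibH4.S7

/-- relation -/
def r_520F5 : RD := ⟨nat_lit 13, nat_lit 5, nat_lit 8, nat_lit 5, t1_520F5, t2_520F5, t3_520F5,
  rows_520F5, nat_lit 10, nat_lit 16⟩

lemma k_520F5 : RDOK r_520F5 :=
  rd_of (h := 25) tok_520F5 comp13 comp5 comp8 ok13 ok5 ok8 rfl rfl rfl (by norm_num) (by norm_num)
    (by norm_num) (by norm_num) (by norm_num) (by decide +kernel) (by decide +kernel)
    (by decide +kernel) (by decide +kernel) (by decide +kernel)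
    tab1_520F5 tab2_520F5 tab3_520F5 red1_520F5 red2_520F5
    red3_520F5 rok_520F5
    (ad_prime (by norm_num) (by norm_num) (by decide))
    (ad_prime (by norm_num) (by norm_num) (by decide))
    (ad_two (by norm_num))
    (by decide +kernel) (by decide +kernel) (by decide +kernel) (by decide +kernel)
    (by decide +kernel) (by decide +kernel)

/-- relation -/
def r_520N17 : RD := ⟨nat_lit 13, nat_lit 5, nat_lit 8, nat_lit 17, t1_520N17, t2_520N17, t3_520N17,
  rows_520N17, nat_lit 10, nat_lit 16⟩

lemma k_520N17 : RDOK r_520N17 :=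
  rd_of (h := 1) tok_520N17 comp13 comp5 comp8 ok13 ok5 ok8 rfl rfl rfl (by norm_num) (by norm_num)
    (by norm_num) (by norm_num) (by norm_num) (by decide +kernel) (by decide +kernel)
    (by decide +kernel) (by decide +kernel) (by decide +kernel)
    tab1_520N17 tab2_520N17 tab3_520N17 red1_520N17 red2_520N17
    red3_520N17 rok_520N17
    (ad_prime (by norm_num) (by norm_num) (by decide))
    (ad_prime (by norm_num) (by norm_num) (by decide))
    (ad_two (by norm_num))
    (by decide +kernel) (by decide +kernel) (by decide +kernel) (by decide +kernel)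
    (by decide +kernel) (by decide +kernel)

/-- relation -/
def r_520N7 : RD := ⟨nat_lit 13, nat_lit 5, nat_lit 8, nat_lit 7, t1_520N7, t2_520N7, t3_520N7,
  rows_520N7, nat_lit 10, nat_lit 16⟩

lemma k_520N7 : RDOK r_520N7 :=
  rd_of (h := 1) tok_520N7 comp13 comp5 comp8 ok13 ok5 ok8 rfl rfl rfl (by norm_num) (by norm_num)
    (by norm_num) (by norm_num) (by norm_num) (by decide +kernel) (by decide +kernel)
    (by decide +kernel) (by decide +kernel) (by decide +kernel)
    tab1_520N7 tab2_520N7 tab3_520N7 red1_520N7 red2_520N7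
    red3_520N7 rok_520N7
    (ad_prime (by norm_num) (by norm_num) (by decide))
    (ad_prime (by norm_num) (by norm_num) (by decide))
    (ad_two (by norm_num))
    (by decide +kernel) (by decide +kernel) (by decide +kernel) (by decide +kernel)
    (by decide +kernel) (by decide +kernel)

/-- relation -/
def r_572N5 : RD := ⟨nat_lit 11, nat_lit 13, nat_lit 4, nat_lit 5, t1_572N5, t2_572N5, t3_572N5,
  rows_572N5, nat_lit 78, nat_lit 4⟩

lemma k_572N5 : RDOK r_572N5 :=
  rd_of (h := 1) tok_572N5 comp11 comp13 comp4 ok11 ok13 ok4 rfl rfl rfl (by norm_num) (by norm_num)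
    (by norm_num) (by norm_num) (by norm_num) (by decide +kernel) (by decide +kernel)
    (by decide +kernel) (by decide +kernel) (by decide +kernel)
    tab1_572N5 tab2_572N5 tab3_572N5 red1_572N5 red2_572N5
    red3_572N5 rok_572N5
    (ad_prime (by norm_num) (by norm_num) (by decide))
    (ad_prime (by norm_num) (by norm_num) (by decide))
    (ad_two (by norm_num))
    (by decide +kernel) (by decide +kernel) (by decide +kernel) (by decide +kernel)
    (by decide +kernel) (by decide +kernel)

/-- relation -/
def r_595N13a : RD := ⟨nat_lit 17, nat_lit 7, nat_lit 5, nat_lit 13, t1_595N13a, t2_595N13a, t3_595N13a,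
  rows_595N13a, nat_lit 21, nat_lit 10⟩

lemma k_595N13a : RDOK r_595N13a :=
  rd_of (h := 1) tok_595N13a comp17 comp7 comp5 ok17 ok7 ok5 rfl rfl rfl (by norm_num) (by norm_num)
    (by norm_num) (by norm_num) (by norm_num) (by decide +kernel) (by decide +kernel)
    (by decide +kernel) (by decide +kernel) (by decide +kernel)
    tab1_595N13a tab2_595N13a tab3_595N13a red1_595N13a red2_595N13a
    red3_595N13a rok_595N13a
    (ad_prime (by norm_num) (by norm_num) (by decide))
    (ad_prime (by norm_num) (by norm_num) (by decide))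
    (ad_prime (by norm_num) (by norm_num) (by decide))
    (by decide +kernel) (by decide +kernel) (by decide +kernel) (by decide +kernel)
    (by decide +kernel) (by decide +kernel)

/-- relation -/
def r_595N13b : RD := ⟨nat_lit 17, nat_lit 7, nat_lit 5, nat_lit 13, t1_595N13b, t2_595N13b, t3_595N13b,
  rows_595N13b, nat_lit 21, nat_lit 10⟩

lemma k_595N13b : RDOK r_595N13b :=
  rd_of (h := 1) tok_595N13b comp17 comp7 comp5 ok17 ok7 ok5 rfl rfl rfl (by norm_num) (by norm_num)
    (by norm_num) (by norm_num) (by norm_num) (by decide +kernel) (by decide +kernel)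
    (by decide +kernel) (by decide +kernel) (by decide +kernel)
    tab1_595N13b tab2_595N13b tab3_595N13b red1_595N13b red2_595N13b
    red3_595N13b rok_595N13b
    (ad_prime (by norm_num) (by norm_num) (by decide))
    (ad_prime (by norm_num) (by norm_num) (by decide))
    (ad_prime (by norm_num) (by norm_num) (by decide))
    (by decide +kernel) (by decide +kernel) (by decide +kernel) (by decide +kernel)
    (by decide +kernel) (by decide +kernel)

/-- relation -/
def r_616F11 : RD := ⟨nat_lit 11, nat_lit 7, nat_lit 8, nat_lit 11, t1_616F11, t2_616F11, t3_616F11,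
  rows_616F11, nat_lit 21, nat_lit 16⟩

lemma k_616F11 : RDOK r_616F11 :=
  rd_of (h := 121) tok_616F11 comp11 comp7 comp8 ok11 ok7 ok8 rfl rfl rfl (by norm_num) (by norm_num)
    (by norm_num) (by norm_num) (by norm_num) (by decide +kernel) (by decide +kernel)
    (by decide +kernel) (by decide +kernel) (by decide +kernel)
    tab1_616F11 tab2_616F11 tab3_616F11 red1_616F11 red2_616F11
    red3_616F11 rok_616F11
    (ad_prime (by norm_num) (by norm_num) (by decide))
    (ad_prime (by norm_num) (by norm_num) (by decide))
    (ad_two (by norm_num))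
    (by decide +kernel) (by decide +kernel) (by decide +kernel) (by decide +kernel)
    (by decide +kernel) (by decide +kernel)

/-- relation -/
def r_616N13 : RD := ⟨nat_lit 11, nat_lit 7, nat_lit 8, nat_lit 13, t1_616N13, t2_616N13, t3_616N13,
  rows_616N13, nat_lit 21, nat_lit 16⟩

lemma k_616N13 : RDOK r_616N13 :=
  rd_of (h := 1) tok_616N13 comp11 comp7 comp8 ok11 ok7 ok8 rfl rfl rfl (by norm_num) (by norm_num)
    (by norm_num) (by norm_num) (by norm_num) (by decide +kernel) (by decide +kernel)
    (by decide +kernel) (by decide +kernel) (by decide +kernel)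
    tab1_616N13 tab2_616N13 tab3_616N13 red1_616N13 red2_616N13
    red3_616N13 rok_616N13
    (ad_prime (by norm_num) (by norm_num) (by decide))
    (ad_prime (by norm_num) (by norm_num) (by decide))
    (ad_two (by norm_num))
    (by decide +kernel) (by decide +kernel) (by decide +kernel) (by decide +kernel)
    (by decide +kernel) (by decide +kernel)

/-- relation -/
def r_680F17a : RD := ⟨nat_lit 17, nat_lit 5, nat_lit 8, nat_lit 17, t1_680F17a, t2_680F17a, t3_680F17a,
  rows_680F17a, nat_lit 10, nat_lit 16⟩

lemma k_680F17a : RDOK r_680F17a :=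
  rd_of (h := 289) tok_680F17a comp17 comp5 comp8 ok17 ok5 ok8 rfl rfl rfl (by norm_num) (by norm_num)
    (by norm_num) (by norm_num) (by norm_num) (by decide +kernel) (by decide +kernel)
    (by decide +kernel) (by decide +kernel) (by decide +kernel)
    tab1_680F17a tab2_680F17a tab3_680F17a red1_680F17a red2_680F17a
    red3_680F17a rok_680F17a
    (ad_prime (by norm_num) (by norm_num) (by decide))
    (ad_prime (by norm_num) (by norm_num) (by decide))
    (ad_two (by norm_num))
    (by decide +kernel) (by decide +kernel) (by decide +kernel) (by decide +kernel)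
    (by decide +kernel) (by decide +kernel)

/-- relation -/
def r_680F17b : RD := ⟨nat_lit 17, nat_lit 5, nat_lit 8, nat_lit 17, t1_680F17b, t2_680F17b, t3_680F17b,
  rows_680F17b, nat_lit 10, nat_lit 16⟩

lemma k_680F17b : RDOK r_680F17b :=
  rd_of (h := 289) tok_680F17b comp17 comp5 comp8 ok17 ok5 ok8 rfl rfl rfl (by norm_num) (by norm_num)
    (by norm_num) (by norm_num) (by norm_num) (by decide +kernel) (by decide +kernel)
    (by decide +kernel) (by decide +kernel) (by decide +kernel)
    tab1_680F17b tab2_680F17b tab3_680F17b red1_680F17b red2_680F17b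
    red3_680F17b rok_680F17b
    (ad_prime (by norm_num) (by norm_num) (by decide))
    (ad_prime (by norm_num) (by norm_num) (by decide))
    (ad_two (by norm_num))
    (by decide +kernel) (by decide +kernel) (by decide +kernel) (by decide +kernel)
    (by decide +kernel) (by decide +kernel)

/-- relation -/
def r_680N13 : RD := ⟨nat_lit 17, nat_lit 5, nat_lit 8, nat_lit 13, t1_680N13, t2_680N13, t3_680N13,
  rows_680N13, nat_lit 10, nat_lit 16⟩

lemma k_680N13 : RDOK r_680N13 :=
  rd_of (h := 1) tok_680N13 comp17 comp5 comp8 ok17 ok5 ok8 rfl rfl rfl (by norm_num) (by norm_num)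
    (by norm_num) (by norm_num) (by norm_num) (by decide +kernel) (by decide +kernel)
    (by decide +kernel) (by decide +kernel) (by decide +kernel)
    tab1_680N13 tab2_680N13 tab3_680N13 red1_680N13 red2_680N13
    red3_680N13 rok_680N13
    (ad_prime (by norm_num) (by norm_num) (by decide))
    (ad_prime (by norm_num) (by norm_num) (by decide))
    (ad_two (by norm_num))
    (by decide +kernel) (by decide +kernel) (by decide +kernel) (by decide +kernel)
    (by decide +kernel) (by decide +kernel)

/-- relation -/
def r_715N7 : RD := ⟨nat_lit 11, nat_lit 13, nat_lit 5, nat_lit 7, t1_715N7, t2_715N7, t3_715N7,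
  rows_715N7, nat_lit 78, nat_lit 10⟩

lemma k_715N7 : RDOK r_715N7 :=
  rd_of (h := 1) tok_715N7 comp11 comp13 comp5 ok11 ok13 ok5 rfl rfl rfl (by norm_num) (by norm_num)
    (by norm_num) (by norm_num) (by norm_num) (by decide +kernel) (by decide +kernel)
    (by decide +kernel) (by decide +kernel) (by decide +kernel)
    tab1_715N7 tab2_715N7 tab3_715N7 red1_715N7 red2_715N7
    red3_715N7 rok_715N7
    (ad_prime (by norm_num) (by norm_num) (by decide))
    (ad_prime (by norm_num) (by norm_num) (by decide))
    (ad_prime (by norm_num) (by norm_num) (by decide))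
    (by decide +kernel) (by decide +kernel) (by decide +kernel) (by decide +kernel)
    (by decide +kernel) (by decide +kernel)

end Pool.Agent.LibH4.CW
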