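import Pool.Agent.Lib_helper4.CW.Rd
import Pool.Agent.Lib_helper5.P7.T_728F13
import Pool.Agent.Lib_helper5.P7.T_728F7
import Pool.Agent.Lib_helper5.P7.T_728N19
import Pool.Agent.Lib_helper5.P7.T_728N5
import Pool.Agent.Lib_helper5.P7.T_88F11
import Pool.Agent.Lib_helper5.P7.T_91F13
import Pool.Agent.Lib_helper5.P7.T_935N7
import Pool.Agent.Lib_helper5.P7.T_95F19
import Pool.Agent.Lib_helper5.P7.T_95N13

/-! generated: relations -/

namespace Pool.Agent.LibH4.CW

open Pool.Agent.LibH4.Ker Pool.Agent.Lib_helper5.TB Pool.Agent.LibH4.S7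

/-- relation -/
def r_728F13 : RD := ⟨nat_lit 13, nat_lit 7, nat_lit 8, nat_lit 13, t1_728F13, t2_728F13, t3_728F13,
  rows_728F13, nat_lit 21, nat_lit 16⟩

lemma k_728F13 : RDOK r_728F13 :=
  rd_of (h := 169) tok_728F13 comp13 comp7 comp8 ok13 ok7 ok8 rfl rfl rfl (by norm_num) (by norm_num)
    (by norm_num) (by norm_num) (by norm_num) (by decide +kernel) (by decide +kernel)
    (by decide +kernel) (by decide +kernel) (by decide +kernel)
    tab1_728F13 tab2_728F13 tab3_728F13 red1_728F13 red2_728F13
    red3_728F13 rok_728F13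
    (ad_prime (by norm_num) (by norm_num) (by decide))
    (ad_prime (by norm_num) (by norm_num) (by decide))
    (ad_two (by norm_num))
    (by decide +kernel) (by decide +kernel) (by decide +kernel) (by decide +kernel)
    (by decide +kernel) (by decide +kernel)

/-- relation -/
def r_728F7 : RD := ⟨nat_lit 13, nat_lit 7, nat_lit 8, nat_lit 7, t1_728F7, t2_728F7, t3_728F7,
  rows_728F7, nat_lit 21, nat_lit 16⟩

lemma k_728F7 : RDOK r_728F7 :=
  rd_of (h := 49) tok_728F7 comp13 comp7 comp8 ok13 ok7 ok8 rfl rfl rfl (by norm_num) (by norm_num)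
    (by norm_num) (by norm_num) (by norm_num) (by decide +kernel) (by decide +kernel)
    (by decide +kernel) (by decide +kernel) (by decide +kernel)
    tab1_728F7 tab2_728F7 tab3_728F7 red1_728F7 red2_728F7
    red3_728F7 rok_728F7
    (ad_prime (by norm_num) (by norm_num) (by decide))
    (ad_prime (by norm_num) (by norm_num) (by decide))
    (ad_two (by norm_num))
    (by decide +kernel) (by decide +kernel) (by decide +kernel) (by decide +kernel)
    (by decide +kernel) (by decide +kernel)

/-- relation -/
def r_728N19 : RD := ⟨nat_lit 13, nat_lit 7, nat_lit 8, nat_lit 19, t1_728N19, t2_728N19, t3_728N19,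
  rows_728N19, nat_lit 21, nat_lit 16⟩

lemma k_728N19 : RDOK r_728N19 :=
  rd_of (h := 1) tok_728N19 comp13 comp7 comp8 ok13 ok7 ok8 rfl rfl rfl (by norm_num) (by norm_num)
    (by norm_num) (by norm_num) (by norm_num) (by decide +kernel) (by decide +kernel)
    (by decide +kernel) (by decide +kernel) (by decide +kernel)
    tab1_728N19 tab2_728N19 tab3_728N19 red1_728N19 red2_728N19
    red3_728N19 rok_728N19
    (ad_prime (by norm_num) (by norm_num) (by decide))
    (ad_prime (by norm_num) (by norm_num) (by decide))
    (ad_two (by norm_num))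
    (by decide +kernel) (by decide +kernel) (by decide +kernel) (by decide +kernel)
    (by decide +kernel) (by decide +kernel)

/-- relation -/
def r_728N5 : RD := ⟨nat_lit 13, nat_lit 7, nat_lit 8, nat_lit 5, t1_728N5, t2_728N5, t3_728N5,
  rows_728N5, nat_lit 21, nat_lit 16⟩

lemma k_728N5 : RDOK r_728N5 :=
  rd_of (h := 1) tok_728N5 comp13 comp7 comp8 ok13 ok7 ok8 rfl rfl rfl (by norm_num) (by norm_num)
    (by norm_num) (by norm_num) (by norm_num) (by decide +kernel) (by decide +kernel)
    (by decide +kernel) (by decide +kernel) (by decide +kernel)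
    tab1_728N5 tab2_728N5 tab3_728N5 red1_728N5 red2_728N5
    red3_728N5 rok_728N5
    (ad_prime (by norm_num) (by norm_num) (by decide))
    (ad_prime (by norm_num) (by norm_num) (by decide))
    (ad_two (by norm_num))
    (by decide +kernel) (by decide +kernel) (by decide +kernel) (by decide +kernel)
    (by decide +kernel) (by decide +kernel)

/-- relation -/
def r_88F11 : RD := ⟨nat_lit 11, nat_lit 8, nat_lit 1, nat_lit 11, t1_88F11, t2_88F11, t3_88F11,
  rows_88F11, nat_lit 16, nat_lit 1⟩

lemma k_88F11 : RDOK r_88F11 :=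
  rd_of (h := 121) tok_88F11 comp11 comp8 comp1 ok11 ok8 ok1 rfl rfl rfl (by norm_num) (by norm_num)
    (by norm_num) (by norm_num) (by norm_num) (by decide +kernel) (by decide +kernel)
    (by decide +kernel) (by decide +kernel) (by decide +kernel)
    tab1_88F11 tab2_88F11 tab3_88F11 red1_88F11 red2_88F11
    red3_88F11 rok_88F11
    (ad_prime (by norm_num) (by norm_num) (by decide))
    (ad_two (by norm_num))
    ad_one
    (by decide +kernel) (by decide +kernel) (by decide +kernel) (by decide +kernel)
    (by decide +kernel) (by decide +kernel)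

/-- relation -/
def r_91F13 : RD := ⟨nat_lit 13, nat_lit 7, nat_lit 1, nat_lit 13, t1_91F13, t2_91F13, t3_91F13,
  rows_91F13, nat_lit 21, nat_lit 1⟩

lemma k_91F13 : RDOK r_91F13 :=
  rd_of (h := 169) tok_91F13 comp13 comp7 comp1 ok13 ok7 ok1 rfl rfl rfl (by norm_num) (by norm_num)
    (by norm_num) (by norm_num) (by norm_num) (by decide +kernel) (by decide +kernel)
    (by decide +kernel) (by decide +kernel) (by decide +kernel)
    tab1_91F13 tab2_91F13 tab3_91F13 red1_91F13 red2_91F13
    red3_91F13 rok_91F13
    (ad_prime (by norm_num) (by norm_num) (by decide))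
    (ad_prime (by norm_num) (by norm_num) (by decide))
    ad_one
    (by decide +kernel) (by decide +kernel) (by decide +kernel) (by decide +kernel)
    (by decide +kernel) (by decide +kernel)

/-- relation -/
def r_935N7 : RD := ⟨nat_lit 17, nat_lit 11, nat_lit 5, nat_lit 7, t1_935N7, t2_935N7, t3_935N7,
  rows_935N7, nat_lit 55, nat_lit 10⟩

lemma k_935N7 : RDOK r_935N7 :=
  rd_of (h := 1) tok_935N7 comp17 comp11 comp5 ok17 ok11 ok5 rfl rfl rfl (by norm_num) (by norm_num)
    (by norm_num) (by norm_num) (by norm_num) (by decide +kernel) (by decide +kernel)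
    (by decide +kernel) (by decide +kernel) (by decide +kernel)
    tab1_935N7 tab2_935N7 tab3_935N7 red1_935N7 red2_935N7
    red3_935N7 rok_935N7
    (ad_prime (by norm_num) (by norm_num) (by decide))
    (ad_prime (by norm_num) (by norm_num) (by decide))
    (ad_prime (by norm_num) (by norm_num) (by decide))
    (by decide +kernel) (by decide +kernel) (by decide +kernel) (by decide +kernel)
    (by decide +kernel) (by decide +kernel)

/-- relation -/
def r_95F19 : RD := ⟨nat_lit 19, nat_lit 5, nat_lit 1, nat_lit 19, t1_95F19, t2_95F19, t3_95F19,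
  rows_95F19, nat_lit 10, nat_lit 1⟩

lemma k_95F19 : RDOK r_95F19 :=
  rd_of (h := 361) tok_95F19 comp19 comp5 comp1 ok19 ok5 ok1 rfl rfl rfl (by norm_num) (by norm_num)
    (by norm_num) (by norm_num) (by norm_num) (by decide +kernel) (by decide +kernel)
    (by decide +kernel) (by decide +kernel) (by decide +kernel)
    tab1_95F19 tab2_95F19 tab3_95F19 red1_95F19 red2_95F19
    red3_95F19 rok_95F19
    (ad_prime (by norm_num) (by norm_num) (by decide))
    (ad_prime (by norm_num) (by norm_num) (by decide))
    ad_one
    (by decide +kernel) (by decide +kernel) (by decide +kernel) (by decide +kernel)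
    (by decide +kernel) (by decide +kernel)

/-- relation -/
def r_95N13 : RD := ⟨nat_lit 19, nat_lit 5, nat_lit 1, nat_lit 13, t1_95N13, t2_95N13, t3_95N13,
  rows_95N13, nat_lit 10, nat_lit 1⟩

lemma k_95N13 : RDOK r_95N13 :=
  rd_of (h := 1) tok_95N13 comp19 comp5 comp1 ok19 ok5 ok1 rfl rfl rfl (by norm_num) (by norm_num)
    (by norm_num) (by norm_num) (by norm_num) (by decide +kernel) (by decide +kernel)
    (by decide +kernel) (by decide +kernel) (by decide +kernel)
    tab1_95N13 tab2_95N13 tab3_95N13 red1_95N13 red2_95N13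
    red3_95N13 rok_95N13
    (ad_prime (by norm_num) (by norm_num) (by decide))
    (ad_prime (by norm_num) (by norm_num) (by decide))
    ad_one
    (by decide +kernel) (by decide +kernel) (by decide +kernel) (by decide +kernel)
    (by decide +kernel) (by decide +kernel)

end Pool.Agent.LibH4.CW
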