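import Pool.Agent.Lib_helper4.CW.Rds0
import Pool.Agent.Lib_helper4.CW.Rds1
import Pool.Agent.Lib_helper4.CW.Rds2
import Pool.Agent.Lib_helper4.CW.Rds3

/-! generated: the list of the relations -/

namespace Pool.Agent.LibH4.CW

/-- the relations -/
def RL : List RD := [r_119N13, r_119N5, r_133N13, r_140N13, r_143N5, r_143N7,
  r_152F19a, r_152F19b, r_187F17a, r_187F17b, r_221N5, r_247F19a,
  r_260F13, r_280F7, r_308F7, r_364F13a, r_364F13b, r_399F7,
  r_455F13a, r_455F13b, r_455F13c, r_455F13d, r_455F13e, r_455F5,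
  r_520F5, r_520N17, r_520N7, r_572N5, r_595N13a, r_595N13b,
  r_616F11, r_616N13, r_680F17a, r_680F17b, r_680N13, r_715N7,
  r_728F13, r_728F7, r_728N19, r_728N5, r_88F11, r_91F13,
  r_935N7, r_95F19, r_95N13]

lemma RL_ok : ∀ r ∈ RL, RDOK r := by
  intro r hr
  unfold RL at hr
  simp only [List.mem_cons, List.not_mem_nil, or_false] at hr
  rcases hr with rfl | rfl | rfl | rfl | rfl | rfl | rfl | rfl | rfl | rfl | rfl | rfl |
    rfl | rfl | rfl | rfl | rfl | rfl | rfl | rfl | rfl | rfl | rfl | rfl |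
    rfl | rfl | rfl | rfl | rfl | rfl | rfl | rfl | rfl | rfl | rfl | rfl |
    rfl | rfl | rfl | rfl | rfl | rfl | rfl | rfl | rfl
  · exact k_119N13
  · exact k_119N5
  · exact k_133N13
  · exact k_140N13
  · exact k_143N5
  · exact k_143N7
  · exact k_152F19a
  · exact k_152F19b
  · exact k_187F17a
  · exact k_187F17b
  · exact k_221N5
  · exact k_247F19a
  · exact k_260F13
  · exact k_280F7
  · exact k_308F7
  · exact k_364F13a
  · exact k_364F13b
  · exact k_399F7
  · exact k_455F13a
  · exact k_455F13b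
  · exact k_455F13c
  · exact k_455F13d
  · exact k_455F13e
  · exact k_455F5
  · exact k_520F5
  · exact k_520N17
  · exact k_520N7
  · exact k_572N5
  · exact k_595N13a
  · exact k_595N13b
  · exact k_616F11
  · exact k_616N13
  · exact k_680F17a
  · exact k_680F17b
  · exact k_680N13
  · exact k_715N7
  · exact k_728F13
  · exact k_728F7
  · exact k_728N19
  · exact k_728N5
  · exact k_88F11
  · exact k_91F13
  · exact k_935N7
  · exact k_95F19
  · exact k_95N13

end Pool.Agent.LibH4.CW
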