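import Pool.Agent.Lib_helper4.CW.Cps
import Pool.Agent.Lib_helper4.CW.RL

/-! generated: eliminations -/

namespace Pool.Agent.LibH4.CW

set_option maxRecDepth 100000 in
theorem od_5 : elim false (nat_lit 5) CL RL
  [.M (nat_lit 0) (nat_lit 1), .M (nat_lit 4) (nat_lit 6), .M (nat_lit 7) (nat_lit 3),
    .R (nat_lit 41) (nat_lit 0) (nat_lit 1) (nat_lit 2) (nat_lit 0), .M (nat_lit 3) (nat_lit 2),
    .R (nat_lit 18) (nat_lit 1) (nat_lit 2) (nat_lit 0) (nat_lit 1),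
    .R (nat_lit 19) (nat_lit 1) (nat_lit 2) (nat_lit 0) (nat_lit 1), .M (nat_lit 8) (nat_lit 9),
    .R (nat_lit 0) (nat_lit 0) (nat_lit 3) (nat_lit 4) (nat_lit 2),
    .R (nat_lit 10) (nat_lit 0) (nat_lit 2) (nat_lit 4) (nat_lit 1)] = true := by
  decide +kernel

set_option maxRecDepth 100000 in
theorem od_13 : elim false (nat_lit 13) CL RL
  [.M (nat_lit 0) (nat_lit 1), .M (nat_lit 4) (nat_lit 8), .M (nat_lit 7) (nat_lit 2),
    .R (nat_lit 41) (nat_lit 0) (nat_lit 1) (nat_lit 2) (nat_lit 0), .M (nat_lit 3) (nat_lit 3),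
    .R (nat_lit 21) (nat_lit 1) (nat_lit 2) (nat_lit 0) (nat_lit 1),
    .R (nat_lit 18) (nat_lit 1) (nat_lit 2) (nat_lit 0) (nat_lit 1), .M (nat_lit 8) (nat_lit 3),
    .R (nat_lit 0) (nat_lit 0) (nat_lit 3) (nat_lit 4) (nat_lit 2),
    .R (nat_lit 1) (nat_lit 0) (nat_lit 3) (nat_lit 4) (nat_lit 1)] = true := by
  decide +kernel

set_option maxRecDepth 100000 in
theorem od_20 : elim false (nat_lit 20) CL RL
  [.M (nat_lit 0) (nat_lit 1), .M (nat_lit 4) (nat_lit 8), .M (nat_lit 7) (nat_lit 6),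
    .R (nat_lit 41) (nat_lit 0) (nat_lit 1) (nat_lit 2) (nat_lit 0), .M (nat_lit 3) (nat_lit 2),
    .R (nat_lit 20) (nat_lit 1) (nat_lit 2) (nat_lit 0) (nat_lit 1),
    .R (nat_lit 19) (nat_lit 1) (nat_lit 2) (nat_lit 0) (nat_lit 1), .M (nat_lit 9) (nat_lit 18),
    .R (nat_lit 44) (nat_lit 0) (nat_lit 1) (nat_lit 4) (nat_lit 2), .M (nat_lit 8) (nat_lit 8),
    .R (nat_lit 0) (nat_lit 0) (nat_lit 4) (nat_lit 5) (nat_lit 3)] = true := by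
  decide +kernel

set_option maxRecDepth 100000 in
theorem od_42 : elim false (nat_lit 42) CL RL
  [.M (nat_lit 0) (nat_lit 1), .M (nat_lit 4) (nat_lit 2), .M (nat_lit 7) (nat_lit 13),
    .R (nat_lit 41) (nat_lit 0) (nat_lit 1) (nat_lit 2) (nat_lit 0), .M (nat_lit 3) (nat_lit 3),
    .R (nat_lit 20) (nat_lit 1) (nat_lit 2) (nat_lit 0) (nat_lit 1), .M (nat_lit 6) (nat_lit 12),
    .R (nat_lit 5) (nat_lit 0) (nat_lit 2) (nat_lit 4) (nat_lit 3),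
    .R (nat_lit 35) (nat_lit 0) (nat_lit 2) (nat_lit 1) (nat_lit 3), .M (nat_lit 9) (nat_lit 6),
    .R (nat_lit 44) (nat_lit 0) (nat_lit 2) (nat_lit 5) (nat_lit 3), .M (nat_lit 8) (nat_lit 17),
    .R (nat_lit 0) (nat_lit 0) (nat_lit 5) (nat_lit 6) (nat_lit 4),
    .R (nat_lit 28) (nat_lit 0) (nat_lit 5) (nat_lit 3) (nat_lit 4)] = true := by
  decide +kernel

set_option maxRecDepth 100000 in
theorem od_49 : elim false (nat_lit 49) CL RL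
  [.M (nat_lit 0) (nat_lit 1), .M (nat_lit 4) (nat_lit 2), .M (nat_lit 7) (nat_lit 13),
    .R (nat_lit 41) (nat_lit 0) (nat_lit 1) (nat_lit 2) (nat_lit 0), .M (nat_lit 3) (nat_lit 5),
    .R (nat_lit 20) (nat_lit 1) (nat_lit 2) (nat_lit 0) (nat_lit 1),
    .R (nat_lit 19) (nat_lit 1) (nat_lit 2) (nat_lit 0) (nat_lit 1), .M (nat_lit 9) (nat_lit 18),
    .R (nat_lit 2) (nat_lit 0) (nat_lit 3) (nat_lit 4) (nat_lit 2),
    .R (nat_lit 44) (nat_lit 0) (nat_lit 1) (nat_lit 4) (nat_lit 2), .M (nat_lit 8) (nat_lit 8),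
    .R (nat_lit 0) (nat_lit 0) (nat_lit 4) (nat_lit 5) (nat_lit 3),
    .R (nat_lit 28) (nat_lit 0) (nat_lit 4) (nat_lit 2) (nat_lit 3)] = true := by
  decide +kernel

set_option maxRecDepth 100000 in
theorem od_54 : elim false (nat_lit 54) CL RL
  [.M (nat_lit 0) (nat_lit 1), .M (nat_lit 4) (nat_lit 6), .M (nat_lit 7) (nat_lit 7),
    .R (nat_lit 41) (nat_lit 0) (nat_lit 1) (nat_lit 2) (nat_lit 0), .M (nat_lit 3) (nat_lit 5),
    .R (nat_lit 22) (nat_lit 1) (nat_lit 2) (nat_lit 0) (nat_lit 1),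
    .R (nat_lit 18) (nat_lit 1) (nat_lit 2) (nat_lit 0) (nat_lit 1), .M (nat_lit 9) (nat_lit 20),
    .R (nat_lit 44) (nat_lit 0) (nat_lit 1) (nat_lit 4) (nat_lit 2),
    .R (nat_lit 2) (nat_lit 0) (nat_lit 3) (nat_lit 4) (nat_lit 2), .M (nat_lit 8) (nat_lit 8),
    .R (nat_lit 0) (nat_lit 0) (nat_lit 4) (nat_lit 5) (nat_lit 3),
    .R (nat_lit 1) (nat_lit 0) (nat_lit 4) (nat_lit 5) (nat_lit 2)] = true := by
  decide +kernel

set_option maxRecDepth 100000 in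
theorem od_83 : elim false (nat_lit 83) CL RL
  [.M (nat_lit 0) (nat_lit 1), .M (nat_lit 4) (nat_lit 8), .M (nat_lit 7) (nat_lit 3),
    .R (nat_lit 41) (nat_lit 0) (nat_lit 1) (nat_lit 2) (nat_lit 0), .M (nat_lit 3) (nat_lit 3),
    .R (nat_lit 19) (nat_lit 1) (nat_lit 2) (nat_lit 0) (nat_lit 1),
    .R (nat_lit 23) (nat_lit 1) (nat_lit 2) (nat_lit 0) (nat_lit 0), .M (nat_lit 6) (nat_lit 12),
    .R (nat_lit 4) (nat_lit 0) (nat_lit 2) (nat_lit 4) (nat_lit 1),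
    .R (nat_lit 35) (nat_lit 0) (nat_lit 2) (nat_lit 1) (nat_lit 3),
    .R (nat_lit 5) (nat_lit 0) (nat_lit 2) (nat_lit 4) (nat_lit 3), .M (nat_lit 8) (nat_lit 8),
    .R (nat_lit 0) (nat_lit 0) (nat_lit 4) (nat_lit 5) (nat_lit 3)] = true := by
  decide +kernel

set_option maxRecDepth 100000 in
theorem od_90 : elim false (nat_lit 90) CL RL
  [.M (nat_lit 0) (nat_lit 1), .M (nat_lit 4) (nat_lit 8), .M (nat_lit 7) (nat_lit 7),
    .R (nat_lit 41) (nat_lit 0) (nat_lit 1) (nat_lit 2) (nat_lit 0), .M (nat_lit 3) (nat_lit 2),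
    .R (nat_lit 20) (nat_lit 1) (nat_lit 2) (nat_lit 0) (nat_lit 1),
    .R (nat_lit 23) (nat_lit 1) (nat_lit 2) (nat_lit 0) (nat_lit 0), .M (nat_lit 9) (nat_lit 20),
    .R (nat_lit 2) (nat_lit 0) (nat_lit 3) (nat_lit 4) (nat_lit 2),
    .R (nat_lit 44) (nat_lit 0) (nat_lit 1) (nat_lit 4) (nat_lit 2), .M (nat_lit 8) (nat_lit 9),
    .R (nat_lit 0) (nat_lit 0) (nat_lit 4) (nat_lit 5) (nat_lit 3),
    .R (nat_lit 10) (nat_lit 0) (nat_lit 3) (nat_lit 5) (nat_lit 2),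
    .R (nat_lit 1) (nat_lit 0) (nat_lit 4) (nat_lit 5) (nat_lit 2)] = true := by
  decide +kernel

set_option maxRecDepth 100000 in
theorem od_92 : elim false (nat_lit 92) CL RL
  [.M (nat_lit 0) (nat_lit 1), .M (nat_lit 4) (nat_lit 8), .M (nat_lit 7) (nat_lit 7),
    .R (nat_lit 41) (nat_lit 0) (nat_lit 1) (nat_lit 2) (nat_lit 0), .M (nat_lit 2) (nat_lit 2),
    .R (nat_lit 16) (nat_lit 1) (nat_lit 2) (nat_lit 0) (nat_lit 1), .M (nat_lit 3) (nat_lit 3),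
    .R (nat_lit 3) (nat_lit 3) (nat_lit 0) (nat_lit 1) (nat_lit 2), .M (nat_lit 5) (nat_lit 4),
    .R (nat_lit 36) (nat_lit 3) (nat_lit 4) (nat_lit 0) (nat_lit 3),
    .R (nat_lit 13) (nat_lit 4) (nat_lit 1) (nat_lit 0) (nat_lit 4), .M (nat_lit 8) (nat_lit 4),
    .R (nat_lit 0) (nat_lit 0) (nat_lit 5) (nat_lit 6) (nat_lit 4)] = true := by
  decide +kernel

set_option maxRecDepth 100000 in
theorem od_94 : elim false (nat_lit 94) CL RL
  [.M (nat_lit 0) (nat_lit 1), .M (nat_lit 4) (nat_lit 8), .M (nat_lit 7) (nat_lit 13),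
    .R (nat_lit 41) (nat_lit 0) (nat_lit 1) (nat_lit 2) (nat_lit 0), .M (nat_lit 2) (nat_lit 4),
    .R (nat_lit 16) (nat_lit 1) (nat_lit 2) (nat_lit 0) (nat_lit 1), .M (nat_lit 3) (nat_lit 5),
    .R (nat_lit 12) (nat_lit 2) (nat_lit 0) (nat_lit 1) (nat_lit 2), .M (nat_lit 5) (nat_lit 8),
    .R (nat_lit 13) (nat_lit 4) (nat_lit 1) (nat_lit 0) (nat_lit 4),
    .R (nat_lit 37) (nat_lit 3) (nat_lit 4) (nat_lit 0) (nat_lit 4), .M (nat_lit 6) (nat_lit 12),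
    .R (nat_lit 5) (nat_lit 0) (nat_lit 4) (nat_lit 6) (nat_lit 5),
    .R (nat_lit 14) (nat_lit 0) (nat_lit 5) (nat_lit 3) (nat_lit 5),
    .R (nat_lit 30) (nat_lit 0) (nat_lit 5) (nat_lit 1) (nat_lit 0), .M (nat_lit 9) (nat_lit 18),
    .R (nat_lit 6) (nat_lit 0) (nat_lit 2) (nat_lit 7) (nat_lit 0),
    .R (nat_lit 43) (nat_lit 0) (nat_lit 3) (nat_lit 7) (nat_lit 0), .M (nat_lit 8) (nat_lit 17),
    .R (nat_lit 9) (nat_lit 0) (nat_lit 2) (nat_lit 8) (nat_lit 0),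
    .R (nat_lit 0) (nat_lit 0) (nat_lit 7) (nat_lit 8) (nat_lit 6)] = true := by
  decide +kernel

set_option maxRecDepth 100000 in
theorem ev_9 : elim true (nat_lit 9) CL RL
  [.M (nat_lit 0) (nat_lit 1), .M (nat_lit 2) (nat_lit 6), .G (nat_lit 0),
    .M (nat_lit 4) (nat_lit 6), .M (nat_lit 7) (nat_lit 7),
    .R (nat_lit 15) (nat_lit 0) (nat_lit 1) (nat_lit 2) (nat_lit 0),
    .R (nat_lit 16) (nat_lit 0) (nat_lit 1) (nat_lit 2) (nat_lit 0),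
    .R (nat_lit 41) (nat_lit 0) (nat_lit 1) (nat_lit 3) (nat_lit 0), .M (nat_lit 3) (nat_lit 5),
    .R (nat_lit 19) (nat_lit 1) (nat_lit 2) (nat_lit 0) (nat_lit 1)] = true := by
  decide +kernel

set_option maxRecDepth 100000 in
theorem ev_63 : elim true (nat_lit 63) CL RL
  [.M (nat_lit 0) (nat_lit 1), .M (nat_lit 2) (nat_lit 6), .G (nat_lit 0),
    .M (nat_lit 4) (nat_lit 2), .M (nat_lit 7) (nat_lit 7),
    .R (nat_lit 16) (nat_lit 0) (nat_lit 1) (nat_lit 2) (nat_lit 0),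
    .R (nat_lit 41) (nat_lit 0) (nat_lit 1) (nat_lit 3) (nat_lit 0), .M (nat_lit 3) (nat_lit 3),
    .R (nat_lit 3) (nat_lit 2) (nat_lit 0) (nat_lit 3) (nat_lit 1)] = true := by
  decide +kernel

end Pool.Agent.LibH4.CW
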