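import Pool.Agent.Lib_helper4.CW.Cps
import Pool.Agent.Lib_helper4.CW.RL

/-! generated: eliminations -/

namespace Pool.Agent.LibH4.CW

set_option maxRecDepth 100000 in
theorem od_7 : elim false (nat_lit 7) CL RL
  [.M (nat_lit 0) (nat_lit 1), .M (nat_lit 4) (nat_lit 2), .M (nat_lit 7) (nat_lit 6),
    .R (nat_lit 41) (nat_lit 0) (nat_lit 1) (nat_lit 2) (nat_lit 0), .M (nat_lit 3) (nat_lit 3),
    .R (nat_lit 20) (nat_lit 1) (nat_lit 2) (nat_lit 0) (nat_lit 1),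
    .R (nat_lit 18) (nat_lit 1) (nat_lit 2) (nat_lit 0) (nat_lit 1),
    .R (nat_lit 23) (nat_lit 1) (nat_lit 2) (nat_lit 0) (nat_lit 0), .M (nat_lit 8) (nat_lit 4),
    .R (nat_lit 1) (nat_lit 0) (nat_lit 3) (nat_lit 4) (nat_lit 1)] = true := by
  decide +kernel

set_option maxRecDepth 100000 in
theorem od_19 : elim false (nat_lit 19) CL RL
  [.M (nat_lit 0) (nat_lit 1), .M (nat_lit 4) (nat_lit 6), .M (nat_lit 7) (nat_lit 6),
    .R (nat_lit 41) (nat_lit 0) (nat_lit 1) (nat_lit 2) (nat_lit 0), .M (nat_lit 3) (nat_lit 5),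
    .R (nat_lit 20) (nat_lit 1) (nat_lit 2) (nat_lit 0) (nat_lit 1),
    .R (nat_lit 22) (nat_lit 1) (nat_lit 2) (nat_lit 0) (nat_lit 1), .M (nat_lit 9) (nat_lit 2),
    .R (nat_lit 44) (nat_lit 0) (nat_lit 1) (nat_lit 4) (nat_lit 2), .M (nat_lit 8) (nat_lit 8),
    .R (nat_lit 0) (nat_lit 0) (nat_lit 4) (nat_lit 5) (nat_lit 3),
    .R (nat_lit 10) (nat_lit 0) (nat_lit 3) (nat_lit 5) (nat_lit 2)] = true := by
  decide +kernel

set_option maxRecDepth 100000 in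
theorem od_27 : elim false (nat_lit 27) CL RL
  [.M (nat_lit 0) (nat_lit 1), .M (nat_lit 4) (nat_lit 8), .M (nat_lit 7) (nat_lit 7),
    .R (nat_lit 41) (nat_lit 0) (nat_lit 1) (nat_lit 2) (nat_lit 0), .M (nat_lit 3) (nat_lit 3),
    .R (nat_lit 20) (nat_lit 1) (nat_lit 2) (nat_lit 0) (nat_lit 1),
    .R (nat_lit 19) (nat_lit 1) (nat_lit 2) (nat_lit 0) (nat_lit 1), .M (nat_lit 9) (nat_lit 18),
    .R (nat_lit 2) (nat_lit 0) (nat_lit 3) (nat_lit 4) (nat_lit 2),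
    .R (nat_lit 44) (nat_lit 0) (nat_lit 1) (nat_lit 4) (nat_lit 2), .M (nat_lit 8) (nat_lit 4),
    .R (nat_lit 0) (nat_lit 0) (nat_lit 4) (nat_lit 5) (nat_lit 3)] = true := by
  decide +kernel

set_option maxRecDepth 100000 in
theorem od_29 : elim false (nat_lit 29) CL RL
  [.M (nat_lit 0) (nat_lit 1), .M (nat_lit 4) (nat_lit 8), .M (nat_lit 7) (nat_lit 13),
    .R (nat_lit 41) (nat_lit 0) (nat_lit 1) (nat_lit 2) (nat_lit 0), .M (nat_lit 3) (nat_lit 5),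
    .R (nat_lit 21) (nat_lit 1) (nat_lit 2) (nat_lit 0) (nat_lit 1), .M (nat_lit 6) (nat_lit 10),
    .R (nat_lit 5) (nat_lit 0) (nat_lit 2) (nat_lit 4) (nat_lit 3),
    .R (nat_lit 4) (nat_lit 0) (nat_lit 2) (nat_lit 4) (nat_lit 1), .M (nat_lit 9) (nat_lit 18),
    .R (nat_lit 44) (nat_lit 0) (nat_lit 2) (nat_lit 5) (nat_lit 3),
    .R (nat_lit 2) (nat_lit 0) (nat_lit 4) (nat_lit 5) (nat_lit 3), .M (nat_lit 8) (nat_lit 9),
    .R (nat_lit 0) (nat_lit 0) (nat_lit 5) (nat_lit 6) (nat_lit 4)] = true := by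
  decide +kernel

set_option maxRecDepth 100000 in
theorem od_40 : elim false (nat_lit 40) CL RL
  [.M (nat_lit 0) (nat_lit 1), .M (nat_lit 3) (nat_lit 2), .M (nat_lit 4) (nat_lit 6),
    .M (nat_lit 7) (nat_lit 7), .R (nat_lit 18) (nat_lit 0) (nat_lit 1) (nat_lit 2) (nat_lit 0),
    .R (nat_lit 19) (nat_lit 0) (nat_lit 1) (nat_lit 2) (nat_lit 0),
    .R (nat_lit 41) (nat_lit 0) (nat_lit 1) (nat_lit 3) (nat_lit 0),
    .R (nat_lit 22) (nat_lit 0) (nat_lit 1) (nat_lit 2) (nat_lit 0), .M (nat_lit 8) (nat_lit 9),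
    .R (nat_lit 0) (nat_lit 0) (nat_lit 2) (nat_lit 4) (nat_lit 1)] = true := by
  decide +kernel

set_option maxRecDepth 100000 in
theorem od_56 : elim false (nat_lit 56) CL RL
  [.M (nat_lit 0) (nat_lit 1), .M (nat_lit 4) (nat_lit 2), .M (nat_lit 7) (nat_lit 7),
    .R (nat_lit 41) (nat_lit 0) (nat_lit 1) (nat_lit 2) (nat_lit 0), .M (nat_lit 3) (nat_lit 5),
    .R (nat_lit 18) (nat_lit 1) (nat_lit 2) (nat_lit 0) (nat_lit 1),
    .R (nat_lit 20) (nat_lit 1) (nat_lit 2) (nat_lit 0) (nat_lit 1), .M (nat_lit 6) (nat_lit 10),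
    .R (nat_lit 4) (nat_lit 0) (nat_lit 2) (nat_lit 4) (nat_lit 1),
    .R (nat_lit 5) (nat_lit 0) (nat_lit 2) (nat_lit 4) (nat_lit 3), .M (nat_lit 9) (nat_lit 18),
    .R (nat_lit 44) (nat_lit 0) (nat_lit 2) (nat_lit 5) (nat_lit 3),
    .R (nat_lit 2) (nat_lit 0) (nat_lit 4) (nat_lit 5) (nat_lit 3), .M (nat_lit 8) (nat_lit 9),
    .R (nat_lit 0) (nat_lit 0) (nat_lit 5) (nat_lit 6) (nat_lit 4),
    .R (nat_lit 10) (nat_lit 0) (nat_lit 4) (nat_lit 6) (nat_lit 3)] = true := by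
  decide +kernel

set_option maxRecDepth 100000 in
theorem od_58 : elim false (nat_lit 58) CL RL
  [.M (nat_lit 0) (nat_lit 1), .M (nat_lit 4) (nat_lit 6), .M (nat_lit 7) (nat_lit 6),
    .R (nat_lit 41) (nat_lit 0) (nat_lit 1) (nat_lit 2) (nat_lit 0), .M (nat_lit 3) (nat_lit 3),
    .R (nat_lit 18) (nat_lit 1) (nat_lit 2) (nat_lit 0) (nat_lit 1),
    .R (nat_lit 23) (nat_lit 1) (nat_lit 2) (nat_lit 0) (nat_lit 0), .M (nat_lit 6) (nat_lit 4),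
    .R (nat_lit 4) (nat_lit 0) (nat_lit 2) (nat_lit 4) (nat_lit 1),
    .R (nat_lit 5) (nat_lit 0) (nat_lit 2) (nat_lit 4) (nat_lit 3),
    .R (nat_lit 35) (nat_lit 0) (nat_lit 2) (nat_lit 1) (nat_lit 3), .M (nat_lit 8) (nat_lit 4),
    .R (nat_lit 0) (nat_lit 0) (nat_lit 4) (nat_lit 5) (nat_lit 3)] = true := by
  decide +kernel

set_option maxRecDepth 100000 in
theorem od_93 : elim false (nat_lit 93) CL RL
  [.M (nat_lit 0) (nat_lit 1), .M (nat_lit 4) (nat_lit 6), .M (nat_lit 7) (nat_lit 7),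
    .R (nat_lit 41) (nat_lit 0) (nat_lit 1) (nat_lit 2) (nat_lit 0), .M (nat_lit 3) (nat_lit 3),
    .R (nat_lit 20) (nat_lit 1) (nat_lit 2) (nat_lit 0) (nat_lit 1),
    .R (nat_lit 18) (nat_lit 1) (nat_lit 2) (nat_lit 0) (nat_lit 1),
    .R (nat_lit 23) (nat_lit 1) (nat_lit 2) (nat_lit 0) (nat_lit 0), .M (nat_lit 6) (nat_lit 12),
    .R (nat_lit 4) (nat_lit 0) (nat_lit 2) (nat_lit 4) (nat_lit 1), .M (nat_lit 8) (nat_lit 17),
    .R (nat_lit 0) (nat_lit 0) (nat_lit 4) (nat_lit 5) (nat_lit 3),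
    .R (nat_lit 8) (nat_lit 0) (nat_lit 1) (nat_lit 5) (nat_lit 0),
    .R (nat_lit 10) (nat_lit 0) (nat_lit 3) (nat_lit 5) (nat_lit 2)] = true := by
  decide +kernel

set_option maxRecDepth 100000 in
theorem ev_1 : elim true (nat_lit 1) CL RL
  [.M (nat_lit 0) (nat_lit 1), .M (nat_lit 2) (nat_lit 6), .G (nat_lit 0),
    .M (nat_lit 4) (nat_lit 8), .M (nat_lit 7) (nat_lit 7),
    .R (nat_lit 15) (nat_lit 0) (nat_lit 1) (nat_lit 2) (nat_lit 0),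
    .R (nat_lit 41) (nat_lit 0) (nat_lit 1) (nat_lit 3) (nat_lit 0), .M (nat_lit 3) (nat_lit 5),
    .R (nat_lit 12) (nat_lit 1) (nat_lit 0) (nat_lit 3) (nat_lit 1),
    .R (nat_lit 3) (nat_lit 2) (nat_lit 0) (nat_lit 3) (nat_lit 1), .M (nat_lit 9) (nat_lit 18),
    .R (nat_lit 44) (nat_lit 0) (nat_lit 1) (nat_lit 5) (nat_lit 2),
    .R (nat_lit 43) (nat_lit 0) (nat_lit 1) (nat_lit 5) (nat_lit 0)] = true := by
  decide +kernel

set_option maxRecDepth 100000 in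
theorem ev_19 : elim true (nat_lit 19) CL RL
  [.M (nat_lit 0) (nat_lit 1), .M (nat_lit 2) (nat_lit 6), .G (nat_lit 0),
    .M (nat_lit 4) (nat_lit 6), .M (nat_lit 7) (nat_lit 6),
    .R (nat_lit 15) (nat_lit 0) (nat_lit 1) (nat_lit 2) (nat_lit 0),
    .R (nat_lit 16) (nat_lit 0) (nat_lit 1) (nat_lit 2) (nat_lit 0), .M (nat_lit 9) (nat_lit 2),
    .R (nat_lit 2) (nat_lit 0) (nat_lit 2) (nat_lit 4) (nat_lit 1),
    .R (nat_lit 11) (nat_lit 0) (nat_lit 1) (nat_lit 4) (nat_lit 0), .M (nat_lit 3) (nat_lit 5),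
    .R (nat_lit 43) (nat_lit 1) (nat_lit 0) (nat_lit 5) (nat_lit 1)] = true := by
  decide +kernel

set_option maxRecDepth 100000 in
theorem ev_27 : elim true (nat_lit 27) CL RL
  [.M (nat_lit 0) (nat_lit 1), .M (nat_lit 2) (nat_lit 6), .G (nat_lit 0),
    .M (nat_lit 3) (nat_lit 3), .M (nat_lit 4) (nat_lit 8), .M (nat_lit 7) (nat_lit 7),
    .R (nat_lit 16) (nat_lit 0) (nat_lit 1) (nat_lit 3) (nat_lit 0),
    .R (nat_lit 18) (nat_lit 0) (nat_lit 1) (nat_lit 2) (nat_lit 0),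
    .R (nat_lit 12) (nat_lit 0) (nat_lit 2) (nat_lit 3) (nat_lit 0),
    .R (nat_lit 3) (nat_lit 1) (nat_lit 2) (nat_lit 3) (nat_lit 0)] = true := by
  decide +kernel

set_option maxRecDepth 100000 in
theorem ev_37 : elim true (nat_lit 37) CL RL
  [.M (nat_lit 0) (nat_lit 1), .M (nat_lit 2) (nat_lit 6), .G (nat_lit 0),
    .M (nat_lit 4) (nat_lit 6), .M (nat_lit 7) (nat_lit 7),
    .R (nat_lit 16) (nat_lit 0) (nat_lit 1) (nat_lit 2) (nat_lit 0),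
    .R (nat_lit 41) (nat_lit 0) (nat_lit 1) (nat_lit 3) (nat_lit 0), .M (nat_lit 3) (nat_lit 3),
    .R (nat_lit 12) (nat_lit 1) (nat_lit 0) (nat_lit 3) (nat_lit 1)] = true := by
  decide +kernel

set_option maxRecDepth 100000 in
theorem ev_49 : elim true (nat_lit 49) CL RL
  [.M (nat_lit 0) (nat_lit 1), .M (nat_lit 2) (nat_lit 6), .G (nat_lit 0),
    .M (nat_lit 4) (nat_lit 2), .M (nat_lit 7) (nat_lit 13),
    .R (nat_lit 41) (nat_lit 0) (nat_lit 1) (nat_lit 3) (nat_lit 0), .M (nat_lit 3) (nat_lit 5),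
    .R (nat_lit 12) (nat_lit 1) (nat_lit 0) (nat_lit 3) (nat_lit 1),
    .R (nat_lit 3) (nat_lit 2) (nat_lit 0) (nat_lit 3) (nat_lit 1)] = true := by
  decide +kernel

end Pool.Agent.LibH4.CW
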