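import Pool.Agent.Lib_helper4.CW.Cps
import Pool.Agent.Lib_helper4.CW.RL

/-! generated: eliminations -/

namespace Pool.Agent.LibH4.CW

set_option maxRecDepth 100000 in
theorem od_25 : elim false (nat_lit 25) CL RL
  [.M (nat_lit 0) (nat_lit 1), .M (nat_lit 4) (nat_lit 8), .M (nat_lit 7) (nat_lit 7),
    .R (nat_lit 41) (nat_lit 0) (nat_lit 1) (nat_lit 2) (nat_lit 0), .M (nat_lit 3) (nat_lit 2),
    .R (nat_lit 22) (nat_lit 1) (nat_lit 2) (nat_lit 0) (nat_lit 1),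
    .R (nat_lit 19) (nat_lit 1) (nat_lit 2) (nat_lit 0) (nat_lit 1), .M (nat_lit 6) (nat_lit 4),
    .R (nat_lit 35) (nat_lit 0) (nat_lit 2) (nat_lit 1) (nat_lit 3),
    .R (nat_lit 5) (nat_lit 0) (nat_lit 2) (nat_lit 4) (nat_lit 3), .M (nat_lit 8) (nat_lit 17),
    .R (nat_lit 9) (nat_lit 0) (nat_lit 1) (nat_lit 5) (nat_lit 0),
    .R (nat_lit 0) (nat_lit 0) (nat_lit 4) (nat_lit 5) (nat_lit 3)] = true := by
  decide +kernel

set_option maxRecDepth 100000 in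
theorem od_51 : elim false (nat_lit 51) CL RL
  [.M (nat_lit 0) (nat_lit 1), .M (nat_lit 3) (nat_lit 5), .M (nat_lit 4) (nat_lit 6),
    .M (nat_lit 7) (nat_lit 7), .R (nat_lit 19) (nat_lit 0) (nat_lit 1) (nat_lit 2) (nat_lit 0),
    .R (nat_lit 23) (nat_lit 0) (nat_lit 1) (nat_lit 2) (nat_lit 2),
    .R (nat_lit 41) (nat_lit 0) (nat_lit 1) (nat_lit 3) (nat_lit 0), .M (nat_lit 9) (nat_lit 4),
    .R (nat_lit 2) (nat_lit 0) (nat_lit 2) (nat_lit 4) (nat_lit 1),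
    .R (nat_lit 44) (nat_lit 0) (nat_lit 3) (nat_lit 4) (nat_lit 1), .M (nat_lit 8) (nat_lit 2),
    .R (nat_lit 0) (nat_lit 0) (nat_lit 3) (nat_lit 5) (nat_lit 2)] = true := by
  decide +kernel

set_option maxRecDepth 100000 in
theorem od_52 : elim false (nat_lit 52) CL RL
  [.M (nat_lit 0) (nat_lit 1), .M (nat_lit 4) (nat_lit 8), .M (nat_lit 7) (nat_lit 2),
    .R (nat_lit 41) (nat_lit 0) (nat_lit 1) (nat_lit 2) (nat_lit 0), .M (nat_lit 3) (nat_lit 3),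
    .R (nat_lit 21) (nat_lit 1) (nat_lit 2) (nat_lit 0) (nat_lit 1),
    .R (nat_lit 20) (nat_lit 1) (nat_lit 2) (nat_lit 0) (nat_lit 1),
    .R (nat_lit 23) (nat_lit 1) (nat_lit 2) (nat_lit 0) (nat_lit 0), .M (nat_lit 6) (nat_lit 4),
    .R (nat_lit 4) (nat_lit 0) (nat_lit 2) (nat_lit 4) (nat_lit 1),
    .R (nat_lit 5) (nat_lit 0) (nat_lit 2) (nat_lit 4) (nat_lit 3), .M (nat_lit 9) (nat_lit 20),
    .R (nat_lit 44) (nat_lit 0) (nat_lit 2) (nat_lit 5) (nat_lit 3), .M (nat_lit 8) (nat_lit 9),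
    .R (nat_lit 0) (nat_lit 0) (nat_lit 5) (nat_lit 6) (nat_lit 4),
    .R (nat_lit 10) (nat_lit 0) (nat_lit 4) (nat_lit 6) (nat_lit 3)] = true := by
  decide +kernel

set_option maxRecDepth 100000 in
theorem od_68 : elim false (nat_lit 68) CL RL
  [.M (nat_lit 0) (nat_lit 1), .M (nat_lit 4) (nat_lit 6), .M (nat_lit 7) (nat_lit 13),
    .R (nat_lit 41) (nat_lit 0) (nat_lit 1) (nat_lit 2) (nat_lit 0), .M (nat_lit 3) (nat_lit 3),
    .R (nat_lit 19) (nat_lit 1) (nat_lit 2) (nat_lit 0) (nat_lit 1), .M (nat_lit 8) (nat_lit 2),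
    .R (nat_lit 29) (nat_lit 0) (nat_lit 3) (nat_lit 1) (nat_lit 2)] = true := by
  decide +kernel

set_option maxRecDepth 100000 in
theorem od_78 : elim false (nat_lit 78) CL RL
  [.M (nat_lit 0) (nat_lit 1), .M (nat_lit 4) (nat_lit 8), .M (nat_lit 7) (nat_lit 2),
    .R (nat_lit 41) (nat_lit 0) (nat_lit 1) (nat_lit 2) (nat_lit 0), .M (nat_lit 3) (nat_lit 3),
    .R (nat_lit 21) (nat_lit 1) (nat_lit 2) (nat_lit 0) (nat_lit 1),
    .R (nat_lit 22) (nat_lit 1) (nat_lit 2) (nat_lit 0) (nat_lit 1), .M (nat_lit 8) (nat_lit 4),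
    .R (nat_lit 0) (nat_lit 0) (nat_lit 3) (nat_lit 4) (nat_lit 2)] = true := by
  decide +kernel

set_option maxRecDepth 100000 in
theorem od_79 : elim false (nat_lit 79) CL RL
  [.M (nat_lit 0) (nat_lit 1), .M (nat_lit 4) (nat_lit 6), .M (nat_lit 7) (nat_lit 7),
    .R (nat_lit 41) (nat_lit 0) (nat_lit 1) (nat_lit 2) (nat_lit 0), .M (nat_lit 3) (nat_lit 5),
    .R (nat_lit 22) (nat_lit 1) (nat_lit 2) (nat_lit 0) (nat_lit 1),
    .R (nat_lit 21) (nat_lit 1) (nat_lit 2) (nat_lit 0) (nat_lit 1), .M (nat_lit 6) (nat_lit 12),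
    .R (nat_lit 4) (nat_lit 0) (nat_lit 2) (nat_lit 4) (nat_lit 1),
    .R (nat_lit 5) (nat_lit 0) (nat_lit 2) (nat_lit 4) (nat_lit 3), .M (nat_lit 8) (nat_lit 9),
    .R (nat_lit 0) (nat_lit 0) (nat_lit 4) (nat_lit 5) (nat_lit 3),
    .R (nat_lit 10) (nat_lit 0) (nat_lit 3) (nat_lit 5) (nat_lit 2)] = true := by
  decide +kernel

set_option maxRecDepth 100000 in
theorem od_80 : elim false (nat_lit 80) CL RL
  [.M (nat_lit 0) (nat_lit 1), .M (nat_lit 3) (nat_lit 2), .M (nat_lit 4) (nat_lit 8),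
    .M (nat_lit 7) (nat_lit 7), .R (nat_lit 19) (nat_lit 0) (nat_lit 1) (nat_lit 2) (nat_lit 0),
    .R (nat_lit 41) (nat_lit 0) (nat_lit 1) (nat_lit 3) (nat_lit 0),
    .R (nat_lit 21) (nat_lit 0) (nat_lit 1) (nat_lit 2) (nat_lit 0), .M (nat_lit 9) (nat_lit 6),
    .R (nat_lit 2) (nat_lit 0) (nat_lit 2) (nat_lit 4) (nat_lit 1),
    .R (nat_lit 44) (nat_lit 0) (nat_lit 3) (nat_lit 4) (nat_lit 1), .M (nat_lit 8) (nat_lit 9),
    .R (nat_lit 28) (nat_lit 0) (nat_lit 3) (nat_lit 4) (nat_lit 2),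
    .R (nat_lit 1) (nat_lit 0) (nat_lit 3) (nat_lit 5) (nat_lit 4)] = true := by
  decide +kernel

set_option maxRecDepth 100000 in
theorem od_81 : elim false (nat_lit 81) CL RL
  [.M (nat_lit 0) (nat_lit 1), .M (nat_lit 4) (nat_lit 8), .M (nat_lit 7) (nat_lit 13),
    .R (nat_lit 41) (nat_lit 0) (nat_lit 1) (nat_lit 2) (nat_lit 0), .M (nat_lit 3) (nat_lit 5),
    .R (nat_lit 18) (nat_lit 1) (nat_lit 2) (nat_lit 0) (nat_lit 1), .M (nat_lit 6) (nat_lit 10),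
    .R (nat_lit 35) (nat_lit 0) (nat_lit 2) (nat_lit 1) (nat_lit 3),
    .R (nat_lit 5) (nat_lit 0) (nat_lit 2) (nat_lit 4) (nat_lit 3), .M (nat_lit 5) (nat_lit 6),
    .R (nat_lit 13) (nat_lit 4) (nat_lit 2) (nat_lit 0) (nat_lit 4),
    .R (nat_lit 40) (nat_lit 1) (nat_lit 0) (nat_lit 5) (nat_lit 1), .M (nat_lit 8) (nat_lit 3),
    .R (nat_lit 42) (nat_lit 0) (nat_lit 2) (nat_lit 3) (nat_lit 5),
    .R (nat_lit 0) (nat_lit 0) (nat_lit 5) (nat_lit 6) (nat_lit 4),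
    .R (nat_lit 34) (nat_lit 0) (nat_lit 3) (nat_lit 1) (nat_lit 4)] = true := by
  decide +kernel

set_option maxRecDepth 100000 in
theorem od_91 : elim false (nat_lit 91) CL RL
  [.M (nat_lit 0) (nat_lit 1), .M (nat_lit 4) (nat_lit 2), .M (nat_lit 7) (nat_lit 2),
    .R (nat_lit 41) (nat_lit 0) (nat_lit 1) (nat_lit 2) (nat_lit 0), .M (nat_lit 3) (nat_lit 5),
    .R (nat_lit 23) (nat_lit 1) (nat_lit 2) (nat_lit 0) (nat_lit 0),
    .R (nat_lit 18) (nat_lit 1) (nat_lit 2) (nat_lit 0) (nat_lit 1),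
    .R (nat_lit 19) (nat_lit 1) (nat_lit 2) (nat_lit 0) (nat_lit 1), .M (nat_lit 6) (nat_lit 4),
    .R (nat_lit 4) (nat_lit 0) (nat_lit 2) (nat_lit 4) (nat_lit 1),
    .R (nat_lit 35) (nat_lit 0) (nat_lit 2) (nat_lit 1) (nat_lit 3),
    .R (nat_lit 5) (nat_lit 0) (nat_lit 2) (nat_lit 4) (nat_lit 3), .M (nat_lit 9) (nat_lit 6),
    .R (nat_lit 2) (nat_lit 0) (nat_lit 4) (nat_lit 5) (nat_lit 3),
    .R (nat_lit 44) (nat_lit 0) (nat_lit 2) (nat_lit 5) (nat_lit 3), .M (nat_lit 8) (nat_lit 9),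
    .R (nat_lit 1) (nat_lit 0) (nat_lit 5) (nat_lit 6) (nat_lit 3),
    .R (nat_lit 8) (nat_lit 0) (nat_lit 2) (nat_lit 6) (nat_lit 0),
    .R (nat_lit 9) (nat_lit 0) (nat_lit 2) (nat_lit 6) (nat_lit 0)] = true := by
  decide +kernel

set_option maxRecDepth 100000 in
theorem od_99 : elim false (nat_lit 99) CL RL
  [.M (nat_lit 0) (nat_lit 1), .M (nat_lit 4) (nat_lit 8), .M (nat_lit 7) (nat_lit 3),
    .R (nat_lit 41) (nat_lit 0) (nat_lit 1) (nat_lit 2) (nat_lit 0), .M (nat_lit 3) (nat_lit 5),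
    .R (nat_lit 21) (nat_lit 1) (nat_lit 2) (nat_lit 0) (nat_lit 1), .M (nat_lit 9) (nat_lit 6),
    .R (nat_lit 2) (nat_lit 0) (nat_lit 3) (nat_lit 4) (nat_lit 2),
    .R (nat_lit 44) (nat_lit 0) (nat_lit 1) (nat_lit 4) (nat_lit 2), .M (nat_lit 8) (nat_lit 8),
    .R (nat_lit 10) (nat_lit 0) (nat_lit 3) (nat_lit 5) (nat_lit 2)] = true := by
  decide +kernel

set_option maxRecDepth 100000 in
theorem ev_23 : elim true (nat_lit 23) CL RL
  [.M (nat_lit 0) (nat_lit 1), .M (nat_lit 2) (nat_lit 6), .G (nat_lit 0),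
    .M (nat_lit 4) (nat_lit 6), .M (nat_lit 7) (nat_lit 13),
    .R (nat_lit 41) (nat_lit 0) (nat_lit 1) (nat_lit 3) (nat_lit 0), .M (nat_lit 3) (nat_lit 3),
    .R (nat_lit 18) (nat_lit 1) (nat_lit 2) (nat_lit 0) (nat_lit 1),
    .R (nat_lit 3) (nat_lit 2) (nat_lit 0) (nat_lit 3) (nat_lit 1)] = true := by
  decide +kernel

set_option maxRecDepth 100000 in
theorem ev_65 : elim true (nat_lit 65) CL RL
  [.M (nat_lit 0) (nat_lit 1), .M (nat_lit 2) (nat_lit 6), .G (nat_lit 0),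
    .M (nat_lit 4) (nat_lit 6), .M (nat_lit 7) (nat_lit 2),
    .R (nat_lit 41) (nat_lit 0) (nat_lit 1) (nat_lit 3) (nat_lit 0), .M (nat_lit 3) (nat_lit 2),
    .R (nat_lit 21) (nat_lit 1) (nat_lit 2) (nat_lit 0) (nat_lit 1)] = true := by
  decide +kernel

set_option maxRecDepth 100000 in
theorem ev_83 : elim true (nat_lit 83) CL RL
  [.M (nat_lit 0) (nat_lit 1), .M (nat_lit 3) (nat_lit 3), .M (nat_lit 2) (nat_lit 6),
    .M (nat_lit 4) (nat_lit 8), .G (nat_lit 1), .M (nat_lit 7) (nat_lit 3),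
    .R (nat_lit 12) (nat_lit 0) (nat_lit 3) (nat_lit 2) (nat_lit 0),
    .R (nat_lit 3) (nat_lit 1) (nat_lit 3) (nat_lit 2) (nat_lit 0),
    .R (nat_lit 15) (nat_lit 0) (nat_lit 1) (nat_lit 2) (nat_lit 0)] = true := by
  decide +kernel

end Pool.Agent.LibH4.CW
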