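import Pool.Agent.Lib_helper4.CW.E0
import Pool.Agent.Lib_helper4.CW.E1
import Pool.Agent.Lib_helper4.CW.E2
import Pool.Agent.Lib_helper4.CW.E3
import Pool.Agent.Lib_helper4.CW.E4
import Pool.Agent.Lib_helper4.CW.E5
import Pool.Agent.Lib_helper4.CW.E6
import Pool.Agent.Lib_helper4.CW.E7
import Pool.Agent.Lib_helper4.CW.E8
import Pool.Agent.Lib_helper4.CW.E9
import Pool.Agent.Lib_helper4.CW.E10
import Pool.Agent.Lib_helper4.CW.E11

/-! generated: the eliminations for all letters -/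

namespace Pool.Agent.LibH4.CW

/-- odd periods -/
theorem elim_odd (a : ℕ) (h1 : 1 ≤ a) (h2 : a ≤ 100) : ∃ chs, elim false a CL RL chs = true := by
  interval_cases a
  · exact ⟨_, od_1⟩
  · exact ⟨_, od_2⟩
  · exact ⟨_, od_3⟩
  · exact ⟨_, od_4⟩
  · exact ⟨_, od_5⟩
  · exact ⟨_, od_6⟩
  · exact ⟨_, od_7⟩
  · exact ⟨_, od_8⟩
  · exact ⟨_, od_9⟩
  · exact ⟨_, od_10⟩
  · exact ⟨_, od_11⟩
  · exact ⟨_, od_12⟩
  · exact ⟨_, od_13⟩
  · exact ⟨_, od_14⟩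
  · exact ⟨_, od_15⟩
  · exact ⟨_, od_16⟩
  · exact ⟨_, od_17⟩
  · exact ⟨_, od_18⟩
  · exact ⟨_, od_19⟩
  · exact ⟨_, od_20⟩
  · exact ⟨_, od_21⟩
  · exact ⟨_, od_22⟩
  · exact ⟨_, od_23⟩
  · exact ⟨_, od_24⟩
  · exact ⟨_, od_25⟩
  · exact ⟨_, od_26⟩
  · exact ⟨_, od_27⟩
  · exact ⟨_, od_28⟩
  · exact ⟨_, od_29⟩
  · exact ⟨_, od_30⟩
  · exact ⟨_, od_31⟩
  · exact ⟨_, od_32⟩
  · exact ⟨_, od_33⟩
  · exact ⟨_, od_34⟩
  · exact ⟨_, od_35⟩
  · exact ⟨_, od_36⟩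
  · exact ⟨_, od_37⟩
  · exact ⟨_, od_38⟩
  · exact ⟨_, od_39⟩
  · exact ⟨_, od_40⟩
  · exact ⟨_, od_41⟩
  · exact ⟨_, od_42⟩
  · exact ⟨_, od_43⟩
  · exact ⟨_, od_44⟩
  · exact ⟨_, od_45⟩
  · exact ⟨_, od_46⟩
  · exact ⟨_, od_47⟩
  · exact ⟨_, od_48⟩
  · exact ⟨_, od_49⟩
  · exact ⟨_, od_50⟩
  · exact ⟨_, od_51⟩
  · exact ⟨_, od_52⟩
  · exact ⟨_, od_53⟩
  · exact ⟨_, od_54⟩
  · exact ⟨_, od_55⟩
  · exact ⟨_, od_56⟩
  · exact ⟨_, od_57⟩
  · exact ⟨_, od_58⟩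
  · exact ⟨_, od_59⟩
  · exact ⟨_, od_60⟩
  · exact ⟨_, od_61⟩
  · exact ⟨_, od_62⟩
  · exact ⟨_, od_63⟩
  · exact ⟨_, od_64⟩
  · exact ⟨_, od_65⟩
  · exact ⟨_, od_66⟩
  · exact ⟨_, od_67⟩
  · exact ⟨_, od_68⟩
  · exact ⟨_, od_69⟩
  · exact ⟨_, od_70⟩
  · exact ⟨_, od_71⟩
  · exact ⟨_, od_72⟩
  · exact ⟨_, od_73⟩
  · exact ⟨_, od_74⟩
  · exact ⟨_, od_75⟩
  · exact ⟨_, od_76⟩
  · exact ⟨_, od_77⟩
  · exact ⟨_, od_78⟩
  · exact ⟨_, od_79⟩
  · exact ⟨_, od_80⟩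
  · exact ⟨_, od_81⟩
  · exact ⟨_, od_82⟩
  · exact ⟨_, od_83⟩
  · exact ⟨_, od_84⟩
  · exact ⟨_, od_85⟩
  · exact ⟨_, od_86⟩
  · exact ⟨_, od_87⟩
  · exact ⟨_, od_88⟩
  · exact ⟨_, od_89⟩
  · exact ⟨_, od_90⟩
  · exact ⟨_, od_91⟩
  · exact ⟨_, od_92⟩
  · exact ⟨_, od_93⟩
  · exact ⟨_, od_94⟩
  · exact ⟨_, od_95⟩
  · exact ⟨_, od_96⟩
  · exact ⟨_, od_97⟩
  · exact ⟨_, od_98⟩
  · exact ⟨_, od_99⟩
  · exact ⟨_, od_100⟩

set_option maxRecDepth 100000 in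
/-- even periods and even letters -/
theorem ev_even : (List.range 50).all (fun k => elim true (Nat.add (Nat.mul 2 k) 2) CL RL
    [.M (nat_lit 2) (nat_lit 12)]) = true := by
  decide +kernel

/-- even periods -/
theorem elim_even (a : ℕ) (h1 : 1 ≤ a) (h2 : a ≤ 100) : ∃ chs, elim true a CL RL chs = true := by
  by_cases ha : a % 2 = 0
  · have := List.all_eq_true.1 ev_even (a / 2 - 1) (List.mem_range.2 (by omega))
    have e : Nat.add (Nat.mul 2 (a / 2 - 1)) 2 = a := by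
      change 2 * (a / 2 - 1) + 2 = a
      omega
    rw [e] at this
    exact ⟨_, this⟩
  · interval_cases a
    · exact ⟨_, ev_1⟩
    · exact absurd (by norm_num) ha
    · exact ⟨_, ev_3⟩
    · exact absurd (by norm_num) ha
    · exact ⟨_, ev_5⟩
    · exact absurd (by norm_num) ha
    · exact ⟨_, ev_7⟩
    · exact absurd (by norm_num) ha
    · exact ⟨_, ev_9⟩
    · exact absurd (by norm_num) ha
    · exact ⟨_, ev_11⟩
    · exact absurd (by norm_num) ha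
    · exact ⟨_, ev_13⟩
    · exact absurd (by norm_num) ha
    · exact ⟨_, ev_15⟩
    · exact absurd (by norm_num) ha
    · exact ⟨_, ev_17⟩
    · exact absurd (by norm_num) ha
    · exact ⟨_, ev_19⟩
    · exact absurd (by norm_num) ha
    · exact ⟨_, ev_21⟩
    · exact absurd (by norm_num) ha
    · exact ⟨_, ev_23⟩
    · exact absurd (by norm_num) ha
    · exact ⟨_, ev_25⟩
    · exact absurd (by norm_num) ha
    · exact ⟨_, ev_27⟩
    · exact absurd (by norm_num) ha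
    · exact ⟨_, ev_29⟩
    · exact absurd (by norm_num) ha
    · exact ⟨_, ev_31⟩
    · exact absurd (by norm_num) ha
    · exact ⟨_, ev_33⟩
    · exact absurd (by norm_num) ha
    · exact ⟨_, ev_35⟩
    · exact absurd (by norm_num) ha
    · exact ⟨_, ev_37⟩
    · exact absurd (by norm_num) ha
    · exact ⟨_, ev_39⟩
    · exact absurd (by norm_num) ha
    · exact ⟨_, ev_41⟩
    · exact absurd (by norm_num) ha
    · exact ⟨_, ev_43⟩
    · exact absurd (by norm_num) ha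
    · exact ⟨_, ev_45⟩
    · exact absurd (by norm_num) ha
    · exact ⟨_, ev_47⟩
    · exact absurd (by norm_num) ha
    · exact ⟨_, ev_49⟩
    · exact absurd (by norm_num) ha
    · exact ⟨_, ev_51⟩
    · exact absurd (by norm_num) ha
    · exact ⟨_, ev_53⟩
    · exact absurd (by norm_num) ha
    · exact ⟨_, ev_55⟩
    · exact absurd (by norm_num) ha
    · exact ⟨_, ev_57⟩
    · exact absurd (by norm_num) ha
    · exact ⟨_, ev_59⟩
    · exact absurd (by norm_num) ha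
    · exact ⟨_, ev_61⟩
    · exact absurd (by norm_num) ha
    · exact ⟨_, ev_63⟩
    · exact absurd (by norm_num) ha
    · exact ⟨_, ev_65⟩
    · exact absurd (by norm_num) ha
    · exact ⟨_, ev_67⟩
    · exact absurd (by norm_num) ha
    · exact ⟨_, ev_69⟩
    · exact absurd (by norm_num) ha
    · exact ⟨_, ev_71⟩
    · exact absurd (by norm_num) ha
    · exact ⟨_, ev_73⟩
    · exact absurd (by norm_num) ha
    · exact ⟨_, ev_75⟩
    · exact absurd (by norm_num) ha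
    · exact ⟨_, ev_77⟩
    · exact absurd (by norm_num) ha
    · exact ⟨_, ev_79⟩
    · exact absurd (by norm_num) ha
    · exact ⟨_, ev_81⟩
    · exact absurd (by norm_num) ha
    · exact ⟨_, ev_83⟩
    · exact absurd (by norm_num) ha
    · exact ⟨_, ev_85⟩
    · exact absurd (by norm_num) ha
    · exact ⟨_, ev_87⟩
    · exact absurd (by norm_num) ha
    · exact ⟨_, ev_89⟩
    · exact absurd (by norm_num) ha
    · exact ⟨_, ev_91⟩
    · exact absurd (by norm_num) ha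
    · exact ⟨_, ev_93⟩
    · exact absurd (by norm_num) ha
    · exact ⟨_, ev_95⟩
    · exact absurd (by norm_num) ha
    · exact ⟨_, ev_97⟩
    · exact absurd (by norm_num) ha
    · exact ⟨_, ev_99⟩
    · exact absurd (by norm_num) ha

end Pool.Agent.LibH4.CW
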