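import Pool.Agent.Lib_helper4.FieldsU

/-!
Constant words: unique factorisation in the fields of the list.
-/

namespace Pool.Agent.LibH4.CW

open scoped NumberField
open Pool.Agent.LibH4

/-- the check for `d` not congruent to one modulo four, with witnesses `(p, r, i)` -/
def chkE (d : ℕ) (W : List (ℕ × ℤ × ℤ)) : Bool :=
  decide (d % 4 ≠ 1) && (decide (d < 10000) && FU.prs.all fun p => decide (d < p ^ 2) ||
    (W.any (fun w => decide (w.1 = p) &&
      decide ((w.2.1 ^ 2 - (d : ℤ) * w.2.2 ^ 2).natAbs = p)) ||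
    (List.range p).all fun x => decide ((x * x) % p ≠ d % p)))

theorem ufd_of_chkE {d : ℕ} {W : List (ℕ × ℤ × ℤ)} (h : chkE d W = true) (hsq : Squarefree d)
    (h1 : 1 < d) : UniqueFactorizationMonoid (𝓞 (KQ d)) := by
  unfold chkE at h
  rw [Bool.and_eq_true, Bool.and_eq_true, decide_eq_true_eq, decide_eq_true_eq,
    List.all_eq_true] at h
  obtain ⟨hmod, hlt, hall⟩ := h
  have hBq : Bq d = 0 := by unfold Bq; rw [if_neg hmod]
  have hAq : Aq d = d := by unfold Aq; rw [if_neg hmod]
  have hDq : Dq d = 4 * d := by simp [Dq, hmod]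
  have hpid : IsPrincipalIdealRing (𝓞 (KQ d)) := by
    apply isPrincipalIdealRing_of_small hsq h1
    intro p hp h4 x hx hdvd
    rw [hDq] at h4
    rw [hBq, hAq, zero_mul, add_zero] at hdvd
    have h4' : 4 * p ^ 2 ≤ 4 * d := by exact_mod_cast h4
    have hp100 : p < 100 := by
      by_contra hge
      push Not at hge
      nlinarith
    have h5 := hall p (FU.mem_prs hp hp100)
    rw [Bool.or_eq_true, Bool.or_eq_true, decide_eq_true_eq, List.any_eq_true,
      List.all_eq_true] at h5
    rcases h5 with h5 | ⟨w, -, h5⟩ | h5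
    · omega
    · rw [Bool.and_eq_true, decide_eq_true_eq, decide_eq_true_eq] at h5
      refine ⟨⟨w.2.1, w.2.2⟩, ?_⟩
      rw [QuadraticAlgebra.norm_def, hBq, hAq, ← h5.2]
      congr 1
      simp only
      ring
    · exfalso
      have hp0 : (0 : ℤ) < p := by exact_mod_cast hp.pos
      obtain ⟨y, hy⟩ : ∃ y : ℕ, (y : ℤ) = x % p :=
        ⟨(x % p).toNat, Int.toNat_of_nonneg (Int.emod_nonneg _ hp0.ne')⟩
      have hyp : y < p := by
        have := Int.emod_lt_of_pos x hp0
        rw [← hy] at this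
        exact_mod_cast this
      have h6 := h5 y (List.mem_range.2 hyp)
      rw [decide_eq_true_eq] at h6
      apply h6
      have h7 : (p : ℤ) ∣ ((y * y : ℕ) : ℤ) - ((d : ℕ) : ℤ) := by
        have e : (x : ℤ) ≡ y [ZMOD p] := by
          rw [hy]; exact (Int.mod_modEq x p).symm
        have e2 : x ^ 2 - (d : ℤ) ≡ (y : ℤ) ^ 2 - d [ZMOD p] := (e.pow 2).sub_right _
        have h8 := (Int.ModEq.dvd_iff e2).1 hdvd
        have h9 : ((y * y : ℕ) : ℤ) = (y : ℤ) ^ 2 := by push_cast; ring
        rw [h9]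
        exact h8
      exact ((Nat.modEq_iff_dvd (n := p) (a := d) (b := y * y)).2 h7).symm
  infer_instance

/-- the list of the fields -/
def dL : List ℕ := [3, 6, 7, 11, 17, 21, 37, 38, 61, 69, 77, 83, 93, 101, 149, 197, 227, 237,
  317, 413, 437, 453, 461, 557, 677, 773, 797, 1013, 1133, 1253, 1877]

/-- **unique factorisation** -/
theorem fields {d : ℕ} (h : d ∈ dL) (hsq : Squarefree d) :
    UniqueFactorizationMonoid (𝓞 (KQ d)) := by
  unfold dL at h
  simp only [List.mem_cons, List.not_mem_nil, or_false] at h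
  rcases h with rfl | rfl | rfl | rfl | rfl | rfl | rfl | rfl | rfl | rfl | rfl | rfl | rfl | rfl | rfl | rfl | rfl | rfl | rfl | rfl | rfl | rfl | rfl | rfl | rfl | rfl | rfl | rfl | rfl | rfl | rfl
  · exact ufd_of_chkE (W := []) (by decide +kernel) hsq (by norm_num)
  · exact ufd_of_chkE (W := [(2, 2, 1)]) (by decide +kernel) hsq (by norm_num)
  · exact ufd_of_chkE (W := [(2, 3, 1)]) (by decide +kernel) hsq (by norm_num)
  · exact ufd_of_chkE (W := [(2, 3, 1)]) (by decide +kernel) hsq (by norm_num)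
  · exact FU.ufd_of_chk (W := [(2, 2, 1)]) (by decide +kernel) hsq (by norm_num)
  · exact FU.ufd_of_chk (W := []) (by decide +kernel) hsq (by norm_num)
  · exact FU.ufd_of_chk (W := [(3, 3, 1)]) (by decide +kernel) hsq (by norm_num)
  · exact ufd_of_chkE (W := [(2, 6, 1)]) (by decide +kernel) hsq (by norm_num)
  · exact FU.ufd_of_chk (W := [(3, 3, 1)]) (by decide +kernel) hsq (by norm_num)
  · exact FU.ufd_of_chk (W := [(3, 4, 1)]) (by decide +kernel) hsq (by norm_num)
  · exact FU.ufd_of_chk (W := []) (by decide +kernel) hsq (by norm_num)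
  · exact ufd_of_chkE (W := [(2, 9, 1)]) (by decide +kernel) hsq (by norm_num)
  · exact FU.ufd_of_chk (W := [(3, 4, 1)]) (by decide +kernel) hsq (by norm_num)
  · exact FU.ufd_of_chk (W := [(5, 5, 1)]) (by decide +kernel) hsq (by norm_num)
  · exact FU.ufd_of_chk (W := [(5, 6, 1)]) (by decide +kernel) hsq (by norm_num)
  · exact FU.ufd_of_chk (W := [(7, 7, 1)]) (by decide +kernel) hsq (by norm_num)
  · exact ufd_of_chkE (W := [(2, 15, 1)]) (by decide +kernel) hsq (by norm_num)
  · exact FU.ufd_of_chk (W := [(3, 7, 1)]) (by decide +kernel) hsq (by norm_num)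
  · exact FU.ufd_of_chk (W := [(7, 8, 1)]) (by decide +kernel) hsq (by norm_num)
  · exact FU.ufd_of_chk (W := [(7, 10, 1)]) (by decide +kernel) hsq (by norm_num)
  · exact FU.ufd_of_chk (W := []) (by decide +kernel) hsq (by norm_num)
  · exact FU.ufd_of_chk (W := [(3, 10, 1)]) (by decide +kernel) hsq (by norm_num)
  · exact FU.ufd_of_chk (W := [(5, 10, 1)]) (by decide +kernel) hsq (by norm_num)
  · exact FU.ufd_of_chk (W := [(7, 11, 1)]) (by decide +kernel) hsq (by norm_num)
  · exact FU.ufd_of_chk (W := [(13, 13, 1)]) (by decide +kernel) hsq (by norm_num)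
  · exact FU.ufd_of_chk (W := [(11, 13, 1)]) (by decide +kernel) hsq (by norm_num)
  · exact FU.ufd_of_chk (W := [(11, 14, 1), (13, 27, 2)]) (by decide +kernel) hsq (by norm_num)
  · exact FU.ufd_of_chk (W := [(11, 31, 2), (13, 15, 1)]) (by decide +kernel) hsq (by norm_num)
  · exact FU.ufd_of_chk (W := [(11, 16, 1)]) (by decide +kernel) hsq (by norm_num)
  · exact FU.ufd_of_chk (W := [(7, 17, 1)]) (by decide +kernel) hsq (by norm_num)
  · exact FU.ufd_of_chk (W := [(7, 21, 1)]) (by decide +kernel) hsq (by norm_num)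

end Pool.Agent.LibH4.CW
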