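import Pool.Agent.Lib_helper4.CW.Wld

/-!
Constant words: the relations along the orbit of the first state.
-/

namespace Pool.Agent.LibH4.CW

open Finset Pool.Agent.Lib_helper5 Pool.Agent.Lib_helper5.LK Pool.Agent.LibH4.Ker
  Pool.Agent.LibH4.KF Pool.Agent.LibH4.T6 Pool.Agent.Lib_helper5.TB Pool.Agent.LibH4.S7

/-- a reduced character -/
structure ChOK (n t l : ℕ) : Prop where
  mul : ∀ x < n, ∀ y < n, dig t (x * y % n) % l = dig t x * dig t y % l
  one : dig t (1 % n) % l = 1 % l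

/-- boolean check of a reduced character -/
def chCk (n t l : ℕ) : Bool :=
  allR (fun x => allR (fun y => Nat.beq (Nat.mod (dig t (Nat.mod (Nat.mul x y) n)) l)
    (Nat.mod (Nat.mul (dig t x) (dig t y)) l)) n) n

/-- boolean check of a reduced character -/
def chCk1 (n t l : ℕ) : Bool :=
  Nat.beq (Nat.mod (dig t (Nat.mod (nat_lit 1) n)) l) (Nat.mod (nat_lit 1) l)

lemma chCk_spec {n t l : ℕ} (h : chCk n t l = true) (h1 : chCk1 n t l = true) : ChOK n t l where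
  mul x hx y hy := Nat.eq_of_beq_eq_true (allR_spec (allR_spec h x hx) y hy)
  one := Nat.eq_of_beq_eq_true h1

/-- a relation -/
structure RDOK (r : RD) : Prop where
  k1 : CmpOK (cof r.n1)
  k2 : CmpOK (cof r.n2)
  k3 : CmpOK (cof r.n3)
  m1 : (cof r.n1).n = r.n1
  m2 : (cof r.n2).n = r.n2
  m3 : (cof r.n3).n = r.n3
  lr : r.rows.length = (cof r.n1).F.length
  l2 : r.len2 = (cof r.n2).F.length
  l3 : r.len3 = (cof r.n3).F.length
  l0 : 0 < r.l
  l256 : r.l ≤ 256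
  len : 8 * (r.len2 * r.len3) ≤ 65536
  ch1 : ChOK r.n1 r.t1 r.l
  ch2 : ChOK r.n2 r.t2 r.l
  ch3 : ChOK r.n3 r.t3 r.l
  rel : ∀ {par : Bool} {a N : ℕ} {e : ℕ → ℤ × ℤ × ℤ}, World par a e N →
    ((JW par a e N).map (fval r.n1 r.n2 r.n3 r.l (cof r.n1).ex (cof r.n2).ex (cof r.n3).ex
      (cof r.n1).PT (cof r.n2).PT (cof r.n3).PT r.t1 r.t2 r.t3 r.rows r.len3)).sum % r.l = 0

section

variable {par : Bool} {a N : ℕ} {e : ℕ → ℤ × ℤ × ℤ}

lemma wt {c : Cmp} (hn : 0 < c.n) {x : ℕ × ℕ} (hx : x.1 < c.n) (T : TS par a e c x) {t l : ℕ}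
    (hc : ChOK c.n t l) (i : ℕ) : ((dig t (rs c.n (e i).1) : ℕ) : ZMod l) =
      ((dig t (rs c.n (e 0).1) : ℕ) : ZMod l) * ((dig t (hs c.n a x i).1 : ℕ) : ZMod l) := by
  have : NeZero c.n := ⟨hn.ne'⟩
  have h1 : rs c.n (e 0).1 * (hs c.n a x i).1 % c.n = rs c.n (e i).1 := by
    apply rs_of
    rw [T.h1 i]
    push_cast
    rw [rs_cast]
  have h2 := hc.mul _ (rs_lt (e 0).1) _ (Bd_hs (a := a) hn hx i).1
  rw [h1] at h2
  have h3 := (ZMod.natCast_eq_natCast_iff' _ _ l).2 h2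
  rw [h3]
  push_cast
  ring

lemma wt_unit {c : Cmp} (hn : 0 < c.n) {t l : ℕ} (hc : ChOK c.n t l) {P : ℤ}
    (hP : rs c.n P * iv c.n c.ex (rs c.n P) % c.n = 1 % c.n) :
    IsUnit ((dig t (rs c.n P) : ℕ) : ZMod l) := by
  have : NeZero c.n := ⟨hn.ne'⟩
  have h2 := hc.mul _ (rs_lt P) (iv c.n c.ex (rs c.n P)) (Nat.mod_lt _ hn)
  rw [hP] at h2
  have h3 := (ZMod.natCast_eq_natCast_iff' _ _ l).2 h2
  have h4 := (ZMod.natCast_eq_natCast_iff' _ _ l).2 hc.one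
  rw [h4] at h3
  apply IsUnit.of_mul_eq_one ((dig t (iv c.n c.ex (rs c.n P)) : ℕ) : ZMod l)
  rw [← Nat.cast_mul, ← h3]
  push_cast
  rfl

/-- the value of a form -/
lemma fval_eq (W : World par a e N) {r : RD} (hr : RDOK r) [NeZero r.l] {x1 x2 x3 : ℕ × ℕ}
    (T1 : TS par a e (cof r.n1) x1) (T2 : TS par a e (cof r.n2) x2)
    (T3 : TS par a e (cof r.n3) x3) (i κ : ℕ) (α : ℤ) :
    ((fval r.n1 r.n2 r.n3 r.l (cof r.n1).ex (cof r.n2).ex (cof r.n3).ex
      (cof r.n1).PT (cof r.n2).PT (cof r.n3).PT r.t1 r.t2 r.t3 r.rows r.len3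
      ⟨(e i).1, (e i).2.1, -(e i).2.2, κ, α⟩ : ℕ) : ZMod r.l) =
    (((dig r.t1 (rs r.n1 (e 0).1) : ℕ) : ZMod r.l) * ((dig r.t2 (rs r.n2 (e 0).1) : ℕ) : ZMod r.l) *
      ((dig r.t3 (rs r.n3 (e 0).1) : ℕ) : ZMod r.l)) *
      ((κ : ZMod r.l) * ((Xh r (cof r.n1) (cof r.n2) (cof r.n3) a x1 x2 x3 i : ℕ) : ZMod r.l) +
        (α : ZMod r.l) * ((Yh r (cof r.n1) (cof r.n2) (cof r.n3) a x1 x2 x3 i : ℕ) : ZMod r.l)) := by
  have b1 := (hr.k1.F x1 (List.mem_filter.1 T1.mem).1).1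
  have b2 := (hr.k2.F x2 (List.mem_filter.1 T2.mem).1).1
  have b3 := (hr.k3.F x3 (List.mem_filter.1 T3.mem).1).1
  have w1 := wt hr.k1.pos b1 T1 (by rw [hr.m1]; exact hr.ch1) i
  have w2 := wt hr.k2.pos b2 T2 (by rw [hr.m2]; exact hr.ch2) i
  have w3 := wt hr.k3.pos b3 T3 (by rw [hr.m3]; exact hr.ch3) i
  have p1 := (T1.props W hr.k1 i).2
  have p2 := (T2.props W hr.k2 i).2
  have p3 := (T3.props W hr.k3 i).2
  rw [hr.m1] at w1 p1
  rw [hr.m2] at w2 p2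
  rw [hr.m3] at w3 p3
  unfold fval Xh Yh wh
  simp only
  rw [← p1, ← p2, ← p3, hr.m1, hr.m2, hr.m3]
  push_cast
  rw [w1, w2, w3, rs_cast, ZMod.natCast_mod]
  push_cast
  ring

lemma neg_cast {l : ℕ} (hl : 0 < l) (x : ℕ) : ((neg l x : ℕ) : ZMod l) = -(x : ZMod l) := by
  have e : neg l x = (l - 1) * x % l := rfl
  rw [e, ZMod.natCast_mod, Nat.cast_mul, Nat.cast_sub hl, ZMod.natCast_self]
  push_cast
  ring

/-- first coefficient -/
def kk0 (par : Bool) (l : ℕ) : ℕ := neg l (@Bool.rec (fun _ => ℕ) (nat_lit 3) (nat_lit 6) par)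
/-- second coefficient -/
def kk1 (par : Bool) (a : ℕ) : ℕ := @Bool.rec (fun _ => ℕ) (nat_lit 0) a par

lemma lsum_range {M : Type} [AddCommMonoid M] (f : ℕ → M) (n : ℕ) :
    ((List.range n).map f).sum = ∑ j ∈ range n, f j := by
  induction n with
  | zero => simp
  | succ n ih => rw [List.range_succ, List.map_append, List.sum_append, ih, Finset.sum_range_succ]; simp

/-- **the relation along the orbit** -/
theorem rel_hat (W : World par a e N) {r : RD} (hr : RDOK r) {x1 x2 x3 : ℕ × ℕ}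
    (T1 : TS par a e (cof r.n1) x1) (T2 : TS par a e (cof r.n2) x2)
    (T3 : TS par a e (cof r.n3) x3) (X Y : ℕ → ZMod r.l)
    (hX : X = fun i => ((Xh r (cof r.n1) (cof r.n2) (cof r.n3) a x1 x2 x3 i : ℕ) : ZMod r.l))
    (hY : Y = fun i => ((Yh r (cof r.n1) (cof r.n2) (cof r.n3) a x1 x2 x3 i : ℕ) : ZMod r.l)) :
    (kk0 par r.l : ZMod r.l) * X 0 + (kk1 par a : ZMod r.l) * Y 0 +
      ∑ j ∈ range N, (6 * X j + ((neg r.l (2 * a) : ℕ) : ZMod r.l) * Y j) + 6 * X N -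
      (((e N).2.1 : ℤ) : ZMod r.l) * Y N = 0 := by
  have hl := hr.l0
  have : NeZero r.l := ⟨hl.ne'⟩
  have h0 := hr.rel W
  rw [← Nat.dvd_iff_mod_eq_zero, ← ZMod.natCast_eq_zero_iff, cast_lsum] at h0
  unfold JW at h0
  rw [List.map_cons, List.sum_cons, List.map_append, List.sum_append, List.map_map,
    List.map_cons, List.map_nil, List.sum_cons, List.sum_nil, add_zero] at h0
  rw [fval_eq W hr T1 T2 T3, fval_eq W hr T1 T2 T3] at h0
  have hmid : (List.map ((fun x => ((fval r.n1 r.n2 r.n3 r.l (cof r.n1).ex (cof r.n2).ex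
      (cof r.n3).ex (cof r.n1).PT (cof r.n2).PT (cof r.n3).PT r.t1 r.t2 r.t3 r.rows r.len3 x : ℕ) :
      ZMod r.l)) ∘ fun j => (⟨(e (j + 1)).1, (e (j + 1)).2.1, -(e (j + 1)).2.2, 6,
        -(2 * a : ℤ)⟩ : Fm)) (List.range (N - 1))).sum =
      (((dig r.t1 (rs r.n1 (e 0).1) : ℕ) : ZMod r.l) *
        ((dig r.t2 (rs r.n2 (e 0).1) : ℕ) : ZMod r.l) *
        ((dig r.t3 (rs r.n3 (e 0).1) : ℕ) : ZMod r.l)) *
      ∑ j ∈ range (N - 1), (6 * X (j + 1) - 2 * (a : ZMod r.l) * Y (j + 1)) := by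
    rw [lsum_range, Finset.mul_sum]
    apply Finset.sum_congr rfl
    intro j _
    have := fval_eq W hr T1 T2 T3 (j + 1) 6 (-(2 * a : ℤ))
    simp only [Function.comp_apply]
    rw [this, hX, hY]
    push_cast
    ring
  rw [hmid] at h0
  set u : ZMod r.l := ((dig r.t1 (rs r.n1 (e 0).1) : ℕ) : ZMod r.l) *
    ((dig r.t2 (rs r.n2 (e 0).1) : ℕ) : ZMod r.l) *
    ((dig r.t3 (rs r.n3 (e 0).1) : ℕ) : ZMod r.l) with hu
  have hunit : IsUnit u := by
    have v1 := (hr.k1.cp _ W.dok _ _ _ (W.disc 0)).1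
    have v2 := (hr.k2.cp _ W.dok _ _ _ (W.disc 0)).1
    have v3 := (hr.k3.cp _ W.dok _ _ _ (W.disc 0)).1
    have u1 := wt_unit hr.k1.pos (by rw [hr.m1]; exact hr.ch1) v1
    have u2 := wt_unit hr.k2.pos (by rw [hr.m2]; exact hr.ch2) v2
    have u3 := wt_unit hr.k3.pos (by rw [hr.m3]; exact hr.ch3) v3
    rw [hr.m1] at u1
    rw [hr.m2] at u2
    rw [hr.m3] at u3
    exact (u1.mul u2).mul u3
  obtain ⟨M, rfl⟩ : ∃ M, N = M + 1 := ⟨N - 1, by have := W.N1; omega⟩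
  rw [Finset.sum_range_succ', neg_cast hl]
  rw [Nat.add_sub_cancel] at h0
  have hs : ∑ j ∈ range M, (6 * X (j + 1) + -((2 * a : ℕ) : ZMod r.l) * Y (j + 1)) =
      ∑ j ∈ range M, (6 * X (j + 1) - 2 * (a : ZMod r.l) * Y (j + 1)) := by
    apply Finset.sum_congr rfl
    intro j _
    push_cast
    ring
  rw [hs]
  have key : u * ((kk0 par r.l : ZMod r.l) * X 0 + (kk1 par a : ZMod r.l) * Y 0 +
      (∑ j ∈ range M, (6 * X (j + 1) - 2 * (a : ZMod r.l) * Y (j + 1)) +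
        (6 * X 0 + -((2 * a : ℕ) : ZMod r.l) * Y 0)) + 6 * X (M + 1) -
      (((e (M + 1)).2.1 : ℤ) : ZMod r.l) * Y (M + 1)) = 0 := by
    rw [hX, hY] at h0 ⊢
    simp only at h0 ⊢
    cases par with
    | false =>
      have e1 : ((kk0 false r.l : ℕ) : ZMod r.l) = -3 := by
        have := neg_cast hl 3
        push_cast at this
        exact this
      have e2 : ((kk1 false a : ℕ) : ZMod r.l) = 0 := by
        change ((0 : ℕ) : ZMod r.l) = 0
        push_cast; rfl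
      rw [e1, e2]
      simp only [kap, alp, cond_false] at h0
      push_cast at h0 ⊢
      linear_combination h0
    | true =>
      have e1 : ((kk0 true r.l : ℕ) : ZMod r.l) = -6 := by
        have := neg_cast hl 6
        push_cast at this
        exact this
      have e2 : ((kk1 true a : ℕ) : ZMod r.l) = a := rfl
      rw [e1, e2]
      simp only [kap, alp, cond_true] at h0
      push_cast at h0 ⊢
      linear_combination h0
  exact (hunit.mul_right_eq_zero).1 key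

end

end Pool.Agent.LibH4.CW
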