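import Pool.Agent.Lib_helper4.CW.Run
import Pool.Agent.Lib_helper4.CW.EAll
import Pool.Agent.Lib_helper4.CW.Wd
import Pool.Agent.Lib_helper4.CW.Fin
import Pool.Agent.Lib_helper4.CW.Flds

/-!
Constant words: the complete list.
-/

namespace Pool.Agent.LibH4.CW

open scoped NumberField
open Function Pool.Agent.Lib_helper5 Pool.Agent.LibH4 Pool.Agent.LibH4.CFO Pool.Agent.LibH4.LO

variable {m B : ℤ} {s : ℝ} {x : ℕ → ℝ} {c : ℕ → ℕ}

/-- **no unique factorisation with inert small primes** -/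
theorem no_ufd (h : Data m B s x c) (hm : 0 < m) {L a d : ℕ}
    (hL : minimalPeriod gsh (x 1) = L) (hL2 : 2 ≤ L) (ha : 1 ≤ a) (ha2 : a ≤ 100)
    (hc : ∀ i, 1 ≤ i → i < L → c i = a)
    [IsDomain (QuadraticAlgebra ℤ m B)] [UniqueFactorizationMonoid (QuadraticAlgebra ℤ m B)]
    (hd : (d : ℤ) = B ^ 2 + 4 * m) (hsq : Squarefree d)
    (hin : ∀ p : ℕ, p.Prime → p ≤ 19 → ∀ X : ℤ, ¬ (p : ℤ) ∣ X ^ 2 + B * X - m) : False := by
  rcases Nat.even_or_odd' L with ⟨k, hk | hk⟩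
  · obtain ⟨n, rfl⟩ : ∃ n, k = n + 1 := ⟨k - 1, by omega⟩
    obtain ⟨chs, hch⟩ := elim_even a ha ha2
    have W := world_even h hm (n := n) (a := a) (by rw [hL, hk]) hd hsq hin
      (fun i h1 h2 => hc i h1 (by omega))
    exact elim_spec CL_ok RL_ok hch W
  · obtain ⟨n, rfl⟩ : ∃ n, k = n + 1 := ⟨k - 1, by omega⟩
    obtain ⟨chs, hch⟩ := elim_odd a ha ha2
    have W := world_odd h hm (n := n) (a := a) (by rw [hL, hk]) hd hin
      (fun i h1 h2 => hc i h1 (by omega))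
    exact elim_spec CL_ok RL_ok hch W

lemma dL_of {d D : ℕ} (hD : D ∈ DL) (hd : (d % 4 = 1 ∧ d = D) ∨ (d % 4 ≠ 1 ∧ 4 * d = D)) :
    d ∈ dL := by
  unfold DL at hD
  unfold dL
  simp only [List.mem_cons, List.not_mem_nil, or_false] at hD ⊢
  omega

/-- **the complete list** -/
theorem fwd (d : ℕ) (h1 : 1 < d) (hsq : Squarefree d) {a L : ℕ} (ha2 : a ≤ 100)
    (hL : minimalPeriod gsh (gsh (omg d)) = L) (hL2 : 2 ≤ L)
    (hw : ∀ i, 1 ≤ i → i < L → ⌊gsh^[i] (omg d)⌋ = (a : ℤ))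
    (hU : UniqueFactorizationMonoid (𝓞 (KQ d))) : d ∈ dL := by
  obtain ⟨m, B, s, x, c, h, hx1, hm, hB, hd⟩ := exists_data d h1 hsq
  rw [← hx1] at hL
  have hc : ∀ i, 1 ≤ i → i < L → c i = a := by
    intro i hi1 hi2
    obtain ⟨j, rfl⟩ : ∃ j, i = j + 1 := ⟨i - 1, by omega⟩
    have h2 := hw (j + 1) hi1 hi2
    rw [← x_eq_iter h hx1, ← h.fl] at h2
    exact_mod_cast h2
  have ha : 1 ≤ a := by
    rw [← hc 1 le_rfl (by omega)]
    exact (inv_of h 1).cpos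
  obtain ⟨e⟩ : Nonempty (QuadraticAlgebra ℤ m B ≃+* 𝓞 (KQ d)) := by
    rcases hd with ⟨h4, hd, hB2⟩ | ⟨h4, hd, hB2⟩
    · obtain ⟨e⟩ := exists_equiv_QI hd hB2
      exact ⟨e.symm.trans (eqvO hsq h1)⟩
    · obtain ⟨e⟩ := exists_equiv_QI_even hd h4 hB2
      exact ⟨e.symm.trans (eqvO hsq h1)⟩
  have i1 : IsDomain (QuadraticAlgebra ℤ m B) := e.toMulEquiv.isDomain
  have i2 : UniqueFactorizationMonoid (QuadraticAlgebra ℤ m B) :=
    e.symm.toMulEquiv.uniqueFactorizationMonoid hU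
  by_cases hin : ∀ p : ℕ, p.Prime → p ≤ 19 → ∀ X : ℤ, ¬ (p : ℤ) ∣ X ^ 2 + B * X - m
  · exfalso
    rcases hd with ⟨h4, hd, hB2⟩ | ⟨h4, hd, hB2⟩
    · exact no_ufd h hm hL hL2 ha ha2 hc hd hsq hin
    · have r0 := hin 2 Nat.prime_two (by norm_num) 0
      have r1 := hin 2 Nat.prime_two (by norm_num) 1
      push_cast at r0 r1
      omega
  · push Not at hin
    obtain ⟨p, hp, hp19, X, hX⟩ := hin
    have hD := small_D h hm hB (by omega) hL ha hc hp hp19 hX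
    obtain ⟨D, hD1, hD2⟩ := fin_small h hm hB hL hL2 ha ha2 hc hD
    apply dL_of hD1
    rcases hd with ⟨h4, hd, -⟩ | ⟨h4, hd, -⟩
    · left
      refine ⟨h4, ?_⟩
      rw [← hd] at hD2
      exact_mod_cast hD2
    · right
      refine ⟨h4, ?_⟩
      rw [← hd] at hD2
      exact_mod_cast hD2

end Pool.Agent.LibH4.CW
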