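import Pool.Agent.Lib_helper5.P7.Comp

/-!
Constant words: kernel functions of the elimination.
-/

namespace Pool.Agent.LibH4.CW

open Pool.Agent.LibH4.Ker Pool.Agent.Lib_helper5.TB

/-! ### numbers and lists -/

/-- digit in base `2 ^ 16` -/
def d16 (A i : ℕ) : ℕ := Nat.mod (Nat.shiftRight A (Nat.mul (nat_lit 16) i)) (nat_lit 65536)

/-- digit in base `2 ^ 32` -/
def d32 (A i : ℕ) : ℕ := Nat.mod (Nat.shiftRight A (Nat.mul (nat_lit 32) i)) (nat_lit 4294967296)

/-- byte `1` -/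
def by1 (e : ℕ) : ℕ := Nat.mod (Nat.shiftRight e (nat_lit 8)) (nat_lit 256)
/-- byte `2` -/
def by2 (e : ℕ) : ℕ := Nat.mod (Nat.shiftRight e (nat_lit 16)) (nat_lit 256)
/-- byte `3` -/
def by3 (e : ℕ) : ℕ := Nat.shiftRight e (nat_lit 24)

/-- packing of the values on a list in base `V` -/
def cat {α : Type} (V : ℕ) (f : α → ℕ) (L : List α) : ℕ :=
  @List.rec α (fun _ => ℕ) (nat_lit 0) (fun x _ ih => Nat.add (Nat.mod (f x) V) (Nat.mul V ih)) L

/-- the list `0, …, n-1` -/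
def rng (n : ℕ) : List ℕ :=
  @Nat.rec (fun _ => List ℕ → List ℕ) (fun acc => acc) (fun m ih acc => ih (m :: acc)) n []

/-- map -/
def mapL {α β : Type} (f : α → β) (L : List α) : List β :=
  @List.rec α (fun _ => List β) [] (fun x _ ih => f x :: ih) L

/-- filter -/
def filS {α β : Type} (p : α → Bool) (L : List α) : (List α → β) → β :=
  @List.rec α (fun _ => (List α → β) → β) (fun k => k [])
    (fun x _ ih k => @Bool.rec (fun _ => β) (ih k) (ih fun rest => k (x :: rest)) (p x)) L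

/-- entry of a list, failure outside -/
def nthK {α : Type} (L : List α) : ℕ → (α → Bool) → Bool :=
  @List.rec α (fun _ => ℕ → (α → Bool) → Bool) (fun _ _ => false)
    (fun x _ ih i k => @Nat.rec (fun _ => Bool) (k x) (fun j _ => ih j k) i) L

/-- conjunction -/
def andB (p q : Bool) : Bool := @Bool.rec (fun _ => Bool) false q p

/-- length of a list -/
def lenL {α : Type} (L : List α) : ℕ :=
  @List.rec α (fun _ => ℕ) (nat_lit 0) (fun _ _ ih => Nat.succ ih) L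

/-! ### orbits -/

/-- the middle coefficient of the next state -/
def nxR (n a R S : ℕ) : ℕ :=
  Nat.mod (Nat.add (Nat.mul (Nat.mul (nat_lit 2) a) S) (Nat.sub n R)) n
/-- the last coefficient of the next state -/
def nxS (n a P R S : ℕ) : ℕ :=
  Nat.mod (Nat.add (Nat.add P (Nat.mul R a)) (Nat.mul (Nat.sub n S) (Nat.mul a a))) n

/-- record of a state -/
def ent (n ex PT u P R S : ℕ) : ℕ :=
  Nat.add (pos n ex PT P R (Nat.mod (Nat.sub n S) n)) (Nat.add (Nat.mul (nat_lit 256) P)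
    (Nat.add (Nat.mul (nat_lit 65536) (Nat.mod (Nat.mul R (iv n ex S)) n))
      (Nat.mul (nat_lit 16777216) (Nat.mod (Nat.mul u (iv n ex S)) n))))

/-- records of an orbit -/
def orbS (n ex PT a u k : ℕ) : ℕ → ℕ → ℕ → ℕ :=
  @Nat.rec (fun _ => ℕ → ℕ → ℕ → ℕ) (fun _ _ _ => (nat_lit 0)) (fun _ ih P R S =>
    Nat.add (ent n ex PT u P R S) (Nat.mul (nat_lit 4294967296)
      (ih S (nxR n a R S) (nxS n a P R S)))) k

/-- the orbit returns -/
def retS (n a P0 R0 S0 k : ℕ) : ℕ → ℕ → ℕ → Bool :=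
  @Nat.rec (fun _ => ℕ → ℕ → ℕ → Bool) (fun P R S =>
    andB (Nat.beq P P0) (andB (Nat.beq R R0) (Nat.beq S S0))) (fun _ ih P R S =>
      ih S (nxR n a R S) (nxS n a P R S)) k

/-- condition on the first state -/
def stc (par : Bool) (n a : ℕ) (x : ℕ × ℕ) : Bool :=
  @Bool.rec (fun _ => Bool) (Nat.beq x.2 (Nat.mod (Nat.sub n (nat_lit 1)) n))
    (Nat.beq x.1 (Nat.mod (Nat.mul a (Nat.sub n x.2)) n)) par

/-- static data of a component -/
structure Cmp where
  /-- modulus -/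
  n : ℕ
  /-- exponent of the inverse -/
  ex : ℕ
  /-- positions -/
  PT : ℕ
  /-- normalised forms -/
  F : List (ℕ × ℕ)

/-- data of a component for a quotient -/
structure CC where
  /-- modulus -/
  n : ℕ
  /-- period -/
  pi : ℕ
  /-- number of first states -/
  cnt : ℕ
  /-- orbits -/
  tab : ℕ

/-- orbit of a first state -/
def orbX (n ex PT a pi : ℕ) (x : ℕ × ℕ) : ℕ :=
  orbS n ex PT a (Nat.mod (Nat.sub n x.2) n) pi (Nat.mod (nat_lit 1) n) x.1
    (Nat.mod (Nat.sub n x.2) n)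

/-- check of the period -/
def retX (n a pi : ℕ) (x : ℕ × ℕ) : Bool :=
  retS n a (Nat.mod (nat_lit 1) n) x.1 (Nat.mod (Nat.sub n x.2) n) pi (Nat.mod (nat_lit 1) n) x.1
    (Nat.mod (Nat.sub n x.2) n)

/-- compilation of a component -/
def mkC (par : Bool) (a : ℕ) (c : Cmp) (pi : ℕ) (k : CC → Bool) : Bool :=
  filS (stc par c.n a) c.F fun sl => andB (andB (Nat.ble (nat_lit 1) pi) (allL (retX c.n a pi) sl))
    (strict (Nat.pow (nat_lit 2) (Nat.mul (nat_lit 32) pi)) fun V =>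
      strict (cat V (orbX c.n c.ex c.PT a pi) sl) fun tab => k ⟨c.n, pi, lenL sl, tab⟩)

/-! ### tables of the relations -/

/-- static data of a relation -/
structure RD where
  /-- first modulus -/
  n1 : ℕ
  /-- second modulus -/
  n2 : ℕ
  /-- third modulus -/
  n3 : ℕ
  /-- modulus of the values -/
  l : ℕ
  /-- first character -/
  t1 : ℕ
  /-- second character -/
  t2 : ℕ
  /-- third character -/
  t3 : ℕ
  /-- table -/
  rows : List (ℕ × ℕ)
  /-- length of the second component -/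
  len2 : ℕ
  /-- length of the third component -/
  len3 : ℕ

/-- rows along an orbit -/
def rlD (RX RY w V t1 e : ℕ) : (ℕ × ℕ) × ℕ :=
  ((Nat.mod (Nat.shiftRight RX (Nat.mul w (Nat.mod e (nat_lit 256)))) V,
    Nat.mod (Nat.shiftRight RY (Nat.mul w (Nat.mod e (nat_lit 256)))) V), dig t1 (by1 e))

/-- record of the second and third component -/
def e23a (l len3 t2 t3 e2 e3 : ℕ) : ℕ :=
  Nat.add (Nat.mul (nat_lit 8) (Nat.add (Nat.mul (Nat.mod e2 (nat_lit 256)) len3)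
      (Nat.mod e3 (nat_lit 256))))
    (Nat.mul (nat_lit 65536) (Nat.mod (Nat.mul (dig t2 (by1 e2)) (dig t3 (by1 e3))) l))

/-- record of the second and third component -/
def e23d (l len3 t2 t3 tab2 off2 p2 tab3 off3 p3 i : ℕ) : ℕ :=
  e23a l len3 t2 t3 (d32 tab2 (Nat.add off2 (Nat.mod i p2))) (d32 tab3 (Nat.add off3 (Nat.mod i p3)))

/-- records of the second and third component -/
def e23 (l len3 t2 t3 tab2 off2 p2 tab3 off3 p3 : ℕ) (R : List ℕ) : ℕ :=
  cat (nat_lit 16777216) (e23d l len3 t2 t3 tab2 off2 p2 tab3 off3 p3) R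

/-- values along the orbit of the first component -/
def mainL (l a2 : ℕ) (fin : ℕ → ℕ → ℕ) (L : List ((ℕ × ℕ) × ℕ)) : ℕ → ℕ → ℕ :=
  @List.rec _ (fun _ => ℕ → ℕ → ℕ) fin (fun x _ ih E acc =>
    Nat.add (Nat.add
      (Nat.mod (Nat.add acc (Nat.mul (nat_lit 6) (Nat.mul (Nat.mul x.2
        (Nat.shiftRight (Nat.mod E (nat_lit 16777216)) (nat_lit 16)))
        (Nat.mod (Nat.shiftRight x.1.1 (Nat.mod (Nat.mod E (nat_lit 16777216)) (nat_lit 65536)))
          (nat_lit 256))))) l)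
      (Nat.mul (nat_lit 256) (Nat.mod (Nat.mul (Nat.mul x.2
        (Nat.shiftRight (Nat.mod E (nat_lit 16777216)) (nat_lit 16)))
        (Nat.mod (Nat.shiftRight x.1.2 (Nat.mod (Nat.mod E (nat_lit 16777216)) (nat_lit 65536)))
          (nat_lit 256))) l)))
      (Nat.mul (nat_lit 65536) (ih (Nat.shiftRight E (nat_lit 24))
        (Nat.mod (Nat.add
          (Nat.mod (Nat.add acc (Nat.mul (nat_lit 6) (Nat.mul (Nat.mul x.2
            (Nat.shiftRight (Nat.mod E (nat_lit 16777216)) (nat_lit 16)))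
            (Nat.mod (Nat.shiftRight x.1.1 (Nat.mod (Nat.mod E (nat_lit 16777216)) (nat_lit 65536)))
              (nat_lit 256))))) l)
          (Nat.mul a2 (Nat.mod (Nat.mul (Nat.mul x.2
            (Nat.shiftRight (Nat.mod E (nat_lit 16777216)) (nat_lit 16)))
            (Nat.mod (Nat.shiftRight x.1.2 (Nat.mod (Nat.mod E (nat_lit 16777216)) (nat_lit 65536)))
              (nat_lit 256))) l))) l)))) L

/-- values along the joint orbit -/
def mainQ (l a2 a0 : ℕ) (L : List ((ℕ × ℕ) × ℕ)) (q : ℕ) : ℕ → ℕ → ℕ :=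
  @Nat.rec (fun _ => ℕ → ℕ → ℕ) (fun _ acc => Nat.mod (Nat.add acc (Nat.sub l a0)) l)
    (fun _ ih => mainL l a2 ih L) q

/-- value of a row -/
def rv (w r off : ℕ) : ℕ := Nat.mul w (Nat.mod (Nat.shiftRight r off) (nat_lit 256))

/-- first value -/
def iniA (l k0 k1 w off rX rY : ℕ) : ℕ :=
  Nat.mod (Nat.add (Nat.mul k0 (rv w rX off)) (Nat.mul k1 (rv w rY off))) l

/-- first value -/
def ini (l k0 k1 e : ℕ) (x : (ℕ × ℕ) × ℕ) : ℕ :=
  iniA l k0 k1 (Nat.mul x.2 (Nat.shiftRight e (nat_lit 16))) (Nat.mod e (nat_lit 65536)) x.1.1 x.1.2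

/-- first element -/
def hd (L : List ((ℕ × ℕ) × ℕ)) : (ℕ × ℕ) × ℕ :=
  @List.rec _ (fun _ => (ℕ × ℕ) × ℕ) (((nat_lit 0), (nat_lit 0)), (nat_lit 0)) (fun x _ _ => x) L

/-- the string of an orbit -/
def str (l a2 k0 k1 q E : ℕ) (L : List ((ℕ × ℕ) × ℕ)) : ℕ :=
  strict (ini l k0 k1 (Nat.mod E (nat_lit 16777216)) (hd L)) fun a0 => mainQ l a2 a0 L q E a0

/-- strings of the first component -/
def tab1 (l a2 k0 k1 q t1 RX RY w V V3 p1 T1 n1 E : ℕ) : ℕ :=
  cat V3 (str l a2 k0 k1 q E) (mapL (fun o =>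
    mapL (fun i => rlD RX RY w V t1 (d32 T1 (Nat.add (Nat.mul p1 o) i))) (rng p1)) (rng n1))

/-- the table of a relation -/
def tab3 (l a2 k0 k1 len3 t1 t2 t3 q RX RY w V L V1 V2 V3 : ℕ) (c1 c2 c3 : CC) : ℕ :=
  cat V1 (fun o2 => cat V2 (fun o3 =>
    strict (e23 l len3 t2 t3 c2.tab (Nat.mul c2.pi o2) c2.pi c3.tab (Nat.mul c3.pi o3)
      c3.pi (rng L)) fun E => tab1 l a2 k0 k1 q t1 RX RY w V V3 c1.pi c1.tab c1.cnt E)
    (rng c3.cnt)) (rng c2.cnt)

/-- the table of a relation -/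
def tabR (r : RD) (a2 k0 k1 L : ℕ) (c1 c2 c3 : CC) : ℕ :=
  strict (Nat.pow (nat_lit 2) (Nat.mul (nat_lit 16) (Nat.succ L))) fun V3 =>
  strict (Nat.pow V3 c1.cnt) fun V2 =>
  strict (Nat.pow V2 c3.cnt) fun V1 =>
  strict (Nat.mul (nat_lit 8) (Nat.mul r.len2 r.len3)) fun w =>
  strict (Nat.pow (nat_lit 2) w) fun V =>
  strict (cat V (fun x => x.1) r.rows) fun RX =>
  strict (cat V (fun x => x.2) r.rows) fun RY =>
    tab3 r.l a2 k0 k1 r.len3 r.t1 r.t2 r.t3 (Nat.div L c1.pi) RX RY w V L V1 V2 V3 c1 c2 c3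

/-! ### the search -/

/-- compiled levels -/
inductive Lv where
  /-- choice of a first state -/
  | M (cnt : ℕ)
  /-- relation -/
  | R (j1 j2 j3 jl n1 n3 L W l X0 X1 tab tl pl : ℕ)
  /-- genus -/
  | G (j pl tl : ℕ)

/-- check of a value -/
def chkD (l c j d B : ℕ) : Bool :=
  Nat.beq (Nat.mod (Nat.add (Nat.mod d (nat_lit 256)) (Nat.add (Nat.mul j c)
    (Nat.mul (Nat.sub l B) (Nat.shiftRight d (nat_lit 8))))) l) (nat_lit 0)

/-- check of a value -/
def chk (L l c s bs pl n : ℕ) : Bool :=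
  chkD l c (Nat.div n L) (d16 s (Nat.mod n L)) (by2 (d32 bs (Nat.mod n pl)))

/-- branch -/
def br (p : Bool) (r : Bool) : Bool := @Bool.rec (fun _ => Bool) true r p

/-- one lift -/
def lift1 (n' K' : ℕ) (p : ℕ → Bool) (ih : ℕ → ℕ → Bool) : Bool := br (p n') (ih n' K')

/-- loop over the lifts -/
def lift2 (q n K : ℕ) (p : ℕ → Bool) (ih : ℕ → ℕ → Bool) : Bool :=
  allR (fun t => lift1 (Nat.add n (Nat.mul K t)) (Nat.mul K q) p ih) q

/-- loop over the lifts -/
def lift (X n K : ℕ) (p : ℕ → Bool) (ih : ℕ → ℕ → Bool) : Bool :=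
  lift2 (Nat.div X (Nat.gcd K X)) n K p ih

/-- relation level -/
def lvR2 (L l X0 X1 s bs c pl n K : ℕ) (ih : ℕ → ℕ → Bool) : Bool :=
  lift (@Bool.rec (fun _ => ℕ) X1 X0 (Nat.beq c (nat_lit 0))) n K (chk L l c s bs pl) ih

/-- relation level -/
def lvR1 (L l X0 X1 s bs pl n K : ℕ) (ih : ℕ → ℕ → Bool) : Bool :=
  lvR2 L l X0 X1 s bs (d16 s L) pl n K ih

/-- relation level -/
def lvR (L W l X0 X1 tab tl pl idx ol n K : ℕ) (ih : ℕ → ℕ → Bool) : Bool :=
  lvR1 L l X0 X1 (Nat.mod (Nat.shiftRight tab (Nat.mul W idx)) (Nat.pow (nat_lit 2) W))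
    (Nat.shiftRight tl (Nat.mul (nat_lit 32) (Nat.mul pl ol))) pl n K ih

/-- genus level -/
def lvG1 (bs pl n K : ℕ) (ih : ℕ → ℕ → Bool) : Bool :=
  lift pl n K (fun n => Nat.beq (by3 (d32 bs (Nat.mod n pl))) (nat_lit 3)) ih

/-- genus level -/
def lvG (pl tl o n K : ℕ) (ih : ℕ → ℕ → Bool) : Bool :=
  lvG1 (Nat.shiftRight tl (Nat.mul (nat_lit 32) (Nat.mul pl o))) pl n K ih

/-- entry of the environment -/
def gt (env j : ℕ) : ℕ := Nat.mod (Nat.shiftRight env (Nat.mul (nat_lit 8) j)) (nat_lit 256)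

/-- the search -/
noncomputable def dfs (ls : List Lv) : ℕ → ℕ → ℕ → Bool :=
  @List.rec Lv (fun _ => ℕ → ℕ → ℕ → Bool) (fun _ _ _ => false) (fun v _ ih env n K =>
    @Lv.rec (fun _ => Bool)
      (fun cnt => allR (fun o => ih (Nat.add o (Nat.mul (nat_lit 256) env)) n K) cnt)
      (fun j1 j2 j3 jl n1 n3 L W l X0 X1 tab tl pl =>
        lvR L W l X0 X1 tab tl pl
          (Nat.add (Nat.mul (Nat.add (Nat.mul (gt env j2) n3) (gt env j3)) n1) (gt env j1))
          (gt env jl) n K (ih env))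
      (fun j pl tl => lvG pl tl (gt env j) n K (ih env)) v) ls

/-! ### compilation -/

/-- a chain -/
inductive Ch where
  /-- component -/
  | M (c pi : ℕ)
  /-- relation -/
  | R (r j1 j2 j3 jl : ℕ)
  /-- genus -/
  | G (j : ℕ)

/-- common multiple -/
def lcmS (x y : ℕ) : ℕ := Nat.mul (Nat.div x (Nat.gcd x y)) y

/-- residue of a negative -/
def neg (l x : ℕ) : ℕ := Nat.mod (Nat.mul (Nat.sub l (nat_lit 1)) x) l

/-- compilation of a relation -/
def mkR (par : Bool) (a : ℕ) (r : RD) (j1 j2 j3 jl : ℕ) (c1 c2 c3 cl : CC)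
    (k : Lv → Bool) : Bool :=
  andB (andB (Nat.beq c1.n r.n1) (andB (Nat.beq c2.n r.n2) (andB (Nat.beq c3.n r.n3)
    (Nat.beq cl.n r.l))))
  (strict (lcmS c1.pi (lcmS c2.pi c3.pi)) fun L =>
  strict (neg r.l (Nat.mul (nat_lit 2) a)) fun a2 =>
  strict (neg r.l (@Bool.rec (fun _ => ℕ) (nat_lit 3) (nat_lit 6) par)) fun k0 =>
  strict (lcmS L cl.pi) fun X0 =>
  strict (tabR r a2 k0 (@Bool.rec (fun _ => ℕ) (nat_lit 0) a par) L c1 c2 c3) fun tab =>
    k (Lv.R j1 j2 j3 jl c1.cnt c3.cnt L (Nat.mul (nat_lit 16) (Nat.succ L)) r.l X0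
      (Nat.mul r.l X0) tab cl.tab cl.pi))

/-- compilation and search -/
noncomputable def run (par : Bool) (a : ℕ) (cl : List Cmp) (rl : List RD) (chs : List Ch) :
    List CC → (List Lv → Bool) → Bool :=
  @List.rec Ch (fun _ => List CC → (List Lv → Bool) → Bool) (fun _ k => k [])
    (fun h _ ih ctx k => @Ch.rec (fun _ => Bool)
      (fun c pi => nthK cl c fun c => mkC par a c pi fun cc =>
        ih (cc :: ctx) fun rest => k (Lv.M cc.cnt :: rest))
      (fun r j1 j2 j3 jl => nthK rl r fun r =>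
        nthK ctx j1 fun c1 => nthK ctx j2 fun c2 => nthK ctx j3 fun c3 =>
        nthK ctx jl fun cl => mkR par a r j1 j2 j3 jl c1 c2 c3 cl fun v =>
          ih ctx fun rest => k (v :: rest))
      (fun j => nthK ctx j fun c => andB (Nat.beq c.n (nat_lit 4)) (andB par
        (ih ctx fun rest => k (Lv.G j c.pi c.tab :: rest)))) h) chs

/-- the elimination -/
noncomputable def elim (par : Bool) (a : ℕ) (cl : List Cmp) (rl : List RD) (chs : List Ch) :
    Bool :=
  run par a cl rl chs [] fun ls => dfs ls (nat_lit 0) (nat_lit 0) (nat_lit 1)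

end Pool.Agent.LibH4.CW
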