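import Pool.Agent.Lib_helper4.CW.Ker

/-!
Constant words: lists and digits.
-/

namespace Pool.Agent.LibH4.CW

open Pool.Agent.LibH4.Ker Pool.Agent.Lib_helper5.TB

/-! ### lists -/

lemma rng_aux (n : ℕ) (acc : List ℕ) :
    @Nat.rec (fun _ => List ℕ → List ℕ) (fun acc => acc) (fun m ih acc => ih (m :: acc)) n acc =
      List.range n ++ acc := by
  induction n generalizing acc with
  | zero => rfl
  | succ n ih =>
    change @Nat.rec (fun _ => List ℕ → List ℕ) (fun acc => acc) (fun m ih acc => ih (m :: acc)) n
      (n :: acc) = _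
    rw [ih, List.range_succ, List.append_assoc]
    rfl

lemma rng_eq (n : ℕ) : rng n = List.range n := by
  unfold rng
  rw [rng_aux, List.append_nil]

lemma mapL_eq {α β : Type} (f : α → β) (L : List α) : mapL f L = L.map f := by
  induction L with
  | nil => rfl
  | cons x L ih =>
    change f x :: mapL f L = _
    rw [ih]; rfl

lemma lenL_eq {α : Type} (L : List α) : lenL L = L.length := by
  induction L with
  | nil => rfl
  | cons x L ih =>
    change Nat.succ (lenL L) = _
    rw [ih]; rfl

lemma filS_eq {α β : Type} (p : α → Bool) (L : List α) (k : List α → β) :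
    filS p L k = k (L.filter p) := by
  induction L generalizing k with
  | nil => rfl
  | cons x L ih =>
    change @Bool.rec (fun _ => β) (filS p L k) (filS p L fun rest => k (x :: rest)) (p x) = _
    rw [List.filter_cons]
    cases p x with
    | true => simpa using ih _
    | false => simpa using ih _

lemma nthK_spec {α : Type} {L : List α} {i : ℕ} {k : α → Bool} (h : nthK L i k = true) :
    ∃ x, L[i]? = some x ∧ k x = true := by
  induction L generalizing i with
  | nil => exact absurd h (by simp [nthK])
  | cons x L ih =>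
    cases i with
    | zero => exact ⟨x, by simp, h⟩
    | succ i =>
      obtain ⟨y, h1, h2⟩ := ih (i := i) h
      exact ⟨y, by simpa using h1, h2⟩

lemma andB_spec {p q : Bool} (h : andB p q = true) : p = true ∧ q = true := by
  cases p with
  | true => exact ⟨rfl, h⟩
  | false => exact absurd h (by simp [andB])

lemma br_spec {p q : Bool} (h : br p q = true) (hp : p = true) : q = true := by
  subst hp; exact h

/-! ### digits -/

lemma shr_mod (X W k j : ℕ) (h : k + j ≤ W) :
    ((X % 2 ^ W) >>> k) % 2 ^ j = (X >>> k) % 2 ^ j := by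
  apply Nat.eq_of_testBit_eq
  intro i
  rw [Nat.testBit_mod_two_pow, Nat.testBit_mod_two_pow, Nat.testBit_shiftRight,
    Nat.testBit_shiftRight, Nat.testBit_mod_two_pow]
  by_cases hi : i < j
  · have : k + i < W := by omega
    simp [hi, this]
  · simp [hi]

lemma add_shr (w A B : ℕ) (hA : A < 2 ^ w) : (A + 2 ^ w * B) >>> w = B := by
  rw [Nat.shiftRight_eq_div_pow, Nat.add_mul_div_left _ _ (by positivity),
    Nat.div_eq_of_lt hA, zero_add]

lemma add_mod (w A B : ℕ) (hA : A < 2 ^ w) : (A + 2 ^ w * B) % 2 ^ w = A := by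
  rw [Nat.add_mul_mod_self_left, Nat.mod_eq_of_lt hA]

/-- digits of a packed list -/
lemma cat_spec {α : Type} (w : ℕ) (f : α → ℕ) (L : List α) (i : ℕ) (x : α)
    (h : L[i]? = some x) : (cat (2 ^ w) f L >>> (w * i)) % 2 ^ w = f x % 2 ^ w := by
  induction L generalizing i with
  | nil => simp at h
  | cons y L ih =>
    have e : cat (2 ^ w) f (y :: L) = f y % 2 ^ w + 2 ^ w * cat (2 ^ w) f L := rfl
    have hlt : f y % 2 ^ w < 2 ^ w := Nat.mod_lt _ (by positivity)
    cases i with
    | zero =>
      simp only [List.getElem?_cons_zero, Option.some.injEq] at h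
      subst h
      rw [mul_zero, Nat.shiftRight_zero, e, add_mod _ _ _ hlt]
    | succ i =>
      rw [List.getElem?_cons_succ] at h
      rw [e, mul_add, mul_one, add_comm (w * i) w, Nat.shiftRight_add, add_shr _ _ _ hlt]
      exact ih i h

/-- parts of the digits of a packed list -/
lemma cat_part {α : Type} (w k j : ℕ) (hkj : k + j ≤ w) (f : α → ℕ) (L : List α) (i : ℕ) (x : α)
    (h : L[i]? = some x) : (cat (2 ^ w) f L >>> (w * i + k)) % 2 ^ j = (f x >>> k) % 2 ^ j := by
  have h1 := cat_spec w f L i x h
  have h2 := shr_mod (cat (2 ^ w) f L >>> (w * i)) w k j hkj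
  have h3 := shr_mod (f x) w k j hkj
  rw [Nat.shiftRight_add, ← h2, h1, h3]

lemma range_get {n i : ℕ} (h : i < n) : (List.range n)[i]? = some i := by
  rw [List.getElem?_range h]

lemma d16_eq (A i : ℕ) : d16 A i = (A >>> (16 * i)) % 2 ^ 16 := rfl
lemma d32_eq (A i : ℕ) : d32 A i = (A >>> (32 * i)) % 2 ^ 32 := rfl

lemma lcmS_eq (x y : ℕ) : lcmS x y = Nat.lcm x y := by
  change x / Nat.gcd x y * y = _
  rw [Nat.lcm, Nat.div_mul_right_comm (Nat.gcd_dvd_left x y)]

end Pool.Agent.LibH4.CW
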