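import Pool.Agent.Lib_helper4.CW.Lst

/-!
Constant words: compiled components.
-/

namespace Pool.Agent.LibH4.CW

open Pool.Agent.LibH4.Ker Pool.Agent.Lib_helper5.TB

/-- next state -/
def nx (n a : ℕ) (f : ℕ × ℕ × ℕ) : ℕ × ℕ × ℕ := (f.2.2, nxR n a f.2.1 f.2.2, nxS n a f.1 f.2.1 f.2.2)

/-- first state -/
def h0 (n : ℕ) (x : ℕ × ℕ) : ℕ × ℕ × ℕ := (1 % n, x.1, (n - x.2) % n)

/-- orbit -/
def hs (n a : ℕ) (x : ℕ × ℕ) (i : ℕ) : ℕ × ℕ × ℕ := (nx n a)^[i] (h0 n x)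

lemma hs_succ (n a : ℕ) (x : ℕ × ℕ) (i : ℕ) : hs n a x (i + 1) = nx n a (hs n a x i) :=
  Function.iterate_succ_apply' _ _ _

/-- record -/
def hE (n ex PT a : ℕ) (x : ℕ × ℕ) (i : ℕ) : ℕ :=
  ent n ex PT ((n - x.2) % n) (hs n a x i).1 (hs n a x i).2.1 (hs n a x i).2.2

section

variable {n ex PT a : ℕ}

/-- bounded states -/
def Bd (n : ℕ) (f : ℕ × ℕ × ℕ) : Prop := f.1 < n ∧ f.2.1 < n ∧ f.2.2 < n

lemma Bd_nx (hn : 0 < n) {f : ℕ × ℕ × ℕ} (h : Bd n f) : Bd n (nx n a f) :=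
  ⟨h.2.2, Nat.mod_lt _ hn, Nat.mod_lt _ hn⟩

lemma Bd_hs (hn : 0 < n) {x : ℕ × ℕ} (hx : x.1 < n) (i : ℕ) : Bd n (hs n a x i) := by
  induction i with
  | zero => exact ⟨Nat.mod_lt _ hn, hx, Nat.mod_lt _ hn⟩
  | succ i ih => rw [hs_succ]; exact Bd_nx hn ih

lemma pos_lt (P R S : ℕ) : pos n ex PT P R S < 256 := by
  unfold pos
  rw [strict_eq]
  exact Nat.mod_lt _ (by norm_num)

lemma ent_eq (u P R S : ℕ) : ent n ex PT u P R S = pos n ex PT P R ((n - S) % n) +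
    (256 * P + (65536 * (R * iv n ex S % n) + 16777216 * (u * iv n ex S % n))) := rfl

lemma ent_lt (hn : 0 < n) (hn2 : n ≤ 256) {u P R S : ℕ} (hP : P < n) :
    ent n ex PT u P R S < 2 ^ 32 := by
  rw [ent_eq]
  have h1 := pos_lt (n := n) (ex := ex) (PT := PT) P R ((n - S) % n)
  have h2 := Nat.mod_lt (R * iv n ex S) hn
  have h3 := Nat.mod_lt (u * iv n ex S) hn
  have e : (2 : ℕ) ^ 32 = 4294967296 := by norm_num
  rw [e]
  omega

lemma ent_pos (hn : 0 < n) (hn2 : n ≤ 256) {u P R S : ℕ} (hP : P < n) :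
    ent n ex PT u P R S % 256 = pos n ex PT P R ((n - S) % n) := by
  rw [ent_eq]
  have h1 := pos_lt (n := n) (ex := ex) (PT := PT) P R ((n - S) % n)
  omega

lemma ent_by1 (hn : 0 < n) (hn2 : n ≤ 256) {u P R S : ℕ} (hP : P < n) :
    by1 (ent n ex PT u P R S) = P := by
  have e : by1 (ent n ex PT u P R S) = (ent n ex PT u P R S >>> 8) % 256 := rfl
  rw [e, Nat.shiftRight_eq_div_pow, ent_eq]
  have h1 := pos_lt (n := n) (ex := ex) (PT := PT) P R ((n - S) % n)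
  omega

lemma ent_by2 (hn : 0 < n) (hn2 : n ≤ 256) {u P R S : ℕ} (hP : P < n) :
    by2 (ent n ex PT u P R S) = R * iv n ex S % n := by
  have e : by2 (ent n ex PT u P R S) = (ent n ex PT u P R S >>> 16) % 256 := rfl
  rw [e, Nat.shiftRight_eq_div_pow, ent_eq]
  have h1 := pos_lt (n := n) (ex := ex) (PT := PT) P R ((n - S) % n)
  have h2 := Nat.mod_lt (R * iv n ex S) hn
  omega

lemma ent_by3 (hn : 0 < n) (hn2 : n ≤ 256) {u P R S : ℕ} (hP : P < n) :
    by3 (ent n ex PT u P R S) = u * iv n ex S % n := by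
  have e : by3 (ent n ex PT u P R S) = ent n ex PT u P R S >>> 24 := rfl
  rw [e, Nat.shiftRight_eq_div_pow, ent_eq]
  have h1 := pos_lt (n := n) (ex := ex) (PT := PT) P R ((n - S) % n)
  have h2 := Nat.mod_lt (R * iv n ex S) hn
  omega

/-- records of the orbit -/
lemma orbS_spec (hn : 0 < n) (hn2 : n ≤ 256) (u k : ℕ) (f : ℕ × ℕ × ℕ) (hf : Bd n f) (i : ℕ)
    (hi : i < k) : (orbS n ex PT a u k f.1 f.2.1 f.2.2 >>> (32 * i)) % 2 ^ 32 =
      ent n ex PT u ((nx n a)^[i] f).1 ((nx n a)^[i] f).2.1 ((nx n a)^[i] f).2.2 := by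
  induction k generalizing f i with
  | zero => omega
  | succ k ih =>
    have e : orbS n ex PT a u (k + 1) f.1 f.2.1 f.2.2 = ent n ex PT u f.1 f.2.1 f.2.2 +
        2 ^ 32 * orbS n ex PT a u k (nx n a f).1 (nx n a f).2.1 (nx n a f).2.2 := rfl
    have hlt := ent_lt (ex := ex) (PT := PT) (u := u) (R := f.2.1) (S := f.2.2) hn hn2 hf.1
    cases i with
    | zero =>
      rw [mul_zero, Nat.shiftRight_zero, e, add_mod _ _ _ hlt]
      rfl
    | succ i =>
      rw [e, mul_add, mul_one, add_comm (32 * i) 32, Nat.shiftRight_add, add_shr _ _ _ hlt]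
      have := ih (nx n a f) (Bd_nx hn hf) i (by omega)
      rw [this, Function.iterate_succ_apply]

/-- records of the orbit of a first state -/
lemma orbX_spec (hn : 0 < n) (hn2 : n ≤ 256) (pi : ℕ) {x : ℕ × ℕ} (hx : x.1 < n) (i : ℕ)
    (hi : i < pi) : (orbX n ex PT a pi x >>> (32 * i)) % 2 ^ 32 = hE n ex PT a x i :=
  orbS_spec hn hn2 _ pi (h0 n x) ⟨Nat.mod_lt _ hn, hx, Nat.mod_lt _ hn⟩ i hi

lemma retS_spec {P0 R0 S0 k : ℕ} (f : ℕ × ℕ × ℕ) (h : retS n a P0 R0 S0 k f.1 f.2.1 f.2.2 = true) :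
    (nx n a)^[k] f = (P0, R0, S0) := by
  induction k generalizing f with
  | zero =>
    have h' : andB (Nat.beq f.1 P0) (andB (Nat.beq f.2.1 R0) (Nat.beq f.2.2 S0)) = true := h
    obtain ⟨h1, h2⟩ := andB_spec h'
    obtain ⟨h2, h3⟩ := andB_spec h2
    have e1 := Nat.eq_of_beq_eq_true h1
    have e2 := Nat.eq_of_beq_eq_true h2
    have e3 := Nat.eq_of_beq_eq_true h3
    change f = _
    ext <;> simp [e1, e2, e3]
  | succ k ih =>
    rw [Function.iterate_succ_apply]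
    exact ih (nx n a f) h

lemma retX_spec {pi : ℕ} {x : ℕ × ℕ} (h : retX n a pi x = true) (i : ℕ) :
    hs n a x (i + pi) = hs n a x i := by
  have h1 : (nx n a)^[pi] (h0 n x) = h0 n x := retS_spec (h0 n x) h
  unfold hs
  rw [Function.iterate_add_apply, h1]

lemma hs_mod {pi : ℕ} {x : ℕ × ℕ} (h : ∀ i, hs n a x (i + pi) = hs n a x i) (i : ℕ) :
    hs n a x (i % pi) = hs n a x i := by
  have key : ∀ q r, hs n a x (r + pi * q) = hs n a x r := by
    intro q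
    induction q with
    | zero => intro r; simp
    | succ q ih => intro r; rw [mul_add, mul_one, ← add_assoc, h, ih]
  conv_rhs => rw [← Nat.mod_add_div i pi]
  rw [key]

lemma hE_mod {pi : ℕ} {x : ℕ × ℕ} (h : ∀ i, hs n a x (i + pi) = hs n a x i) (i : ℕ) :
    hE n ex PT a x (i % pi) = hE n ex PT a x i := by
  unfold hE
  rw [hs_mod h]

end

/-- a compiled component -/
structure CCOK (par : Bool) (a : ℕ) (c : Cmp) (cc : CC) : Prop where
  n : cc.n = c.n
  cnt : cc.cnt = (c.F.filter (stc par c.n a)).length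
  pi : 1 ≤ cc.pi
  tab : ∀ (o : ℕ) (x : ℕ × ℕ) (i : ℕ), (c.F.filter (stc par c.n a))[o]? = some x → i < cc.pi →
    (cc.tab >>> (32 * (cc.pi * o + i))) % 2 ^ 32 = hE c.n c.ex c.PT a x i
  per : ∀ (o : ℕ) (x : ℕ × ℕ), (c.F.filter (stc par c.n a))[o]? = some x →
    ∀ i, hs c.n a x (i + cc.pi) = hs c.n a x i

/-- basic properties of a component -/
structure CmpB (c : Cmp) : Prop where
  pos : 0 < c.n
  le : c.n ≤ 19
  F : ∀ x ∈ c.F, x.1 < c.n ∧ x.2 < c.n
  len : c.F.length ≤ 255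
  inv : ∀ P, P < c.n → Nat.Coprime P c.n → P * iv c.n c.ex P % c.n = 1 % c.n

lemma allL_mem {α : Type} {p : α → Bool} {L : List α} (h : allL p L = true) :
    ∀ x ∈ L, p x = true := by
  induction L with
  | nil => simp
  | cons y L ih =>
    have h' : andB (p y) (allL p L) = true := h
    obtain ⟨h1, h2⟩ := andB_spec h'
    intro x hx
    rcases List.mem_cons.1 hx with rfl | hx
    · exact h1
    · exact ih h2 x hx

lemma mkC_spec {par : Bool} {a : ℕ} {c : Cmp} (hc : CmpB c) {pi : ℕ} {k : CC → Bool}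
    (h : mkC par a c pi k = true) : ∃ cc, CCOK par a c cc ∧ k cc = true := by
  unfold mkC at h
  rw [filS_eq] at h
  obtain ⟨h1, h2⟩ := andB_spec h
  obtain ⟨h1, h3⟩ := andB_spec h1
  rw [strict_eq, strict_eq, lenL_eq] at h2
  refine ⟨_, ?_, h2⟩
  have hret := allL_mem h3
  have hmem : ∀ (o : ℕ) (x : ℕ × ℕ), (c.F.filter (stc par c.n a))[o]? = some x →
      x ∈ c.F ∧ retX c.n a pi x = true := by
    intro o x hx
    have hx' := List.mem_of_getElem? hx
    exact ⟨(List.mem_filter.1 hx').1, hret x hx'⟩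
  refine ⟨rfl, rfl, Nat.le_of_ble_eq_true h1, ?_, ?_⟩
  · intro o x i hx hi
    have hi' : i < pi := hi
    have hF := hc.F x (hmem o x hx).1
    have hV : Nat.pow (nat_lit 2) (Nat.mul (nat_lit 32) pi) = 2 ^ (32 * pi) := rfl
    change (cat _ (orbX c.n c.ex c.PT a pi) _ >>> (32 * (pi * o + i))) % 2 ^ 32 = _
    rw [hV, show 32 * (pi * o + i) = 32 * pi * o + 32 * i by ring,
      cat_part (32 * pi) (32 * i) 32 (by nlinarith) _ _ _ _ hx]
    exact orbX_spec hc.pos (by have := hc.le; omega) pi hF.1 i hi'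
  · intro o x hx i
    exact retX_spec (hmem o x hx).2 i

end Pool.Agent.LibH4.CW
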