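import Pool.Agent.Lib_helper4.CW.RelW

/-!
Constant words: the levels of the search are true.
-/

namespace Pool.Agent.LibH4.CW

open Finset Pool.Agent.Lib_helper5 Pool.Agent.Lib_helper5.LK Pool.Agent.LibH4.Ker
  Pool.Agent.LibH4.KF Pool.Agent.LibH4.T6 Pool.Agent.Lib_helper5.TB Pool.Agent.LibH4.S7

lemma per_dvd {n a pi L : ℕ} {x : ℕ × ℕ} (h : ∀ i, hs n a x (i + pi) = hs n a x i)
    (hd : pi ∣ L) (i : ℕ) : hs n a x (i % L) = hs n a x i := by
  rw [← hs_mod h (i % L), Nat.mod_mod_of_dvd _ hd, hs_mod h]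

lemma sum_per {l L : ℕ} (f : ℕ → ZMod l) (hf : ∀ i, f (i % L) = f i) (N : ℕ) :
    ∑ j ∈ range N, f j = ∑ j ∈ range (N % L), f j + (N / L : ℕ) * ∑ j ∈ range L, f j := by
  have key : ∀ q r, ∑ j ∈ range (r + L * q), f j = ∑ j ∈ range r, f j +
      (q : ZMod l) * ∑ j ∈ range L, f j := by
    intro q
    induction q with
    | zero => intro r; simp
    | succ q ih =>
      intro r
      rw [show r + L * (q + 1) = L + (r + L * q) by ring, Finset.sum_range_add]
      have : ∑ x ∈ range (r + L * q), f (L + x) = ∑ x ∈ range (r + L * q), f x := by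
        apply Finset.sum_congr rfl
        intro x _
        rw [← hf (L + x), Nat.add_mod_left, hf]
      rw [this, ih r]
      push_cast
      ring
  conv_lhs => rw [← Nat.mod_add_div N L]
  exact key _ _

lemma chk_true {l L s : ℕ} [NeZero l] {X Y : ℕ → ZMod l} {k0 k1 a2 : ZMod l}
    (h : StrOK l L s X Y k0 k1 a2) (hL : 0 < L) (hX : ∀ i, X (i % L) = X i)
    (hY : ∀ i, Y (i % L) = Y i) {bs pl B N K' : ℕ}
    (hB : by2 (d32 bs (N % K' % pl)) = B) (hBl : B ≤ l) (hLK : L ∣ K')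
    (hc : d16 s L ≠ 0 → l * L ∣ K')
    (hrel : k0 * X 0 + k1 * Y 0 + ∑ j ∈ range N, (6 * X j + a2 * Y j) + 6 * X N -
      (B : ZMod l) * Y N = 0) :
    chk L l (d16 s L) s bs pl (N % K') = true := by
  have hmod : N % K' % L = N % L := Nat.mod_mod_of_dvd _ hLK
  have hi : N % L < L := Nat.mod_lt _ hL
  have t := h.tT (N % L) hi
  have y := h.tY (N % L) hi
  have c := h.c
  rw [← d16_eq] at t y c
  have hch : chk L l (d16 s L) s bs pl (N % K') = Nat.beq ((d16 s (N % K' % L) % 256 +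
      (N % K' / L * d16 s L + (l - by2 (d32 bs (N % K' % pl))) * (d16 s (N % K' % L) >>> 8))) % l)
        0 := rfl
  rw [hch, hB, hmod]
  have hz : ((d16 s (N % L) % 256 + (N % K' / L * d16 s L + (l - B) * (d16 s (N % L) >>> 8)) :
      ℕ) : ZMod l) = 0 := by
    rw [Nat.cast_add, Nat.cast_add, Nat.cast_mul, Nat.cast_mul, t, y, Nat.cast_sub hBl,
      ZMod.natCast_self, hX, hY]
    have hjc : ((N % K' / L : ℕ) : ZMod l) * ((d16 s L : ℕ) : ZMod l) =
        ((N / L : ℕ) : ZMod l) * ((d16 s L : ℕ) : ZMod l) := by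
      by_cases h0 : d16 s L = 0
      · rw [h0]; push_cast; ring
      · obtain ⟨k, hk⟩ := hc h0
        congr 1
        have e : N / L = N % K' / L + l * (k * (N / K')) := by
          conv_lhs => rw [← Nat.mod_add_div N K', hk,
            show l * L * k * (N / (l * L * k)) = L * (l * (k * (N / (l * L * k)))) by ring,
            Nat.add_mul_div_left _ _ hL]
          rw [← hk]
        rw [e, Nat.cast_add, Nat.cast_mul, ZMod.natCast_self]
        ring
    rw [hjc, c]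
    have hs := sum_per (l := l) (L := L) (fun j => 6 * X j + a2 * Y j)
      (fun i => by simp only [hX, hY]) N
    rw [hs] at hrel
    linear_combination hrel
  rw [(ZMod.natCast_eq_zero_iff _ _).1 hz |> Nat.dvd_iff_mod_eq_zero.1]
  rfl

/-- the ordinal of the true first state -/
def PC (par : Bool) (a : ℕ) (e : ℕ → ℤ × ℤ × ℤ) (c : Cmp) (o : ℕ) : Prop :=
  ∃ x, (c.F.filter (stc par c.n a))[o]? = some x ∧ TS par a e c x

/-- contexts -/
inductive Lk (par : Bool) (a : ℕ) (e : ℕ → ℤ × ℤ × ℤ) : List CC → List (ℕ → Prop) → Prop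
  | nil : Lk par a e [] []
  | cons {cc : CC} {ctx : List CC} {ps : List (ℕ → Prop)} (c : Cmp) (h1 : CCOK par a c cc)
      (h2 : CmpOK c) (h : Lk par a e ctx ps) : Lk par a e (cc :: ctx) (PC par a e c :: ps)

section

variable {par : Bool} {a N : ℕ} {e : ℕ → ℤ × ℤ × ℤ}

lemma Lk.get {ctx : List CC} {ps : List (ℕ → Prop)} (h : Lk par a e ctx ps) {j : ℕ} {cc : CC}
    (hj : ctx[j]? = some cc) : ∃ c, CCOK par a c cc ∧ CmpOK c ∧ ps[j]? = some (PC par a e c) := by
  induction h generalizing j with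
  | nil => simp at hj
  | @cons cc' ctx ps c h1 h2 h ih =>
    cases j with
    | zero =>
      simp only [List.getElem?_cons_zero, Option.some.injEq] at hj
      subst hj
      exact ⟨c, h1, h2, rfl⟩
    | succ j =>
      rw [List.getElem?_cons_succ] at hj
      obtain ⟨c', a1, a2, a3⟩ := ih hj
      exact ⟨c', a1, a2, by rw [List.getElem?_cons_succ]; exact a3⟩

lemma d32_shift (A k i : ℕ) : d32 (A >>> (32 * k)) i = (A >>> (32 * (k + i))) % 2 ^ 32 := by
  rw [d32_eq, ← Nat.shiftRight_add, ← mul_add]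

/-- the entry of the last state -/
lemma ent_last {c : Cmp} {cc : CC} (h1 : CCOK par a c cc) {o : ℕ} {x : ℕ × ℕ}
    (hx : (c.F.filter (stc par c.n a))[o]? = some x) {K' : ℕ} (hK : cc.pi ∣ K') :
    d32 (cc.tab >>> (32 * (cc.pi * o))) (N % K' % cc.pi) = hE c.n c.ex c.PT a x N := by
  rw [d32_shift, Nat.mod_mod_of_dvd _ hK, h1.tab o x _ hx (Nat.mod_lt _ h1.pi),
    hE_mod (h1.per o x hx)]

/-- **relation levels** -/
theorem rok_of (W : World par a e N) {r : RD} (hr : RDOK r) {ps : List (ℕ → Prop)}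
    {d1 d2 d3 dl : CC} {c1 c2 c3 cl : Cmp} (h1 : CCOK par a c1 d1) (h2 : CCOK par a c2 d2)
    (h3 : CCOK par a c3 d3) (hl : CCOK par a cl dl) (k1 : CmpOK c1) (k2 : CmpOK c2)
    (k3 : CmpOK c3) (kl : CmpOK cl) (e1 : d1.n = r.n1) (e2 : d2.n = r.n2) (e3 : d3.n = r.n3)
    (el : dl.n = r.l) {j1 j2 j3 jl : ℕ} (q1 : ps[j1]? = some (PC par a e c1))
    (q2 : ps[j2]? = some (PC par a e c2)) (q3 : ps[j3]? = some (PC par a e c3))
    (ql : ps[jl]? = some (PC par a e cl)) (L : ℕ) (hL : L = lcmS d1.pi (lcmS d2.pi d3.pi)) :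
    ROK N ps j1 j2 j3 jl d1.cnt d3.cnt L (16 * (L + 1)) r.l (lcmS L dl.pi) (r.l * lcmS L dl.pi)
      (tabR r (neg r.l (2 * a)) (kk0 par r.l) (kk1 par a) L d1 d2 d3) dl.tab dl.pi := by
  have f1 : c1 = cof r.n1 := by have := k1.eq; rwa [← h1.n, e1] at this
  have f2 : c2 = cof r.n2 := by have := k2.eq; rwa [← h2.n, e2] at this
  have f3 : c3 = cof r.n3 := by have := k3.eq; rwa [← h3.n, e3] at this
  have fl : cl.n = r.l := by rw [← hl.n, el]
  subst f1 f2 f3
  have hl0 := hr.l0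
  have : NeZero r.l := ⟨hl0.ne'⟩
  have pi1 := h1.pi
  have pi2 := h2.pi
  have pi3 := h3.pi
  have pil := hl.pi
  rw [lcmS_eq, lcmS_eq] at hL
  have hLpos : 0 < L := by
    rw [hL]; exact Nat.lcm_pos pi1 (Nat.lcm_pos pi2 pi3)
  have d1L : d1.pi ∣ L := by rw [hL]; exact Nat.dvd_lcm_left _ _
  have d2L : d2.pi ∣ L := by rw [hL]; exact (Nat.dvd_lcm_left _ _).trans (Nat.dvd_lcm_right _ _)
  have d3L : d3.pi ∣ L := by rw [hL]; exact (Nat.dvd_lcm_right _ _).trans (Nat.dvd_lcm_right _ _)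
  rw [lcmS_eq]
  have hX0 : 0 < Nat.lcm L dl.pi := Nat.lcm_pos hLpos pil
  refine ⟨hX0, Nat.mul_pos hl0 hX0, ?_⟩
  intro env ht s hsd K' hK hXX
  obtain ⟨x1, g1, T1⟩ := ht.get q1
  obtain ⟨x2, g2, T2⟩ := ht.get q2
  obtain ⟨x3, g3, T3⟩ := ht.get q3
  obtain ⟨xl, gl, Tl⟩ := ht.get ql
  have st := tabR_spec r h1 h2 h3 hr.k1.toCmpB hr.k2.toCmpB hr.k3.toCmpB hl0 hr.l256 hr.len
    (neg r.l (2 * a)) (kk0 par r.l) (kk1 par a) g1 g2 g3
    (fun i => by rw [hr.lr]; exact (T1.props W hr.k1 i).1)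
    (fun i => by rw [hr.l2]; exact (T2.props W hr.k2 i).1)
    (fun i => by rw [hr.l3]; exact (T3.props W hr.k3 i).1) L hLpos d1L
  rw [← hsd] at st
  have hXd : Nat.lcm L dl.pi ∣ K' := by
    unfold XX at hXX
    cases hb : Nat.beq (d16 s L) (nat_lit 0) with
    | true => rw [hb] at hXX; exact hXX
    | false => rw [hb] at hXX; exact (Dvd.intro_left _ rfl).trans hXX
  have hLK : L ∣ K' := (Nat.dvd_lcm_left _ _).trans hXd
  have hpK : dl.pi ∣ K' := (Nat.dvd_lcm_right _ _).trans hXd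
  have hB := ent_last (N := N) hl gl hpK
  have hbl := (kl.F xl (List.mem_filter.1 (List.mem_of_getElem? gl)).1).1
  have hbd := Bd_hs (a := a) kl.pos hbl N
  have hle : cl.n ≤ 256 := by have := kl.le; omega
  have hBv : by2 (d32 (dl.tab >>> (32 * (dl.pi * gt env jl))) (N % K' % dl.pi)) =
      (hs cl.n a xl N).2.1 * iv cl.n cl.ex (hs cl.n a xl N).2.2 % cl.n := by
    rw [hB]
    unfold hE
    exact ent_by2 kl.pos hle hbd.1
  have hlast := (Tl.last W kl).1
  rw [fl] at hlast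
  have P1 : ∀ i, hs (cof r.n1).n a x1 (i % L) = hs (cof r.n1).n a x1 i :=
    per_dvd (h1.per _ _ g1) d1L
  have P2 : ∀ i, hs (cof r.n2).n a x2 (i % L) = hs (cof r.n2).n a x2 i :=
    per_dvd (h2.per _ _ g2) d2L
  have P3 : ∀ i, hs (cof r.n3).n a x3 (i % L) = hs (cof r.n3).n a x3 i :=
    per_dvd (h3.per _ _ g3) d3L
  refine chk_true st hLpos ?_ ?_ (B := (hs cl.n a xl N).2.1 *
    iv cl.n cl.ex (hs cl.n a xl N).2.2 % cl.n) hBv ?_ hLK ?_ ?_
  · intro i
    simp only [Xh, wh, pp, P1, P2, P3]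
  · intro i
    simp only [Yh, wh, pp, P1, P2, P3]
  · rw [← fl]; exact (Nat.mod_lt _ kl.pos).le
  · intro h0
    have hb : Nat.beq (d16 s L) (nat_lit 0) = false := by
      cases hb : Nat.beq (d16 s L) (nat_lit 0) with
      | true => exact absurd (Nat.eq_of_beq_eq_true hb) h0
      | false => rfl
    unfold XX at hXX
    rw [hb] at hXX
    exact (Nat.mul_dvd_mul_left _ (Nat.dvd_lcm_left _ _)).trans hXX
  · have := rel_hat W hr T1 T2 T3 _ _ rfl rfl
    rw [fl, hlast]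
    exact this

/-- genus levels -/
theorem gok_of (W : World par a e N) (hpar : par = true) {ps : List (ℕ → Prop)} {d : CC} {c : Cmp}
    (h : CCOK par a c d) (k : CmpOK c) (hn : d.n = 4) {j : ℕ} (q : ps[j]? = some (PC par a e c)) :
    GOK N ps j d.pi d.tab := by
  refine ⟨h.pi, ?_⟩
  intro env ht K' hK hd
  obtain ⟨x, g, T⟩ := ht.get q
  have hB := ent_last (N := N) h g hd
  have hb := (k.F x (List.mem_filter.1 (List.mem_of_getElem? g)).1).1
  have hbd := Bd_hs (a := a) k.pos hb N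
  have hle : c.n ≤ 256 := by have := k.le; omega
  rw [hB]
  unfold hE
  rw [ent_by3 k.pos hle hbd.1]
  have hlast := (T.last W k).2
  have hg := W.gen hpar
  have h4 : c.n = 4 := by rw [← h.n, hn]
  rw [h4] at hlast ⊢
  set v := (4 - x.2) % 4 * iv 4 c.ex (hs 4 a x N).2.2 % 4 with hv
  have hv4 : v < 4 := Nat.mod_lt _ (by norm_num)
  have h5 : ((v : ℤ) : ZMod 4) = (((e 0).2.2 : ℤ) : ZMod 4) := by
    rw [← hlast]; push_cast; rfl
  have h6 := (ZMod.intCast_eq_intCast_iff' _ _ 4).1 h5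
  push_cast at h6
  omega

end

end Pool.Agent.LibH4.CW
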