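import Pool.Agent.Lib_helper4.CW.Pass

/-!
Constant words: soundness of the elimination.
-/

namespace Pool.Agent.LibH4.CW

open Finset Pool.Agent.Lib_helper5 Pool.Agent.Lib_helper5.LK Pool.Agent.LibH4.Ker
  Pool.Agent.LibH4.KF Pool.Agent.LibH4.T6 Pool.Agent.Lib_helper5.TB Pool.Agent.LibH4.S7

variable {par : Bool} {a N : ℕ} {e : ℕ → ℤ × ℤ × ℤ}

/-- relation levels -/
lemma mkR_spec (W : World par a e N) {r : RD} (hr : RDOK r) {ctx : List CC} {ps : List (ℕ → Prop)}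
    (hc : Lk par a e ctx ps) {j1 j2 j3 jl : ℕ} {d1 d2 d3 dl : CC} (g1 : ctx[j1]? = some d1)
    (g2 : ctx[j2]? = some d2) (g3 : ctx[j3]? = some d3) (gl : ctx[jl]? = some dl)
    {k : Lv → Bool} (h : mkR par a r j1 j2 j3 jl d1 d2 d3 dl k = true) :
    ∃ v, (∀ ls, Valid N ps ls → Valid N ps (v :: ls)) ∧ k v = true := by
  obtain ⟨h1, h2⟩ := andB_spec h
  obtain ⟨e1, h1⟩ := andB_spec h1
  obtain ⟨e2, h1⟩ := andB_spec h1
  obtain ⟨e3, e4⟩ := andB_spec h1
  simp only [strict_eq] at h2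
  obtain ⟨c1, a1, b1, q1⟩ := hc.get g1
  obtain ⟨c2, a2, b2, q2⟩ := hc.get g2
  obtain ⟨c3, a3, b3, q3⟩ := hc.get g3
  obtain ⟨cl, al, bl, ql⟩ := hc.get gl
  refine ⟨_, fun ls hv => ?_, h2⟩
  exact Valid.R (rok_of W hr a1 a2 a3 al b1 b2 b3 bl (Nat.eq_of_beq_eq_true e1)
    (Nat.eq_of_beq_eq_true e2) (Nat.eq_of_beq_eq_true e3) (Nat.eq_of_beq_eq_true e4) q1 q2 q3 ql
    _ rfl) hv

/-- compilation of a chain -/
theorem run_spec (W : World par a e N) {cl : List Cmp} (hcl : ∀ c ∈ cl, CmpOK c) {rl : List RD}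
    (hrl : ∀ r ∈ rl, RDOK r) (chs : List Ch) : ∀ (ctx : List CC) (ps : List (ℕ → Prop))
    (k : List Lv → Bool), Lk par a e ctx ps → run par a cl rl chs ctx k = true →
    ∃ ls, Valid N ps ls ∧ k ls = true := by
  induction chs with
  | nil => intro ctx ps k _ h; exact ⟨[], Valid.nil ps, h⟩
  | cons h chs ih =>
    intro ctx ps k hc hk
    cases h with
    | M c pi =>
      obtain ⟨c', g, h1⟩ := nthK_spec hk
      have hok := hcl c' (List.mem_of_getElem? g)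
      obtain ⟨cc, h2, h3⟩ := mkC_spec hok.toCmpB h1
      obtain ⟨ls, v, hl⟩ := ih _ _ _ (Lk.cons c' h2 hok hc) h3
      obtain ⟨x, T⟩ := W.exists_ts hok
      obtain ⟨o, ho⟩ := List.mem_iff_getElem?.1 T.mem
      have ho1 : o < cc.cnt := by
        rw [h2.cnt]; exact (List.getElem?_eq_some_iff.1 ho).1
      have ho2 : o < 256 := by
        have h4 := (List.getElem?_eq_some_iff.1 ho).1
        have h5 := List.length_filter_le (stc par c'.n a) c'.F
        have h6 := hok.len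
        omega
      exact ⟨_, Valid.M (PC par a e c') o ho1 ho2 ⟨x, ho, T⟩ v, hl⟩
    | R r j1 j2 j3 jl =>
      obtain ⟨r', g, h1⟩ := nthK_spec hk
      obtain ⟨d1, g1, h1⟩ := nthK_spec h1
      obtain ⟨d2, g2, h1⟩ := nthK_spec h1
      obtain ⟨d3, g3, h1⟩ := nthK_spec h1
      obtain ⟨dl, gl, h1⟩ := nthK_spec h1
      obtain ⟨v, hv, h2⟩ := mkR_spec W (hrl r' (List.mem_of_getElem? g)) hc g1 g2 g3 gl h1
      obtain ⟨ls, w, hl⟩ := ih _ _ _ hc h2
      exact ⟨_, hv ls w, hl⟩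
    | G j =>
      obtain ⟨d, g, h1⟩ := nthK_spec hk
      obtain ⟨h2, h1⟩ := andB_spec h1
      obtain ⟨h3, h1⟩ := andB_spec h1
      obtain ⟨ls, w, hl⟩ := ih _ _ _ hc h1
      obtain ⟨c, a1, b1, q1⟩ := hc.get g
      exact ⟨_, Valid.G (gok_of W h3 a1 b1 (Nat.eq_of_beq_eq_true h2) q1) w, hl⟩

/-- **soundness of the elimination** -/
theorem elim_spec {cl : List Cmp} (hcl : ∀ c ∈ cl, CmpOK c) {rl : List RD}
    (hrl : ∀ r ∈ rl, RDOK r) {chs : List Ch} (h : elim par a cl rl chs = true) :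
    ¬ World par a e N := by
  intro W
  obtain ⟨ls, v, hl⟩ := run_spec W hcl hrl chs [] [] _ Lk.nil h
  exact dfs_sound v 0 0 1 trivial one_pos (Nat.mod_one N) hl

end Pool.Agent.LibH4.CW
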