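import Pool.Agent.Lib_helper4.LO.Small

/-!
Constant words: the discriminants with a small prime which is not inert are small.
-/

namespace Pool.Agent.LibH4.CW

open Function Pool.Agent.Lib_helper5 Pool.Agent.LibH4 Pool.Agent.LibH4.CFO Pool.Agent.LibH4.LO

variable {m B : ℤ} {s : ℝ} {x : ℕ → ℝ} {c : ℕ → ℕ}

/-- the middle coefficients are positive -/
lemma QR_pos (h : Data m B s x c) (k : ℕ) : 0 < QR m B c (k + 1) := by
  have i0 := inv_of h k
  have i1 := inv_of h (k + 1)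
  have hfr := i0.frac
  have hs := i1.sR
  have hRs := i1.Rs
  have hdis := i1.disc
  have hP : QP m B c (k + 1) = QS m B c k := QP_succ k
  rw [hP] at hdis
  have hS0 : (0 : ℝ) < QS m B c k := by exact_mod_cast i0.Spos
  have hS1 : (0 : ℝ) < QS m B c (k + 1) := by exact_mod_cast i1.Spos
  have hsq : s ^ 2 = (QR m B c (k + 1) : ℝ) ^ 2 + 4 * QS m B c k * QS m B c (k + 1) := by
    rw [h.sq, ← hdis]; push_cast; ring
  by_contra hneg
  have hR : (QR m B c (k + 1) : ℝ) ≤ 0 := by exact_mod_cast not_lt.1 hneg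
  -- `2 S > s - R` and `2 P > s - R`
  have a1 : s - QR m B c (k + 1) < 2 * QS m B c (k + 1) := by linarith
  have a2 : (0 : ℝ) < s - QR m B c (k + 1) := by linarith
  have a3 : (s - QR m B c (k + 1)) * (s + QR m B c (k + 1)) =
      (2 * QS m B c k) * (2 * QS m B c (k + 1)) := by linarith
  have a4 : (s - QR m B c (k + 1)) * (s - QR m B c (k + 1)) <
      (2 * QS m B c k) * (2 * QS m B c (k + 1)) :=
    mul_lt_mul'' hfr a1 a2.le a2.le
  rw [← a3] at a4
  have a5 := lt_of_mul_lt_mul_left a4 a2.le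
  linarith

/-- a prime with a root is a coefficient -/
lemma prime_QS (h : Data m B s x c) (hm : 0 < m) (hB : 1 ≤ B)
    [IsDomain (QuadraticAlgebra ℤ m B)] [UniqueFactorizationMonoid (QuadraticAlgebra ℤ m B)]
    {p : ℕ} (hp : p.Prime) {X : ℤ} (hX : (p : ℤ) ∣ X ^ 2 + B * X - m)
    (h4 : 4 * (p : ℤ) ^ 2 < B ^ 2 + 4 * m) : ∃ j, QS m B c j = p := by
  obtain ⟨π, hπ⟩ := exists_norm_of_root hp hX
  have hnorm : ∀ γ : QuadraticAlgebra ℤ m B,
      γ.re ^ 2 + B * γ.re * γ.im - m * γ.im ^ 2 = γ.norm := by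
    intro γ
    rw [QuadraticAlgebra.norm_def]; ring
  have hn : 4 * (π.re ^ 2 + B * π.re * π.im - m * π.im ^ 2) ^ 2 < B ^ 2 + 4 * m := by
    rw [hnorm, ← Int.natAbs_sq, hπ]
    exact h4
  obtain ⟨j, hj⟩ := small_norm h hm hB (one_coprime hp hπ) hn
  rw [hnorm, Int.abs_eq_natAbs, hπ] at hj
  exact ⟨j, hj⟩

/-- the index in the period -/
lemma prime_idx (h : Data m B s x c) {L : ℕ} (hL0 : 0 < L) (hL : minimalPeriod gsh (x 1) = L)
    {p : ℕ} (hp : p.Prime) {j : ℕ} (hj : QS m B c j = p) :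
    ∃ i, 1 ≤ i ∧ i < L ∧ QS m B c i = p := by
  have e1 : QS m B c j = QS m B c (j % L) := by
    have h1 := per_mul h hL (j % L) (j / L)
    rw [Nat.mod_add_div'] at h1
    exact (state_eq h h1).2.2
  refine ⟨j % L, ?_, Nat.mod_lt _ hL0, by rw [← e1]; exact hj⟩
  rcases Nat.eq_zero_or_pos (j % L) with h0 | h0
  · exfalso
    rw [h0] at e1
    rw [e1] at hj
    have : (1 : ℤ) = p := hj
    have hp1 := hp.one_lt
    omega
  · exact h0

/-- **small discriminants** -/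
lemma small_D (h : Data m B s x c) (hm : 0 < m) (hB : 1 ≤ B) {L : ℕ} (hL0 : 0 < L)
    (hL : minimalPeriod gsh (x 1) = L) {a : ℕ} (ha : 1 ≤ a)
    (hc : ∀ i, 1 ≤ i → i < L → c i = a)
    [IsDomain (QuadraticAlgebra ℤ m B)] [UniqueFactorizationMonoid (QuadraticAlgebra ℤ m B)]
    {p : ℕ} (hp : p.Prime) (hp19 : p ≤ 19) {X : ℤ} (hX : (p : ℤ) ∣ X ^ 2 + B * X - m) :
    B ^ 2 + 4 * m < 1444 * ((a : ℤ) + 1) ^ 2 := by
  have hpz : (p : ℤ) ≤ 19 := by exact_mod_cast hp19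
  have hp0 : (0 : ℤ) < p := by exact_mod_cast hp.pos
  have haz : (1 : ℤ) ≤ a := by exact_mod_cast ha
  have hp2 : (p : ℤ) ^ 2 ≤ 361 := by nlinarith
  by_cases h4 : 4 * (p : ℤ) ^ 2 < B ^ 2 + 4 * m
  · obtain ⟨j, hj⟩ := prime_QS h hm hB hp hX h4
    obtain ⟨i, hi1, hi2, hi⟩ := prime_idx h hL0 hL hp hj
    obtain ⟨k, rfl⟩ : ∃ k, i = k + 1 := ⟨i - 1, by omega⟩
    have hR := QR_pos h k
    have hci := hc (k + 1) hi1 hi2
    have inv := inv_of h (k + 1)
    have hfl := Int.lt_floor_add_one (x (k + 1))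
    rw [← h.fl (k + 1), hci, inv.xe, hi] at hfl
    have hpr : (0 : ℝ) < p := by exact_mod_cast hp.pos
    push_cast at hfl
    rw [div_lt_iff₀ (by positivity)] at hfl
    have hRr : (0 : ℝ) < QR m B c (k + 1) := by exact_mod_cast hR
    have hs1 : s < 2 * p * (a + 1) := by linarith
    have hs0 : 0 < s := by
      have := inv.Rs
      linarith
    have hs2 : s ^ 2 < (2 * p * (a + 1)) ^ 2 := pow_lt_pow_left₀ hs1 hs0.le (by norm_num)
    rw [h.sq] at hs2
    have hs3 : B ^ 2 + 4 * m < (2 * (p : ℤ) * (a + 1)) ^ 2 := by exact_mod_cast hs2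
    have hs4 : (2 * (p : ℤ) * (a + 1)) ^ 2 ≤ 1444 * ((a : ℤ) + 1) ^ 2 := by
      have : (2 * (p : ℤ) * (a + 1)) ^ 2 = 4 * (p : ℤ) ^ 2 * ((a : ℤ) + 1) ^ 2 := by ring
      rw [this]
      have h0 : (0 : ℤ) ≤ ((a : ℤ) + 1) ^ 2 := by positivity
      nlinarith
    linarith
  · nlinarith

/-! ### the parameters -/

/-- continuants -/
def Fz (a : ℤ) : ℕ → ℤ × ℤ
  | 0 => (1, 0)
  | n + 1 => ((Fz a n).2, (Fz a n).1 + a * (Fz a n).2)

/-- the value of the quadratic form -/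
def qv (B m : ℤ) (w : ℤ × ℤ) : ℤ := w.1 ^ 2 + B * w.1 * w.2 - m * w.2 ^ 2

lemma orbit_form (h : Data m B s x c) {L a : ℕ} (hc : ∀ i, 1 ≤ i → i < L → c i = a) (j : ℕ)
    (hj : j < L) : QP m B c (j + 1) = (-1) ^ j * qv B m (Fz a j) ∧
    QR m B c (j + 1) = (-1) ^ j * (2 * (Fz a j).1 * (Fz a (j + 1)).1 +
      B * ((Fz a j).1 * (Fz a (j + 1)).2 + (Fz a j).2 * (Fz a (j + 1)).1) -
      2 * m * (Fz a j).2 * (Fz a (j + 1)).2) ∧
    QS m B c (j + 1) = (-1) ^ (j + 1) * qv B m (Fz a (j + 1)) := by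
  induction j with
  | zero =>
    have e1 : QP m B c (0 + 1) = 1 := by rw [QP_succ]; rfl
    have e2 : QR m B c (0 + 1) = B := by rw [zero_add]; exact QR_one h
    have e3 : QS m B c (0 + 1) = m := by rw [zero_add]; exact QS_one h
    rw [e1, e2, e3]
    simp only [Fz, qv]
    refine ⟨by ring, by ring, by ring⟩
  | succ j ih =>
    obtain ⟨i1, i2, i3⟩ := ih (by omega)
    have hcj : (c (j + 1) : ℤ) = a := by exact_mod_cast hc (j + 1) (by omega) hj
    rw [QP_succ (j + 1), QR_succ (j + 1), QS_succ (j + 1), i1, i2, i3, hcj]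
    refine ⟨rfl, ?_, ?_⟩
    · simp only [Fz, qv]
      ring
    · simp only [Fz, qv]
      ring

lemma cassini (a : ℤ) (n : ℕ) : qv a 1 (Fz a n) = (-1) ^ n := by
  induction n with
  | zero => simp [Fz, qv]
  | succ n ih =>
    rw [pow_succ, ← ih]
    simp only [Fz, qv]
    ring

lemma Fz_coprime (a : ℤ) (n : ℕ) : IsCoprime (Fz a n).1 (Fz a n).2 := by
  induction n with
  | zero => exact isCoprime_one_left
  | succ n ih =>
    simp only [Fz]
    have := ih.symm.add_mul_left_right a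
    rw [mul_comm] at this
    exact this

lemma Fz_pos {a : ℤ} (ha : 1 ≤ a) (n : ℕ) : 0 ≤ (Fz a n).1 ∧ 0 ≤ (Fz a n).2 ∧
    0 < (Fz a (n + 1)).2 ∧ 0 ≤ (Fz a (n + 1)).1 := by
  induction n with
  | zero => simp [Fz]
  | succ n ih =>
    obtain ⟨i1, i2, i3, i4⟩ := ih
    refine ⟨i4, i3.le, ?_, ?_⟩
    · change 0 < (Fz a (n + 1)).1 + a * (Fz a (n + 1)).2
      have : 0 < a * (Fz a (n + 1)).2 := mul_pos (by omega) i3
      omega
    · exact i3.le

/-- **the parameters** -/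
theorem params (h : Data m B s x c) {L a : ℕ} (hL : minimalPeriod gsh (x 1) = L) (hL2 : 2 ≤ L)
    (ha : 1 ≤ a) (hc : ∀ i, 1 ≤ i → i < L → c i = a) (hm : 0 < m) :
    ∃ t : ℤ, 1 ≤ t ∧ B = a + t * (Fz a L).2 ∧ m = 1 + t * (Fz a L).1 := by
  obtain ⟨k, rfl⟩ : ∃ k, L = k + 1 := ⟨L - 1, by omega⟩
  have hz : x (k + 1) = x 0 := by have := per_of h hL 0; rwa [zero_add] at this
  have hS := (state_eq h hz).2.2
  have hS0 : QS m B c 0 = 1 := rfl
  rw [hS0, (orbit_form h hc k (by omega)).2.2] at hS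
  have hca := cassini (a : ℤ) (k + 1)
  have hsg : ((-1 : ℤ) ^ (k + 1)) * (-1) ^ (k + 1) = 1 := by
    rw [← mul_pow]; norm_num
  have hq : qv B m (Fz a (k + 1)) = (-1) ^ (k + 1) := by
    linear_combination (-1) ^ (k + 1) * hS - qv B m (Fz a (k + 1)) * hsg
  set u := (Fz (a : ℤ) (k + 1)).1 with hu
  set v := (Fz (a : ℤ) (k + 1)).2 with hv
  have hvpos : 0 < v := (Fz_pos (by exact_mod_cast ha) k).2.2.1
  have hu0 : 0 ≤ u := (Fz_pos (by exact_mod_cast ha) k).2.2.2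
  have e1 : (B - a) * u = (m - 1) * v := by
    have h1 : v * ((B - a) * u - (m - 1) * v) = 0 := by
      have h2 : qv B m (Fz a (k + 1)) = qv a 1 (Fz a (k + 1)) := by rw [hq, hca]
      simp only [qv] at h2
      rw [← hu, ← hv] at h2
      linear_combination h2
    rcases mul_eq_zero.1 h1 with h2 | h2
    · omega
    · linarith
  have hcop := Fz_coprime (a : ℤ) (k + 1)
  rw [← hu, ← hv] at hcop
  obtain ⟨t, ht⟩ : v ∣ B - a := by
    apply hcop.symm.dvd_of_dvd_mul_right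
    rw [e1]
    exact Dvd.intro_left _ rfl
  have hm1 : m = 1 + t * u := by
    have h1 : v * (m - 1 - t * u) = 0 := by
      rw [ht] at e1
      linear_combination -e1
    rcases mul_eq_zero.1 h1 with h2 | h2
    · omega
    · linarith
  refine ⟨t, ?_, by linarith, hm1⟩
  have hS1 := S_ne_one h hL (j := 1) (by norm_num) (by omega)
  rw [QS_one h] at hS1
  by_contra ht0
  have ht1 : t ≤ 0 := by omega
  have : t * u ≤ 0 := mul_nonpos_of_nonpos_of_nonneg ht1 hu0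
  omega

end Pool.Agent.LibH4.CW
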