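import Pool.Agent.Lib_helper4.CW.Orb

/-!
Constant words: the strings of values.
-/

namespace Pool.Agent.LibH4.CW

open Finset Pool.Agent.LibH4.Ker Pool.Agent.Lib_helper5.TB

/-- weighted value of the first sum -/
def xw (x : (ℕ × ℕ) × ℕ) (E : ℕ) : ℕ :=
  x.2 * ((E % 16777216) >>> 16) * ((x.1.1 >>> (E % 16777216 % 65536)) % 256)
/-- weighted value of the second sum -/
def yw (x : (ℕ × ℕ) × ℕ) (E : ℕ) : ℕ :=
  x.2 * ((E % 16777216) >>> 16) * ((x.1.2 >>> (E % 16777216 % 65536)) % 256)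

/-- output of a step -/
def Dg (l : ℕ) (x : (ℕ × ℕ) × ℕ) (E acc : ℕ) : ℕ :=
  (acc + 6 * xw x E) % l + 256 * (yw x E % l)

/-- accumulator after a step -/
def Nx (l a2 : ℕ) (x : (ℕ × ℕ) × ℕ) (E acc : ℕ) : ℕ :=
  ((acc + 6 * xw x E) % l + a2 * (yw x E % l)) % l

lemma mainL_cons (l a2 : ℕ) (fin : ℕ → ℕ → ℕ) (x : (ℕ × ℕ) × ℕ) (xs : List ((ℕ × ℕ) × ℕ))
    (E acc : ℕ) : mainL l a2 fin (x :: xs) E acc =
      Dg l x E acc + 2 ^ 16 * mainL l a2 fin xs (E >>> 24) (Nx l a2 x E acc) := rfl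

lemma mainL_nil (l a2 : ℕ) (fin : ℕ → ℕ → ℕ) (E acc : ℕ) :
    mainL l a2 fin [] E acc = fin E acc := rfl

/-- accumulators -/
def ac (l a2 : ℕ) (g : ℕ → (ℕ × ℕ) × ℕ) (E acc : ℕ) : ℕ → ℕ
  | 0 => acc
  | i + 1 => Nx l a2 (g i) (E >>> (24 * i)) (ac l a2 g E acc i)

lemma ac_shift (l a2 : ℕ) (g : ℕ → (ℕ × ℕ) × ℕ) (E acc j i : ℕ) :
    ac l a2 g E acc (j + i) =
      ac l a2 (fun k => g (j + k)) (E >>> (24 * j)) (ac l a2 g E acc j) i := by
  induction i with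
  | zero => rfl
  | succ i ih =>
    change Nx l a2 (g (j + i)) (E >>> (24 * (j + i))) (ac l a2 g E acc (j + i)) =
      Nx l a2 (g (j + i)) (E >>> (24 * j) >>> (24 * i)) _
    rw [ih, ← Nat.shiftRight_add, mul_add]

lemma Dg_lt {l : ℕ} (hl : 0 < l) (hl2 : l ≤ 256) (x : (ℕ × ℕ) × ℕ) (E acc : ℕ) :
    Dg l x E acc < 2 ^ 16 := by
  unfold Dg
  have h1 := Nat.mod_lt (acc + 6 * xw x E) hl
  have h2 := Nat.mod_lt (yw x E) hl
  have e : (2 : ℕ) ^ 16 = 65536 := by norm_num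
  rw [e]
  omega

lemma mainL_spec {l : ℕ} (hl : 0 < l) (hl2 : l ≤ 256) (a2 : ℕ) (fin : ℕ → ℕ → ℕ)
    (g : ℕ → (ℕ × ℕ) × ℕ) (m : ℕ) (E acc : ℕ) :
    (∀ i < m, (mainL l a2 fin ((List.range m).map g) E acc >>> (16 * i)) % 2 ^ 16 =
      Dg l (g i) (E >>> (24 * i)) (ac l a2 g E acc i)) ∧
    mainL l a2 fin ((List.range m).map g) E acc >>> (16 * m) =
      fin (E >>> (24 * m)) (ac l a2 g E acc m) := by
  induction m generalizing g E acc with
  | zero => exact ⟨fun i hi => absurd hi (Nat.not_lt_zero _), rfl⟩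
  | succ m ih =>
    have e : (List.range (m + 1)).map g = g 0 :: (List.range m).map fun k => g (1 + k) := by
      rw [List.range_succ_eq_map, List.map_cons, List.map_map]
      congr 1
      apply List.map_congr_left
      intro i _
      simp [add_comm]
    have hlt := Dg_lt hl hl2 (g 0) E acc
    obtain ⟨i1, i2⟩ := ih (fun k => g (1 + k)) (E >>> 24) (Nx l a2 (g 0) E acc)
    have hac : ∀ i, ac l a2 g E acc (1 + i) =
        ac l a2 (fun k => g (1 + k)) (E >>> 24) (Nx l a2 (g 0) E acc) i := fun i =>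
      ac_shift l a2 g E acc 1 i
    rw [e, mainL_cons]
    constructor
    · intro i hi
      cases i with
      | zero => rw [mul_zero, Nat.shiftRight_zero, add_mod _ _ _ hlt]; rfl
      | succ i =>
        rw [mul_add, mul_one, add_comm (16 * i) 16, Nat.shiftRight_add, add_shr _ _ _ hlt,
          i1 i (by omega), add_comm i 1, hac, ← Nat.shiftRight_add,
          show 24 + 24 * i = 24 * (1 + i) by ring]
    · rw [mul_add, mul_one, add_comm (16 * m) 16, Nat.shiftRight_add, add_shr _ _ _ hlt, i2,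
        add_comm m 1, hac, ← Nat.shiftRight_add, show 24 + 24 * m = 24 * (1 + m) by ring]

lemma mainQ_spec {l : ℕ} (hl : 0 < l) (hl2 : l ≤ 256) (a2 a0 : ℕ)
    (g : ℕ → (ℕ × ℕ) × ℕ) (p : ℕ) (hp : 0 < p) (hg : ∀ i, g (i % p) = g i) (q : ℕ) (E acc : ℕ) :
    (∀ i < p * q, (mainQ l a2 a0 ((List.range p).map g) q E acc >>> (16 * i)) % 2 ^ 16 =
      Dg l (g i) (E >>> (24 * i)) (ac l a2 g E acc i)) ∧
    mainQ l a2 a0 ((List.range p).map g) q E acc >>> (16 * (p * q)) =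
      (ac l a2 g E acc (p * q) + (l - a0)) % l := by
  induction q generalizing E acc with
  | zero => exact ⟨fun i hi => absurd hi (Nat.not_lt_zero _), rfl⟩
  | succ q ih =>
    have e : mainQ l a2 a0 ((List.range p).map g) (q + 1) E acc =
      mainL l a2 (mainQ l a2 a0 ((List.range p).map g) q) ((List.range p).map g) E acc := rfl
    obtain ⟨j1, j2⟩ := mainL_spec hl hl2 a2 (mainQ l a2 a0 ((List.range p).map g) q) g p E acc
    obtain ⟨i1, i2⟩ := ih (E >>> (24 * p)) (ac l a2 g E acc p)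
    have hgp : (fun k => g (p + k)) = g := by
      funext k
      rw [← hg (p + k), Nat.add_mod_left, hg]
    have hac : ∀ i, ac l a2 g E acc (p + i) = ac l a2 g (E >>> (24 * p)) (ac l a2 g E acc p) i := by
      intro i
      have := ac_shift l a2 g E acc p i
      rwa [hgp] at this
    rw [e]
    constructor
    · intro i hi
      rcases lt_or_ge i p with hip | hip
      · exact j1 i hip
      · obtain ⟨k, rfl⟩ : ∃ k, i = p + k := ⟨i - p, by omega⟩
        rw [mul_add, Nat.shiftRight_add, j2, i1 k (by rw [mul_add] at hi; omega), hac,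
          ← Nat.shiftRight_add, ← mul_add, show g (p + k) = g k from congrFun hgp k]
    · rw [mul_add p q 1, mul_one, add_comm (p * q) p, mul_add 16, Nat.shiftRight_add, j2, i2, hac]

/-- the string of values -/
structure StrOK (l L s : ℕ) (X Y : ℕ → ZMod l) (k0 k1 a2 : ZMod l) : Prop where
  tT : ∀ i < L, (((s >>> (16 * i)) % 2 ^ 16 % 256 : ℕ) : ZMod l) =
    k0 * X 0 + k1 * Y 0 + ∑ j ∈ range i, (6 * X j + a2 * Y j) + 6 * X i
  tY : ∀ i < L, ((((s >>> (16 * i)) % 2 ^ 16) >>> 8 : ℕ) : ZMod l) = Y i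
  c : (((s >>> (16 * L)) % 2 ^ 16 : ℕ) : ZMod l) = ∑ j ∈ range L, (6 * X j + a2 * Y j)
  lt : (s >>> (16 * L)) % 2 ^ 16 < l

lemma ac_cast {l : ℕ} (a2 : ℕ) (g : ℕ → (ℕ × ℕ) × ℕ) (E acc i : ℕ) :
    ((ac l a2 g E acc i : ℕ) : ZMod l) = (acc : ZMod l) + ∑ j ∈ range i,
      (6 * ((xw (g j) (E >>> (24 * j)) : ℕ) : ZMod l) +
        (a2 : ZMod l) * ((yw (g j) (E >>> (24 * j)) : ℕ) : ZMod l)) := by
  induction i with
  | zero => simp [ac]
  | succ i ih =>
    rw [Finset.sum_range_succ, ← add_assoc, ← ih]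
    change ((Nx l a2 (g i) (E >>> (24 * i)) (ac l a2 g E acc i) : ℕ) : ZMod l) = _
    unfold Nx
    rw [ZMod.natCast_mod]
    push_cast
    rw [ZMod.natCast_mod, ZMod.natCast_mod]
    push_cast
    ring

lemma split8 {u v : ℕ} (hu : u < 256) : (u + 256 * v) % 256 = u ∧ (u + 256 * v) >>> 8 = v := by
  rw [Nat.shiftRight_eq_div_pow]
  constructor <;> omega

lemma str_spec {l : ℕ} (hl : 0 < l) (hl2 : l ≤ 256) (a2 k0 k1 : ℕ)
    (g : ℕ → (ℕ × ℕ) × ℕ) (p : ℕ) (hp : 0 < p) (hg : ∀ i, g (i % p) = g i) (q : ℕ) (hq : 0 < q)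
    (E : ℕ) (W : ℕ) (hW : 16 * (p * q + 1) ≤ W) :
    StrOK l (p * q) (str l a2 k0 k1 q E ((List.range p).map g) % 2 ^ W)
      (fun i => ((xw (g i) (E >>> (24 * i)) : ℕ) : ZMod l))
      (fun i => ((yw (g i) (E >>> (24 * i)) : ℕ) : ZMod l)) k0 k1 a2 := by
  have : NeZero l := ⟨hl.ne'⟩
  set a0 : ℕ := (k0 * xw (g 0) E + k1 * yw (g 0) E) % l with ha0
  have hs : str l a2 k0 k1 q E ((List.range p).map g) =
      mainQ l a2 a0 ((List.range p).map g) q E a0 := by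
    unfold str
    rw [strict_eq]
    have hh : hd ((List.range p).map g) = g 0 := by
      obtain ⟨p', rfl⟩ : ∃ p', p = p' + 1 := ⟨p - 1, by omega⟩
      rw [List.range_succ_eq_map, List.map_cons]
      rfl
    rw [hh]
    rfl
  obtain ⟨i1, i2⟩ := mainQ_spec hl hl2 a2 a0 g p hp hg q E a0
  have ea0 : ((a0 : ℕ) : ZMod l) = (k0 : ZMod l) * ((xw (g 0) E : ℕ) : ZMod l) +
      (k1 : ZMod l) * ((yw (g 0) E : ℕ) : ZMod l) := by
    rw [ha0, ZMod.natCast_mod]; push_cast; ring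
  have hlow : ∀ i ≤ p * q, ((str l a2 k0 k1 q E ((List.range p).map g) % 2 ^ W) >>> (16 * i)) %
      2 ^ 16 = (mainQ l a2 a0 ((List.range p).map g) q E a0 >>> (16 * i)) % 2 ^ 16 := by
    intro i hi
    rw [hs]
    exact shr_mod _ _ _ _ (by omega)
  have e0 : ∀ i < p * q, (Dg l (g i) (E >>> (24 * i)) (ac l a2 g E a0 i)) % 256 =
      (ac l a2 g E a0 i + 6 * xw (g i) (E >>> (24 * i))) % l ∧
      (Dg l (g i) (E >>> (24 * i)) (ac l a2 g E a0 i)) >>> 8 = yw (g i) (E >>> (24 * i)) % l := by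
    intro i _
    exact split8 (lt_of_lt_of_le (Nat.mod_lt _ hl) hl2)
  have hc : (mainQ l a2 a0 ((List.range p).map g) q E a0 >>> (16 * (p * q))) % 2 ^ 16 =
      (ac l a2 g E a0 (p * q) + (l - a0)) % l := by
    rw [i2]
    apply Nat.mod_eq_of_lt
    have := Nat.mod_lt (ac l a2 g E a0 (p * q) + (l - a0)) hl
    have e : (2 : ℕ) ^ 16 = 65536 := by norm_num
    omega
  refine ⟨?_, ?_, ?_, ?_⟩
  · intro i hi
    rw [hlow i hi.le, i1 i hi, (e0 i hi).1, ZMod.natCast_mod]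
    push_cast
    rw [ac_cast, ea0]
    simp only [mul_zero, Nat.shiftRight_zero]
  · intro i hi
    rw [hlow i hi.le, i1 i hi, (e0 i hi).2, ZMod.natCast_mod]
  · rw [hlow _ le_rfl, hc, ZMod.natCast_mod]
    have ha : a0 ≤ l := (Nat.mod_lt _ hl).le
    rw [Nat.cast_add, Nat.cast_sub ha, ZMod.natCast_self, ac_cast]
    ring
  · rw [hlow _ le_rfl, hc]
    exact Nat.mod_lt _ hl

end Pool.Agent.LibH4.CW
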