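import Pool.Agent.Lib_helper4.CW.Str

/-!
Constant words: the tables of the relations.
-/

namespace Pool.Agent.LibH4.CW

open Finset Pool.Agent.LibH4.Ker Pool.Agent.Lib_helper5.TB

lemma StrOK.congr {l L s : ℕ} {X Y X' Y' : ℕ → ZMod l} {k0 k1 a2 : ZMod l}
    (h : StrOK l L s X Y k0 k1 a2) (hL : 0 < L) (hX : ∀ i < L, X i = X' i)
    (hY : ∀ i < L, Y i = Y' i) : StrOK l L s X' Y' k0 k1 a2 where
  tT i hi := by
    rw [h.tT i hi, hX 0 hL, hY 0 hL, hX i hi]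
    congr 2
    apply Finset.sum_congr rfl
    intro j hj
    have := Finset.mem_range.1 hj
    rw [hX j (by omega), hY j (by omega)]
  tY i hi := by rw [h.tY i hi, hY i hi]
  c := by
    rw [h.c]
    apply Finset.sum_congr rfl
    intro j hj
    have := Finset.mem_range.1 hj
    rw [hX j (by omega), hY j (by omega)]
  lt := h.lt

/-- position of a state of an orbit -/
def pp (c : Cmp) (a : ℕ) (x : ℕ × ℕ) (i : ℕ) : ℕ :=
  pos c.n c.ex c.PT (hs c.n a x i).1 (hs c.n a x i).2.1 ((c.n - (hs c.n a x i).2.2) % c.n)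

/-- weight of a joint orbit -/
def wh (l t1 t2 t3 : ℕ) (c1 c2 c3 : Cmp) (a : ℕ) (x1 x2 x3 : ℕ × ℕ) (i : ℕ) : ℕ :=
  dig t1 (hs c1.n a x1 i).1 * (dig t2 (hs c2.n a x2 i).1 * dig t3 (hs c3.n a x3 i).1 % l)

/-- value of the first sum along a joint orbit -/
def Xh (r : RD) (c1 c2 c3 : Cmp) (a : ℕ) (x1 x2 x3 : ℕ × ℕ) (i : ℕ) : ℕ :=
  wh r.l r.t1 r.t2 r.t3 c1 c2 c3 a x1 x2 x3 i *
    tX r.rows r.len3 (pp c1 a x1 i) (pp c2 a x2 i) (pp c3 a x3 i)

/-- value of the second sum along a joint orbit -/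
def Yh (r : RD) (c1 c2 c3 : Cmp) (a : ℕ) (x1 x2 x3 : ℕ × ℕ) (i : ℕ) : ℕ :=
  wh r.l r.t1 r.t2 r.t3 c1 c2 c3 a x1 x2 x3 i *
    tY r.rows r.len3 (pp c1 a x1 i) (pp c2 a x2 i) (pp c3 a x3 i)

lemma row_get (w : ℕ) (rows : List (ℕ × ℕ)) (f : ℕ × ℕ → ℕ) (p k : ℕ) (hp : p < rows.length)
    (hk : 8 * k + 8 ≤ w) :
    (((cat (2 ^ w) f rows >>> (w * p)) % 2 ^ w) >>> (8 * k)) % 256 =
      dig (f (rows.getD p (0, 0))) k := by
  have e : rows[p]? = some (rows.getD p (0, 0)) := by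
    rw [List.getD_eq_getElem?_getD, List.getElem?_eq_getElem hp]; rfl
  rw [cat_spec w f rows p _ e, show (256 : ℕ) = 2 ^ 8 by norm_num, shr_mod _ _ _ _ hk]
  rfl

lemma split24 {o c : ℕ} (ho : o < 65536) (hc : c < 256) :
    (o + 65536 * c) % 2 ^ 24 = o + 65536 * c ∧ (o + 65536 * c) % 65536 = o ∧
      (o + 65536 * c) >>> 16 = c := by
  rw [Nat.shiftRight_eq_div_pow]
  have e : (2 : ℕ) ^ 24 = 16777216 := by norm_num
  rw [e]
  refine ⟨?_, ?_, ?_⟩ <;> omega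

section

variable {par : Bool} {a : ℕ} {c1 c2 c3 : Cmp} {d1 d2 d3 : CC}

/-- **the table of a relation** -/
theorem tabR_spec (r : RD) (h1 : CCOK par a c1 d1) (h2 : CCOK par a c2 d2) (h3 : CCOK par a c3 d3)
    (b1 : CmpB c1) (b2 : CmpB c2) (b3 : CmpB c3) (hl : 0 < r.l) (hl2 : r.l ≤ 256)
    (hlen : 8 * (r.len2 * r.len3) ≤ 65536) (a2 k0 k1 : ℕ)
    {o1 o2 o3 : ℕ} {x1 x2 x3 : ℕ × ℕ}
    (g1 : (c1.F.filter (stc par c1.n a))[o1]? = some x1)
    (g2 : (c2.F.filter (stc par c2.n a))[o2]? = some x2)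
    (g3 : (c3.F.filter (stc par c3.n a))[o3]? = some x3)
    (p1 : ∀ i, pp c1 a x1 i < r.rows.length) (p2 : ∀ i, pp c2 a x2 i < r.len2)
    (p3 : ∀ i, pp c3 a x3 i < r.len3) (L : ℕ) (hL : 0 < L) (hL1 : d1.pi ∣ L) :
    StrOK r.l L ((tabR r a2 k0 k1 L d1 d2 d3 >>>
        (16 * (L + 1) * ((o2 * d3.cnt + o3) * d1.cnt + o1))) % 2 ^ (16 * (L + 1)))
      (fun i => ((Xh r c1 c2 c3 a x1 x2 x3 i : ℕ) : ZMod r.l))
      (fun i => ((Yh r c1 c2 c3 a x1 x2 x3 i : ℕ) : ZMod r.l)) k0 k1 a2 := by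
  have ho1 : o1 < d1.cnt := by
    rw [h1.cnt]; exact (List.getElem?_eq_some_iff.1 g1).1
  have ho2 : o2 < d2.cnt := by
    rw [h2.cnt]; exact (List.getElem?_eq_some_iff.1 g2).1
  have ho3 : o3 < d3.cnt := by
    rw [h3.cnt]; exact (List.getElem?_eq_some_iff.1 g3).1
  have hx1 := b1.F x1 (List.mem_filter.1 (List.mem_of_getElem? g1)).1
  have hx2 := b2.F x2 (List.mem_filter.1 (List.mem_of_getElem? g2)).1
  have hx3 := b3.F x3 (List.mem_filter.1 (List.mem_of_getElem? g3)).1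
  have m1 : c1.n ≤ 256 := by have := b1.le; omega
  have m2 : c2.n ≤ 256 := by have := b2.le; omega
  have m3 : c3.n ≤ 256 := by have := b3.le; omega
  set W := 16 * (L + 1) with hW
  -- unfold the table
  have e0 : tabR r a2 k0 k1 L d1 d2 d3 = tab3 r.l a2 k0 k1 r.len3 r.t1 r.t2 r.t3 (L / d1.pi)
      (cat (2 ^ (8 * (r.len2 * r.len3))) (fun x => x.1) r.rows)
      (cat (2 ^ (8 * (r.len2 * r.len3))) (fun x => x.2) r.rows) (8 * (r.len2 * r.len3))
      (2 ^ (8 * (r.len2 * r.len3))) L (((2 ^ W) ^ d1.cnt) ^ d3.cnt) ((2 ^ W) ^ d1.cnt) (2 ^ W)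
      d1 d2 d3 := by
    unfold tabR
    simp only [strict_eq]
    rfl
  have eV2 : ((2 : ℕ) ^ W) ^ d1.cnt = 2 ^ (W * d1.cnt) := (pow_mul 2 W d1.cnt).symm
  have eV1 : (((2 : ℕ) ^ W) ^ d1.cnt) ^ d3.cnt = 2 ^ (W * d1.cnt * d3.cnt) := by
    rw [eV2]; exact (pow_mul 2 (W * d1.cnt) d3.cnt).symm
  set w := 8 * (r.len2 * r.len3) with hw
  set E := e23 r.l r.len3 r.t2 r.t3 d2.tab (d2.pi * o2) d2.pi d3.tab (d3.pi * o3) d3.pi (rng L)
    with hE'
  set RX := cat (2 ^ w) (fun x : ℕ × ℕ => x.1) r.rows with hRX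
  set RY := cat (2 ^ w) (fun x : ℕ × ℕ => x.2) r.rows with hRY
  set g : ℕ → (ℕ × ℕ) × ℕ := fun i => rlD RX RY w (2 ^ w) r.t1 (hE c1.n c1.ex c1.PT a x1 i) with hg
  have k1lt : W * o1 + W ≤ W * d1.cnt := by
    calc W * o1 + W = W * (o1 + 1) := by ring
      _ ≤ W * d1.cnt := Nat.mul_le_mul_left _ ho1
  have k3lt : W * d1.cnt * o3 + W * o1 + W ≤ W * d1.cnt * d3.cnt := by
    calc W * d1.cnt * o3 + W * o1 + W ≤ W * d1.cnt * o3 + W * d1.cnt := by omega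
      _ = W * d1.cnt * (o3 + 1) := by ring
      _ ≤ W * d1.cnt * d3.cnt := Nat.mul_le_mul_left _ ho3
  have hs1 : (tabR r a2 k0 k1 L d1 d2 d3 >>> (W * ((o2 * d3.cnt + o3) * d1.cnt + o1))) % 2 ^ W =
      str r.l a2 k0 k1 (L / d1.pi) E ((List.range d1.pi).map g) % 2 ^ W := by
    rw [e0]
    unfold tab3
    rw [eV1, eV2, show W * ((o2 * d3.cnt + o3) * d1.cnt + o1) =
      W * d1.cnt * d3.cnt * o2 + (W * d1.cnt * o3 + W * o1) by ring]
    rw [cat_part (W * d1.cnt * d3.cnt) (W * d1.cnt * o3 + W * o1) W (by omega) _ _ o2 o2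
      (by rw [rng_eq]; exact range_get ho2)]
    rw [cat_part (W * d1.cnt) (W * o1) W k1lt _ _ o3 o3 (by rw [rng_eq]; exact range_get ho3)]
    rw [strict_eq]
    unfold tab1
    rw [cat_spec W _ _ o1 ((List.range d1.pi).map g)]
    · rfl
    · simp only [mapL_eq, rng_eq]
      rw [List.getElem?_map, range_get ho1, Option.map_some]
      congr 1
      apply List.map_congr_left
      intro i hi
      have hi' := List.mem_range.1 hi
      rw [hg]
      change rlD _ _ _ _ _ (d32 d1.tab (d1.pi * o1 + i)) = _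
      rw [d32_eq, h1.tab o1 x1 i g1 hi']
  rw [hs1]
  -- the string
  obtain ⟨q, hq⟩ := hL1
  have hpi := h1.pi
  have hq0 : 0 < q := by
    rcases Nat.eq_zero_or_pos q with h0 | h0
    · rw [h0, mul_zero] at hq; omega
    · exact h0
  have hdiv : L / d1.pi = q := by rw [hq]; exact Nat.mul_div_cancel_left q hpi
  have hgper : ∀ i, g (i % d1.pi) = g i := by
    intro i
    simp only [hg]
    rw [hE_mod (h1.per o1 x1 g1)]
  have main := str_spec (l := r.l) hl hl2 a2 k0 k1 g d1.pi hpi hgper q hq0 E W (by rw [hW, hq])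
  rw [← hdiv, show d1.pi * (L / d1.pi) = L by rw [hdiv, ← hq]] at main
  -- the entries
  have key : ∀ i < L, xw (g i) (E >>> (24 * i)) = Xh r c1 c2 c3 a x1 x2 x3 i ∧
      yw (g i) (E >>> (24 * i)) = Yh r c1 c2 c3 a x1 x2 x3 i := by
    intro i hi
    -- digits of the second and third component
    have q2 : d32 d2.tab (d2.pi * o2 + i % d2.pi) = hE c2.n c2.ex c2.PT a x2 i := by
      rw [d32_eq, h2.tab o2 x2 _ g2 (Nat.mod_lt _ h2.pi), hE_mod (h2.per o2 x2 g2)]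
    have q3 : d32 d3.tab (d3.pi * o3 + i % d3.pi) = hE c3.n c3.ex c3.PT a x3 i := by
      rw [d32_eq, h3.tab o3 x3 _ g3 (Nat.mod_lt _ h3.pi), hE_mod (h3.per o3 x3 g3)]
    have eE : (E >>> (24 * i)) % 16777216 = e23a r.l r.len3 r.t2 r.t3
        (hE c2.n c2.ex c2.PT a x2 i) (hE c3.n c3.ex c3.PT a x3 i) % 2 ^ 24 := by
      have h24 : E = cat (2 ^ 24) (e23d r.l r.len3 r.t2 r.t3 d2.tab (d2.pi * o2) d2.pi d3.tab
        (d3.pi * o3) d3.pi) (rng L) := rfl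
      change (E >>> (24 * i)) % 2 ^ 24 = _
      rw [h24, cat_spec 24 _ _ i i (by rw [rng_eq]; exact range_get hi)]
      congr 1
      change e23a r.l r.len3 r.t2 r.t3 (d32 d2.tab (d2.pi * o2 + i % d2.pi))
        (d32 d3.tab (d3.pi * o3 + i % d3.pi)) = _
      rw [q2, q3]
    have B2 := Bd_hs (a := a) b2.pos hx2.1 i
    have B3 := Bd_hs (a := a) b3.pos hx3.1 i
    have B1 := Bd_hs (a := a) b1.pos hx1.1 i
    have ee : e23a r.l r.len3 r.t2 r.t3 (hE c2.n c2.ex c2.PT a x2 i)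
        (hE c3.n c3.ex c3.PT a x3 i) = 8 * (pp c2 a x2 i * r.len3 + pp c3 a x3 i) +
        65536 * (dig r.t2 (hs c2.n a x2 i).1 * dig r.t3 (hs c3.n a x3 i).1 % r.l) := by
      change 8 * (hE c2.n c2.ex c2.PT a x2 i % 256 * r.len3 + hE c3.n c3.ex c3.PT a x3 i % 256) +
        65536 * (dig r.t2 (by1 (hE c2.n c2.ex c2.PT a x2 i)) *
          dig r.t3 (by1 (hE c3.n c3.ex c3.PT a x3 i)) % r.l) = _
      unfold hE
      rw [ent_by1 b2.pos m2 B2.1, ent_by1 b3.pos m3 B3.1, ent_pos b2.pos m2 B2.1,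
        ent_pos b3.pos m3 B3.1]
      rfl
    have hoff : pp c2 a x2 i * r.len3 + pp c3 a x3 i + 1 ≤ r.len2 * r.len3 := by
      have := p2 i
      have := p3 i
      calc pp c2 a x2 i * r.len3 + pp c3 a x3 i + 1 ≤ pp c2 a x2 i * r.len3 + r.len3 := by omega
        _ = (pp c2 a x2 i + 1) * r.len3 := by ring
        _ ≤ r.len2 * r.len3 := Nat.mul_le_mul_right _ (p2 i)
    obtain ⟨s1, s2, s3⟩ := split24 (o := 8 * (pp c2 a x2 i * r.len3 + pp c3 a x3 i))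
      (c := dig r.t2 (hs c2.n a x2 i).1 * dig r.t3 (hs c3.n a x3 i).1 % r.l) (by omega)
      (lt_of_lt_of_le (Nat.mod_lt _ hl) hl2)
    rw [ee, s1] at eE
    have gx : (g i).2 = dig r.t1 (hs c1.n a x1 i).1 := by
      change dig r.t1 (by1 (hE c1.n c1.ex c1.PT a x1 i)) = _
      unfold hE
      rw [ent_by1 b1.pos m1 B1.1]
    have gpos : hE c1.n c1.ex c1.PT a x1 i % 256 = pp c1 a x1 i := by
      unfold hE
      rw [ent_pos b1.pos m1 B1.1]
      rfl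
    have r1 : (g i).1.1 = (RX >>> (w * pp c1 a x1 i)) % 2 ^ w := by
      change (RX >>> (w * (hE c1.n c1.ex c1.PT a x1 i % 256))) % 2 ^ w = _
      rw [gpos]
    have r2 : (g i).1.2 = (RY >>> (w * pp c1 a x1 i)) % 2 ^ w := by
      change (RY >>> (w * (hE c1.n c1.ex c1.PT a x1 i % 256))) % 2 ^ w = _
      rw [gpos]
    unfold xw yw
    rw [eE, s2, s3, gx, r1, r2, row_get w r.rows _ _ _ (p1 i) (by omega),
      row_get w r.rows _ _ _ (p1 i) (by omega)]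
    exact ⟨rfl, rfl⟩
  exact main.congr hL (fun i hi => by rw [(key i hi).1]) (fun i hi => by rw [(key i hi).2])

end

end Pool.Agent.LibH4.CW
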