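import Pool.Agent.Lib_helper4.LO.Fold
import Pool.Agent.Lib_helper4.LO.Small
import Pool.Agent.Lib_helper4.CW.Flds

/-!
Constant words: the words of the fields of the list.
-/

namespace Pool.Agent.LibH4.CW

open Function Pool.Agent.Lib_helper5 Pool.Agent.LibH4 Pool.Agent.LibH4.CFO Pool.Agent.LibH4.LO

/-- the check of the states -/
def wk (a D m B : ℤ) : ℕ → ℤ × ℤ × ℤ → Bool
  | 0, f => decide (f = (m, B, 1))
  | k + 1, f => decide (f.2.2 ≠ 1) && (decide ((2 * a * f.2.2 - f.2.1) ^ 2 ≤ D) &&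
      (decide (0 < 2 * (a + 1) * f.2.2 - f.2.1) &&
      (decide (D < (2 * (a + 1) * f.2.2 - f.2.1) ^ 2) && wk a D m B k (st a f))))

variable {m B : ℤ} {s : ℝ} {x : ℕ → ℝ} {c : ℕ → ℕ}

lemma wk_spec (h : Data m B s x c) {a : ℕ} (k i : ℕ)
    (hw : wk a (B ^ 2 + 4 * m) m B k (qst m B c i) = true) :
    (∀ j, i ≤ j → j < i + k → c j = a ∧ QS m B c j ≠ 1) ∧ qst m B c (i + k) = (m, B, 1) := by
  induction k generalizing i with
  | zero =>
    unfold wk at hw
    rw [decide_eq_true_eq] at hw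
    exact ⟨fun j h1 h2 => by omega, hw⟩
  | succ k ih =>
    unfold wk at hw
    simp only [Bool.and_eq_true, decide_eq_true_eq] at hw
    obtain ⟨w1, w2, w3, w4, w5⟩ := hw
    have inv := inv_of h i
    have hs0 : 0 < s := by
      have h1 := h.x0pos
      rw [h.x0] at h1
      linarith [h.Bs]
    have hS : (0 : ℝ) < QS m B c i := by exact_mod_cast inv.Spos
    have hca : c i = a := by
      have e : (c i : ℤ) = a := by
        rw [h.fl i, Int.floor_eq_iff, inv.xe]
        constructor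
        · rw [le_div_iff₀ (by positivity)]
          have h1 : ((2 * (a : ℤ) * QS m B c i - QR m B c i : ℤ) : ℝ) ^ 2 ≤ s ^ 2 := by
            rw [h.sq]
            exact_mod_cast w2
          have h3 := le_of_abs_le (abs_le_of_sq_le_sq h1 hs0.le)
          push_cast at h3 ⊢
          linarith
        · rw [div_lt_iff₀ (by positivity)]
          have h1 : s ^ 2 < ((2 * ((a : ℤ) + 1) * QS m B c i - QR m B c i : ℤ) : ℝ) ^ 2 := by
            rw [h.sq]
            exact_mod_cast w4
          have h0 : (0 : ℝ) < ((2 * ((a : ℤ) + 1) * QS m B c i - QR m B c i : ℤ) : ℝ) := by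
            exact_mod_cast w3
          have h2 := lt_of_pow_lt_pow_left₀ 2 h0.le h1
          push_cast at h2 ⊢
          linarith
      exact_mod_cast e
    have hst : st (a : ℤ) (qst m B c i) = qst m B c (i + 1) := by
      rw [qst_succ, hca]
    rw [hst] at w5
    obtain ⟨i1, i2⟩ := ih (i + 1) w5
    refine ⟨fun j h1 h2 => ?_, by rw [← i2]; congr 1; ring⟩
    rcases Nat.eq_or_lt_of_le h1 with rfl | h1
    · exact ⟨hca, w1⟩
    · exact i1 j h1 (by omega)

/-- the check of a field -/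
def wck (d a L B m : ℕ) : Bool :=
  ((decide (d % 4 = 1) && (decide (B % 2 = 1) && decide (d = B ^ 2 + 4 * m))) ||
    (decide (d % 4 ≠ 1) && (decide (B % 2 = 0) && decide (4 * d = B ^ 2 + 4 * m)))) &&
  (decide (B ^ 2 + 4 * m < (B + 2) ^ 2) && (decide (2 ≤ L) && (decide (0 < m) &&
    wk a (((B ^ 2 + 4 * m : ℕ) : ℤ)) m B (L - 1) (1, B, m))))

/-- **the word of a field** -/
theorem wck_spec {d a L B0 m0 : ℕ} (h1 : 1 < d) (hsq : Squarefree d)
    (hw : wck d a L B0 m0 = true) :
    minimalPeriod gsh (gsh (omg d)) = L ∧ ∀ i, 1 ≤ i → i < L → ⌊gsh^[i] (omg d)⌋ = (a : ℤ) := by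
  unfold wck at hw
  rw [Bool.and_eq_true] at hw
  obtain ⟨w0, hw⟩ := hw
  simp only [Bool.and_eq_true, decide_eq_true_eq] at hw
  obtain ⟨w1, w2, w3, w4⟩ := hw
  have w0' : (d % 4 = 1 ∧ B0 % 2 = 1 ∧ d = B0 ^ 2 + 4 * m0) ∨
      (d % 4 ≠ 1 ∧ B0 % 2 = 0 ∧ 4 * d = B0 ^ 2 + 4 * m0) := by
    rw [Bool.or_eq_true] at w0
    simpa only [Bool.and_eq_true, decide_eq_true_eq] using w0
  obtain ⟨m, B, s, x, c, h, hx1, hm, hB, hd⟩ := exists_data d h1 hsq
  -- the same discriminant
  have hDD : B ^ 2 + 4 * m = ((B0 ^ 2 + 4 * m0 : ℕ) : ℤ) ∧ B % 2 = (B0 : ℤ) % 2 := by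
    rcases w0' with ⟨a1, a2, a3⟩ | ⟨a1, a2, a3⟩
    · rcases hd with ⟨b1, b2, b3⟩ | ⟨b1, b2, b3⟩
      · exact ⟨by rw [← b2, a3], by omega⟩
      · exact absurd a1 b1
    · rcases hd with ⟨b1, b2, b3⟩ | ⟨b1, b2, b3⟩
      · exact absurd b1 a1
      · exact ⟨by rw [← b2, ← a3]; push_cast; ring, by omega⟩
  obtain ⟨hD, hpar⟩ := hDD
  have hs0 : 0 < s := by
    have h1 := h.x0pos
    rw [h.x0] at h1
    linarith [h.Bs]
  have hsB : B ^ 2 + 4 * m < (B + 2) ^ 2 := by
    have h2 : s ^ 2 < (B + 2) ^ 2 := pow_lt_pow_left₀ h.sB hs0.le (by norm_num)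
    rw [h.sq] at h2
    exact_mod_cast h2
  have hBB : B = B0 := by
    have c1 : B ^ 2 < ((B0 : ℤ) + 2) ^ 2 := by
      have : ((B0 ^ 2 + 4 * m0 : ℕ) : ℤ) < (((B0 + 2) ^ 2 : ℕ) : ℤ) := by exact_mod_cast w1
      push_cast at this hD
      linarith
    have c2 : (B0 : ℤ) ^ 2 < (B + 2) ^ 2 := by
      push_cast at hD
      have : (0 : ℤ) < m0 := by exact_mod_cast w3
      linarith
    have c3 : B < B0 + 2 := lt_of_pow_lt_pow_left₀ 2 (by positivity) c1
    have c4 : (B0 : ℤ) < B + 2 := lt_of_pow_lt_pow_left₀ 2 (by omega) c2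
    omega
  have hmm : m = m0 := by
    rw [hBB] at hD
    push_cast at hD
    linarith
  subst hBB hmm
  have e1 : qst (m0 : ℤ) (B0 : ℤ) c 1 = (1, (B0 : ℤ), (m0 : ℤ)) := by
    rw [qst_eta, QR_one h, QS_one h]; rfl
  rw [← e1] at w4
  obtain ⟨k1, k2⟩ := wk_spec h (L - 1) 1 (by push_cast at w4; exact w4)
  rw [show 1 + (L - 1) = L by omega] at k1 k2
  have hxL : x L = x 0 := by
    apply x_eq_of_state h
    · change (qst _ _ c L).2.1 = _
      rw [k2]
      rfl
    · change (qst _ _ c L).2.2 = _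
      rw [k2]
      rfl
  have hper : gsh^[L] (x 1) = x 1 := by
    rw [iter h, add_comm, h.step, hxL, ← h.step]
  have hmin : minimalPeriod gsh (x 1) = L := by
    have hdvd : minimalPeriod gsh (x 1) ∣ L := IsPeriodicPt.minimalPeriod_dvd hper
    have hpos : 0 < minimalPeriod gsh (x 1) := Nat.pos_of_dvd_of_pos hdvd (by omega)
    have hle := Nat.le_of_dvd (by omega) hdvd
    by_contra hne
    set M := minimalPeriod gsh (x 1) with hM
    have hx : x (1 + M) = x 1 := by
      rw [← iter h]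
      exact isPeriodicPt_minimalPeriod gsh (x 1)
    have := (state_eq h hx).1
    rw [add_comm, QP_succ, show (1 : ℕ) = 0 + 1 by rfl, QP_succ] at this
    exact (k1 M (by omega) (by omega)).2 this
  refine ⟨by rw [← hx1]; exact hmin, fun i hi1 hi2 => ?_⟩
  obtain ⟨j, rfl⟩ : ∃ j, i = j + 1 := ⟨i - 1, by omega⟩
  have e2 : x (j + 1) = gsh^[j + 1] (omg d) := by
    rw [add_comm j 1, ← iter h, hx1, ← iterate_succ_apply, Nat.succ_eq_add_one, add_comm j 1]
  rw [← e2, ← h.fl]
  exact_mod_cast (k1 (j + 1) hi1 (by omega)).1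

/-- **the words of the fields** -/
theorem words {d : ℕ} (h : d ∈ dL) (hsq : Squarefree d) : ∃ a L : ℕ, a ≤ 100 ∧ 2 ≤ L ∧
    minimalPeriod gsh (gsh (omg d)) = L ∧ ∀ i, 1 ≤ i → i < L → ⌊gsh^[i] (omg d)⌋ = (a : ℤ) := by
  have key : ∀ {d a L B0 m0 : ℕ}, 1 < d → Squarefree d → a ≤ 100 → 2 ≤ L →
      wck d a L B0 m0 = true → ∃ a L : ℕ, a ≤ 100 ∧ 2 ≤ L ∧
      minimalPeriod gsh (gsh (omg d)) = L ∧ ∀ i, 1 ≤ i → i < L → ⌊gsh^[i] (omg d)⌋ = (a : ℤ) := by
    intro d a L B0 m0 h1 hsq h2 h3 hw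
    obtain ⟨k1, k2⟩ := wck_spec h1 hsq hw
    exact ⟨a, L, h2, h3, k1, k2⟩
  unfold dL at h
  simp only [List.mem_cons, List.not_mem_nil, or_false] at h
  rcases h with rfl | rfl | rfl | rfl | rfl | rfl | rfl | rfl | rfl | rfl | rfl | rfl | rfl | rfl | rfl | rfl | rfl | rfl | rfl | rfl | rfl | rfl | rfl | rfl | rfl | rfl | rfl | rfl | rfl | rfl | rfl
  · exact key (a := 1) (L := 2) (B0 := 2) (m0 := 2) (by norm_num) hsq (by norm_num)
      (by norm_num) (by decide +kernel)
  · exact key (a := 2) (L := 2) (B0 := 4) (m0 := 2) (by norm_num) hsq (by norm_num)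
      (by norm_num) (by decide +kernel)
  · exact key (a := 1) (L := 4) (B0 := 4) (m0 := 3) (by norm_num) hsq (by norm_num)
      (by norm_num) (by decide +kernel)
  · exact key (a := 3) (L := 2) (B0 := 6) (m0 := 2) (by norm_num) hsq (by norm_num)
      (by norm_num) (by decide +kernel)
  · exact key (a := 1) (L := 3) (B0 := 3) (m0 := 2) (by norm_num) hsq (by norm_num)
      (by norm_num) (by decide +kernel)
  · exact key (a := 1) (L := 2) (B0 := 3) (m0 := 3) (by norm_num) hsq (by norm_num)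
      (by norm_num) (by decide +kernel)
  · exact key (a := 1) (L := 3) (B0 := 5) (m0 := 3) (by norm_num) hsq (by norm_num)
      (by norm_num) (by decide +kernel)
  · exact key (a := 6) (L := 2) (B0 := 12) (m0 := 2) (by norm_num) hsq (by norm_num)
      (by norm_num) (by decide +kernel)
  · exact key (a := 2) (L := 3) (B0 := 7) (m0 := 3) (by norm_num) hsq (by norm_num)
      (by norm_num) (by decide +kernel)
  · exact key (a := 1) (L := 4) (B0 := 7) (m0 := 5) (by norm_num) hsq (by norm_num)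
      (by norm_num) (by decide +kernel)
  · exact key (a := 1) (L := 2) (B0 := 7) (m0 := 7) (by norm_num) hsq (by norm_num)
      (by norm_num) (by decide +kernel)
  · exact key (a := 9) (L := 2) (B0 := 18) (m0 := 2) (by norm_num) hsq (by norm_num)
      (by norm_num) (by decide +kernel)
  · exact key (a := 3) (L := 2) (B0 := 9) (m0 := 3) (by norm_num) hsq (by norm_num)
      (by norm_num) (by decide +kernel)
  · exact key (a := 1) (L := 3) (B0 := 9) (m0 := 5) (by norm_num) hsq (by norm_num)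
      (by norm_num) (by decide +kernel)
  · exact key (a := 1) (L := 5) (B0 := 11) (m0 := 7) (by norm_num) hsq (by norm_num)
      (by norm_num) (by decide +kernel)
  · exact key (a := 1) (L := 3) (B0 := 13) (m0 := 7) (by norm_num) hsq (by norm_num)
      (by norm_num) (by decide +kernel)
  · exact key (a := 15) (L := 2) (B0 := 30) (m0 := 2) (by norm_num) hsq (by norm_num)
      (by norm_num) (by decide +kernel)
  · exact key (a := 5) (L := 2) (B0 := 15) (m0 := 3) (by norm_num) hsq (by norm_num)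
      (by norm_num) (by decide +kernel)
  · exact key (a := 2) (L := 3) (B0 := 17) (m0 := 7) (by norm_num) hsq (by norm_num)
      (by norm_num) (by decide +kernel)
  · exact key (a := 1) (L := 4) (B0 := 19) (m0 := 13) (by norm_num) hsq (by norm_num)
      (by norm_num) (by decide +kernel)
  · exact key (a := 1) (L := 2) (B0 := 19) (m0 := 19) (by norm_num) hsq (by norm_num)
      (by norm_num) (by decide +kernel)
  · exact key (a := 7) (L := 2) (B0 := 21) (m0 := 3) (by norm_num) hsq (by norm_num)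
      (by norm_num) (by decide +kernel)
  · exact key (a := 4) (L := 3) (B0 := 21) (m0 := 5) (by norm_num) hsq (by norm_num)
      (by norm_num) (by decide +kernel)
  · exact key (a := 3) (L := 3) (B0 := 23) (m0 := 7) (by norm_num) hsq (by norm_num)
      (by norm_num) (by decide +kernel)
  · exact key (a := 1) (L := 3) (B0 := 25) (m0 := 13) (by norm_num) hsq (by norm_num)
      (by norm_num) (by decide +kernel)
  · exact key (a := 2) (L := 3) (B0 := 27) (m0 := 11) (by norm_num) hsq (by norm_num)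
      (by norm_num) (by decide +kernel)
  · exact key (a := 1) (L := 7) (B0 := 27) (m0 := 17) (by norm_num) hsq (by norm_num)
      (by norm_num) (by decide +kernel)
  · exact key (a := 2) (L := 5) (B0 := 31) (m0 := 13) (by norm_num) hsq (by norm_num)
      (by norm_num) (by decide +kernel)
  · exact key (a := 3) (L := 2) (B0 := 33) (m0 := 11) (by norm_num) hsq (by norm_num)
      (by norm_num) (by decide +kernel)
  · exact key (a := 5) (L := 2) (B0 := 35) (m0 := 7) (by norm_num) hsq (by norm_num)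
      (by norm_num) (by decide +kernel)
  · exact key (a := 6) (L := 3) (B0 := 43) (m0 := 7) (by norm_num) hsq (by norm_num)
      (by norm_num) (by decide +kernel)

end Pool.Agent.LibH4.CW
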