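import Pool.Agent.Lib_helper4.CW.Cps
import Pool.Agent.Lib_helper4.CW.TabS
import Pool.Agent.Lib_helper4.CW.Dfs
import Pool.Agent.Lib_helper5.K4.Sys

/-!
Constant words: the conditions on the orbit, and the first states.
-/

namespace Pool.Agent.LibH4.CW

open Finset Pool.Agent.Lib_helper5 Pool.Agent.Lib_helper5.LK Pool.Agent.LibH4.Ker
  Pool.Agent.LibH4.KF Pool.Agent.LibH4.T6 Pool.Agent.Lib_helper5.TB Pool.Agent.LibH4.S7

/-- first multiplicity of the first state -/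
def kap (par : Bool) : ℕ := cond par 0 3
/-- second multiplicity of the first state -/
def alp (par : Bool) (a : ℕ) : ℤ := cond par (-(a : ℤ)) (-(2 * a : ℤ))

/-- the forms -/
def JW (par : Bool) (a : ℕ) (e : ℕ → ℤ × ℤ × ℤ) (N : ℕ) : List Fm :=
  ⟨(e 0).1, (e 0).2.1, -(e 0).2.2, kap par, alp par a⟩ ::
    (((List.range (N - 1)).map fun j =>
      ⟨(e (j + 1)).1, (e (j + 1)).2.1, -(e (j + 1)).2.2, 6, -(2 * a : ℤ)⟩) ++
      [⟨(e N).1, (e N).2.1, -(e N).2.2, 6, -(e N).2.1⟩])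

/-- the conditions on the orbit -/
structure World (par : Bool) (a : ℕ) (e : ℕ → ℤ × ℤ × ℤ) (N : ℕ) : Prop where
  N1 : 1 ≤ N
  step : ∀ i, e (i + 1) = LO.st a (e i)
  last : (e N).2.2 = 1
  fst0 : par = false → (e 0).2.2 = (e 0).1
  fst1 : par = true → (e 0).2.1 = a * (e 0).2.2
  dok : DOK (LO.dis (e 0))
  rel : ∀ (n1 n2 n3 M T1 T2 T3 : ℕ) [NeZero n1] [NeZero n2] [NeZero n3] [NeZero (n1 * n2)]
    [NeZero (n1 * n2 * n3)], relOk n1 n2 n3 M T1 T2 T3 = true → tabCk n1 M T1 = true →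
    tabCk n2 M T2 = true → tabCk n3 M T3 = true → M % 2 = 1 → (n1 * n2 * n3 * M) ∣ QQ ^ 6 →
    LK.Rel M (tri (tabc n1 M T1) (tabc n2 M T2) (tabc n3 M T3)) (JW par a e N)
  gen : par = true → (e 0).2.2 % 4 = 3

section

variable {par : Bool} {a N : ℕ} {e : ℕ → ℤ × ℤ × ℤ}

lemma World.dis (W : World par a e N) (i : ℕ) : LO.dis (e i) = LO.dis (e 0) := by
  induction i with
  | zero => rfl
  | succ i ih => rw [W.step, LO.dis_st, ih]

lemma World.disc (W : World par a e N) (i : ℕ) :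
    (e i).2.1 ^ 2 + 4 * (e i).1 * (e i).2.2 = LO.dis (e 0) := by
  rw [← W.dis i]; rfl

/-- the true first state -/
structure TS (par : Bool) (a : ℕ) (e : ℕ → ℤ × ℤ × ℤ) (c : Cmp) (x : ℕ × ℕ) : Prop where
  mem : x ∈ c.F.filter (stc par c.n a)
  h1 : ∀ i, (((e i).1 : ℤ) : ZMod c.n) = (((e 0).1 : ℤ) : ZMod c.n) * ((hs c.n a x i).1 : ℕ)
  h2 : ∀ i, (((e i).2.1 : ℤ) : ZMod c.n) = (((e 0).1 : ℤ) : ZMod c.n) * ((hs c.n a x i).2.1 : ℕ)
  h3 : ∀ i, (((e i).2.2 : ℤ) : ZMod c.n) = (((e 0).1 : ℤ) : ZMod c.n) * ((hs c.n a x i).2.2 : ℕ)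

lemma nx_cast {n : ℕ} (hn : 0 < n) (f : ℕ × ℕ × ℕ) (hf : Bd n f) :
    (((nx n a f).2.1 : ℕ) : ZMod n) = 2 * a * (f.2.2 : ℕ) - (f.2.1 : ℕ) ∧
    (((nx n a f).2.2 : ℕ) : ZMod n) = (f.1 : ℕ) + (f.2.1 : ℕ) * a - (f.2.2 : ℕ) * a ^ 2 := by
  have e1 : (nx n a f).2.1 = (2 * a * f.2.2 + (n - f.2.1)) % n := rfl
  have e2 : (nx n a f).2.2 = (f.1 + f.2.1 * a + (n - f.2.2) * (a * a)) % n := rfl
  rw [e1, e2, ZMod.natCast_mod, ZMod.natCast_mod]
  push_cast [Nat.cast_sub hf.2.1.le, Nat.cast_sub hf.2.2.le]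
  rw [ZMod.natCast_self]
  constructor <;> ring

/-- existence of the true first state -/
theorem World.exists_ts (W : World par a e N) {c : Cmp} (hc : CmpOK c) : ∃ x, TS par a e c x := by
  have hn := hc.pos
  have : NeZero c.n := ⟨hn.ne'⟩
  obtain ⟨u1, u2⟩ := hc.cp _ W.dok _ _ _ (W.disc 0)
  set P := (e 0).1 with hP
  set R := (e 0).2.1 with hR
  set S := (e 0).2.2 with hS
  set i0 := iv c.n c.ex (rs c.n P) with hi0
  set x : ℕ × ℕ := (rs c.n R * i0 % c.n, rs c.n (-S) * i0 % c.n) with hx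
  have hu : ((P : ℤ) : ZMod c.n) * (i0 : ℕ) = 1 := isUnit_of u1
  have hxF : x ∈ c.F := List.mem_of_getElem? u2
  have hb := hc.F x hxF
  have x1 : ((x.1 : ℕ) : ZMod c.n) = (R : ℤ) * (i0 : ℕ) := by
    change ((rs c.n R * i0 % c.n : ℕ) : ZMod c.n) = _
    rw [ZMod.natCast_mod]; push_cast; rw [rs_cast]
  have x2 : ((x.2 : ℕ) : ZMod c.n) = -((S : ℤ) * (i0 : ℕ)) := by
    change ((rs c.n (-S) * i0 % c.n : ℕ) : ZMod c.n) = _
    rw [ZMod.natCast_mod]; push_cast; rw [rs_cast]; push_cast; ring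
  clear_value x
  have inj : ∀ u v : ℕ, u < c.n → v < c.n → (u : ZMod c.n) = (v : ZMod c.n) → u = v := by
    intro u v hu hv huv
    have := (ZMod.natCast_eq_natCast_iff' u v c.n).1 huv
    rwa [Nat.mod_eq_of_lt hu, Nat.mod_eq_of_lt hv] at this
  refine ⟨x, ?_⟩
  have hmem : x ∈ c.F.filter (stc par c.n a) := by
    rw [List.mem_filter]
    refine ⟨hxF, ?_⟩
    cases hpar : par with
    | false =>
      change Nat.beq x.2 ((c.n - 1) % c.n) = true
      have h0 := W.fst0 hpar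
      have : x.2 = (c.n - 1) % c.n := by
        apply inj _ _ hb.2 (Nat.mod_lt _ hn)
        rw [x2, ZMod.natCast_mod, Nat.cast_sub hn, ZMod.natCast_self, hS, h0, ← hP, hu]
        push_cast
        ring
      rw [this]
      exact Nat.beq_refl _
    | true =>
      change Nat.beq x.1 (a * (c.n - x.2) % c.n) = true
      have h0 := W.fst1 hpar
      have : x.1 = a * (c.n - x.2) % c.n := by
        apply inj _ _ hb.1 (Nat.mod_lt _ hn)
        rw [x1, ZMod.natCast_mod, Nat.cast_mul, Nat.cast_sub hb.2.le, ZMod.natCast_self, x2, hR, h0]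
        push_cast
        ring
      rw [this]
      exact Nat.beq_refl _
  have all : ∀ i, (((e i).1 : ℤ) : ZMod c.n) = (P : ℤ) * ((hs c.n a x i).1 : ℕ) ∧
      (((e i).2.1 : ℤ) : ZMod c.n) = (P : ℤ) * ((hs c.n a x i).2.1 : ℕ) ∧
      (((e i).2.2 : ℤ) : ZMod c.n) = (P : ℤ) * ((hs c.n a x i).2.2 : ℕ) := by
    intro i
    induction i with
    | zero =>
      have e1 : (hs c.n a x 0).1 = 1 % c.n := rfl
      have e2 : (hs c.n a x 0).2.1 = x.1 := rfl
      have e3 : (hs c.n a x 0).2.2 = (c.n - x.2) % c.n := rfl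
      rw [e1, e2, e3, ZMod.natCast_mod, ZMod.natCast_mod, x1, Nat.cast_sub hb.2.le,
        ZMod.natCast_self, x2]
      refine ⟨?_, ?_, ?_⟩
      · push_cast; ring
      · change ((R : ℤ) : ZMod c.n) = _
        linear_combination (-((R : ℤ) : ZMod c.n)) * hu
      · change ((S : ℤ) : ZMod c.n) = _
        linear_combination (-((S : ℤ) : ZMod c.n)) * hu
    | succ i ih =>
      obtain ⟨i1, i2, i3⟩ := ih
      obtain ⟨j1, j2⟩ := nx_cast (a := a) hn (hs c.n a x i) (Bd_hs hn hb.1 i)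
      rw [W.step i, hs_succ, j1, j2]
      refine ⟨i3, ?_, ?_⟩
      · change ((2 * a * (e i).2.2 - (e i).2.1 : ℤ) : ZMod c.n) = _
        push_cast
        rw [i2, i3]
        ring
      · change (((e i).1 + (e i).2.1 * a - (e i).2.2 * a ^ 2 : ℤ) : ZMod c.n) = _
        push_cast
        rw [i1, i2, i3]
        ring
  exact ⟨hmem, fun i => (all i).1, fun i => (all i).2.1, fun i => (all i).2.2⟩

/-- properties of the orbit of the true first state -/
theorem TS.props (W : World par a e N) {c : Cmp} (hc : CmpOK c) {x : ℕ × ℕ}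
    (T : TS par a e c x) (i : ℕ) :
    pp c a x i < c.F.length ∧
    pp c a x i = pos c.n c.ex c.PT (rs c.n (e i).1) (rs c.n (e i).2.1) (rs c.n (-(e i).2.2)) := by
  have hn := hc.pos
  have : NeZero c.n := ⟨hn.ne'⟩
  obtain ⟨v1, v2⟩ := hc.cp _ W.dok _ _ _ (W.disc i)
  have hb := hc.F x (List.mem_filter.1 T.mem).1
  have hbd := Bd_hs (a := a) hn hb.1 i
  set P := (hs c.n a x i).1 with hP
  set R := (hs c.n a x i).2.1 with hR
  set S := (hs c.n a x i).2.2 with hS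
  have hu := isUnit_of v1
  set j := iv c.n c.ex (rs c.n (e i).1) with hj
  have t1 := T.h1 i
  have t2 := T.h2 i
  have t3 := T.h3 i
  rw [← hP] at t1
  rw [← hR] at t2
  rw [← hS] at t3
  set lam : ZMod c.n := (((e 0).1 : ℤ) : ZMod c.n) with hlam
  have hPu : ((P : ℕ) : ZMod c.n) * (lam * (j : ℕ)) = 1 := by
    rw [← hu, t1]; ring
  have hcop : Nat.Coprime P c.n := by
    rw [← ZMod.isUnit_iff_coprime]
    exact IsUnit.of_mul_eq_one _ hPu
  have hinv := hc.inv P hbd.1 hcop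
  have hinv' : ((P : ℕ) : ZMod c.n) * ((iv c.n c.ex P : ℕ) : ZMod c.n) = 1 := by
    have h1 := congrArg (fun x : ℕ => (x : ZMod c.n)) hinv
    simp only [ZMod.natCast_mod] at h1
    push_cast at h1
    rw [h1]
  have hlj : ((iv c.n c.ex P : ℕ) : ZMod c.n) = lam * (j : ℕ) := by
    linear_combination ((iv c.n c.ex P : ℕ) : ZMod c.n) * (-hPu) + (lam * (j : ℕ)) * hinv'
  have q2 : R * iv c.n c.ex P % c.n = rs c.n (e i).2.1 * j % c.n := by
    have : ((R * iv c.n c.ex P : ℕ) : ZMod c.n) = ((rs c.n (e i).2.1 * j : ℕ) : ZMod c.n) := by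
      push_cast
      rw [rs_cast, t2, hlj]
      ring
    exact (ZMod.natCast_eq_natCast_iff' _ _ _).1 this
  have q3 : (c.n - S) % c.n * iv c.n c.ex P % c.n = rs c.n (-(e i).2.2) * j % c.n := by
    have : (((c.n - S) % c.n * iv c.n c.ex P : ℕ) : ZMod c.n) =
        ((rs c.n (-(e i).2.2) * j : ℕ) : ZMod c.n) := by
      rw [Nat.cast_mul, ZMod.natCast_mod, Nat.cast_sub hbd.2.2.le, ZMod.natCast_self]
      push_cast
      rw [rs_cast]
      push_cast
      rw [t3, hlj]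
      ring
    exact (ZMod.natCast_eq_natCast_iff' _ _ _).1 this
  have hpos : pp c a x i =
      pos c.n c.ex c.PT (rs c.n (e i).1) (rs c.n (e i).2.1) (rs c.n (-(e i).2.2)) := by
    unfold pp pos
    rw [strict_eq, strict_eq]
    have e1 : Nat.mod (Nat.mul (hs c.n a x i).2.1 (iv c.n c.ex (hs c.n a x i).1)) c.n =
        Nat.mod (Nat.mul (rs c.n (e i).2.1) (iv c.n c.ex (rs c.n (e i).1))) c.n := q2
    have e2 : Nat.mod (Nat.mul ((c.n - (hs c.n a x i).2.2) % c.n)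
        (iv c.n c.ex (hs c.n a x i).1)) c.n =
        Nat.mod (Nat.mul (rs c.n (-(e i).2.2)) (iv c.n c.ex (rs c.n (e i).1))) c.n := q3
    rw [e1, e2]
  refine ⟨?_, hpos⟩
  rw [hpos]
  exact (List.getElem?_eq_some_iff.1 v2).1

/-- value of the last middle coefficient -/
theorem TS.last (W : World par a e N) {c : Cmp} (hc : CmpOK c) {x : ℕ × ℕ}
    (T : TS par a e c x) :
    (((hs c.n a x N).2.1 * iv c.n c.ex (hs c.n a x N).2.2 % c.n : ℕ) : ZMod c.n) =
      (((e N).2.1 : ℤ) : ZMod c.n) ∧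
    ((((c.n - x.2) % c.n) * iv c.n c.ex (hs c.n a x N).2.2 % c.n : ℕ) : ZMod c.n) =
      (((e 0).2.2 : ℤ) : ZMod c.n) := by
  have hn := hc.pos
  have : NeZero c.n := ⟨hn.ne'⟩
  have hb := hc.F x (List.mem_filter.1 T.mem).1
  have hbd := Bd_hs (a := a) hn hb.1 N
  have t2 := T.h2 N
  have t3 := T.h3 N
  have t0 := T.h3 0
  rw [W.last] at t3
  push_cast at t3
  set S := (hs c.n a x N).2.2 with hS
  have hcop : Nat.Coprime S c.n := by
    rw [← ZMod.isUnit_iff_coprime]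
    exact IsUnit.of_mul_eq_one (((e 0).1 : ℤ) : ZMod c.n) (by rw [mul_comm]; exact t3.symm)
  have hinv := hc.inv S hbd.2.2 hcop
  have hinv' : ((S : ℕ) : ZMod c.n) * ((iv c.n c.ex S : ℕ) : ZMod c.n) = 1 := by
    have h1 := congrArg (fun x : ℕ => (x : ZMod c.n)) hinv
    simp only [ZMod.natCast_mod] at h1
    push_cast at h1
    rw [h1]
  have hl : ((iv c.n c.ex S : ℕ) : ZMod c.n) = (((e 0).1 : ℤ) : ZMod c.n) := by
    linear_combination ((iv c.n c.ex S : ℕ) : ZMod c.n) * t3 +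
      (((e 0).1 : ℤ) : ZMod c.n) * hinv'
  constructor
  · rw [ZMod.natCast_mod, Nat.cast_mul, hl, t2]
    ring
  · have e3 : (hs c.n a x 0).2.2 = (c.n - x.2) % c.n := rfl
    rw [ZMod.natCast_mod, Nat.cast_mul, hl, t0, e3]
    ring

end

end Pool.Agent.LibH4.CW
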